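import Pool.Agent.Lib_helper82.PT.AlgBase2

set_option autoImplicit false

open Polynomial
open scoped IntermediateField IntermediateField.algebraAdjoinAdjoin

namespace Pool.Agent.PT

variable {K : Type} [Field K] [Algebra ℂ K] {x : K}

private theorem a2b_ded (hx : Transcendental ℂ x) [FiniteDimensional ℂ⟮x⟯ K] :
    IsDedekindDomain (IntOver x) := ded x hx

private theorem a2b_frac (hx : Transcendental ℂ x) [FiniteDimensional ℂ⟮x⟯ K] :
    IsFractionRing (IntOver x) K := frac x hx

private theorem a2b_dvd {A : Type} [CommRing A] [IsDomain A] (P : Ideal A) [P.IsPrime] (u v : A)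
    (h : algebraMap A (Localization.AtPrime P) v ∣ algebraMap A (Localization.AtPrime P) u) :
    ∃ a k : A, k ∉ P ∧ u * k = v * a := by
  obtain ⟨c, hc⟩ := h
  obtain ⟨⟨a, k⟩, hk⟩ := IsLocalization.surj P.primeCompl c
  refine ⟨a, k, k.2, ?_⟩
  have hinj : Function.Injective (algebraMap A (Localization.AtPrime P)) :=
    IsLocalization.injective _ P.primeCompl_le_nonZeroDivisors
  apply hinj
  rw [map_mul, map_mul, hc, mul_assoc]
  congr 1

theorem val (hx : Transcendental ℂ x) [FiniteDimensional ℂ⟮x⟯ K] (χ : IntOver x →ₐ[ℂ] ℂ)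
    (g : K) :
    ∃ a h : IntOver x, χ h ≠ 0 ∧ (g * h = a ∨ (χ a = 0 ∧ g * a = h)) := by
  have h1 := a2b_ded hx
  have h2 := a2b_frac hx
  let P : Ideal (IntOver x) := RingHom.ker χ
  have hP : P.IsPrime := RingHom.ker_isPrime χ
  have hne : P ≠ ⊥ := by
    intro h0
    let z : IntOver x := ⟨x, self_mem x⟩ - algebraMap ℂ (IntOver x) (χ ⟨x, self_mem x⟩)
    have hz : z ∈ P := by
      change χ z = 0
      simp only [z, map_sub, AlgHom.commutes]
      simp
    rw [h0, Ideal.mem_bot] at hz
    have hz' : x = algebraMap ℂ K (χ ⟨x, self_mem x⟩) := by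
      have h3 := congrArg (fun w : IntOver x => (w : K)) hz
      exact sub_eq_zero.1 h3
    exact hx (hz' ▸ isAlgebraic_algebraMap _)
  have hdvr : IsDiscreteValuationRing (Localization.AtPrime P) :=
    IsLocalization.AtPrime.isDiscreteValuationRing_of_dedekind_domain (IntOver x) hne _
  obtain ⟨u, v, hv, huv⟩ := IsFractionRing.div_surjective (A := IntOver x) g
  have hv0 : (algebraMap (IntOver x) K v) ≠ 0 := by
    intro h0
    rw [map_eq_zero_iff _ (IsFractionRing.injective (IntOver x) K)] at h0
    exact nonZeroDivisors.ne_zero hv h0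
  have hmem : ∀ k : IntOver x, k ∉ P → χ k ≠ 0 := fun k hk h0 => hk h0
  rcases ValuationRing.dvd_total (algebraMap (IntOver x) (Localization.AtPrime P) v)
    (algebraMap (IntOver x) (Localization.AtPrime P) u) with hd | hd
  · obtain ⟨a, k, hk, he⟩ := a2b_dvd P u v hd
    refine ⟨a, k, hmem k hk, Or.inl ?_⟩
    have h3 := congrArg (algebraMap (IntOver x) K) he
    rw [map_mul, map_mul] at h3
    rw [← huv, div_mul_eq_mul_div, div_eq_iff hv0]
    change algebraMap (IntOver x) K u * algebraMap (IntOver x) K k =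
      algebraMap (IntOver x) K a * algebraMap (IntOver x) K v
    rw [h3, mul_comm]
  · obtain ⟨a, k, hk, he⟩ := a2b_dvd P v u hd
    have h4 : g * (a : K) = k := by
      have h3 := congrArg (algebraMap (IntOver x) K) he
      rw [map_mul, map_mul] at h3
      rw [← huv, div_mul_eq_mul_div, div_eq_iff hv0]
      change algebraMap (IntOver x) K u * algebraMap (IntOver x) K a =
        algebraMap (IntOver x) K k * algebraMap (IntOver x) K v
      rw [← h3, mul_comm]
    by_cases ha : χ a = 0
    · exact ⟨a, k, hmem k hk, Or.inr ⟨ha, h4⟩⟩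
    · exact ⟨k, a, ha, Or.inl h4⟩

end Pool.Agent.PT

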