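import Pool.Agent.Lib_helper82.PT.AlgBase2
import Pool.Agent.Lib_helper82.PT.P.A2b

set_option autoImplicit false

open Polynomial
open scoped IntermediateField IntermediateField.algebraAdjoinAdjoin

namespace Pool.Agent.PT

variable {K : Type} [Field K] [Algebra ℂ K] {x : K}

/-- the evaluation at `x`, with values in `ℂ[x]` -/
noncomputable def a1_phi (x : K) : ℂ[X] →+* Algebra.adjoin ℂ {x} :=
  (aeval (⟨x, Algebra.self_mem_adjoin_singleton ℂ x⟩ : Algebra.adjoin ℂ {x}) :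
    ℂ[X] →ₐ[ℂ] Algebra.adjoin ℂ {x}).toRingHom

theorem a1_phi_coe (x : K) (c : ℂ[X]) : ((a1_phi x c : Algebra.adjoin ℂ {x}) : K) = aeval x c := by
  have h := Polynomial.aeval_algHom_apply (Algebra.adjoin ℂ {x}).val
    (⟨x, Algebra.self_mem_adjoin_singleton ℂ x⟩ : Algebra.adjoin ℂ {x}) c
  exact h.symm

theorem a1_phi_surj (x : K) : Function.Surjective (a1_phi x) := by
  intro a
  have h : ∀ b : K, b ∈ Algebra.adjoin ℂ {x} → ∃ c : ℂ[X], aeval x c = b := by
    intro b hb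
    rw [Algebra.adjoin_singleton_eq_range_aeval] at hb
    exact hb
  obtain ⟨c, hc⟩ := h _ a.2
  refine ⟨c, Subtype.ext ?_⟩
  rw [a1_phi_coe]
  exact hc

theorem a1_comp (x : K) : (algebraMap (Algebra.adjoin ℂ {x}) K).comp (a1_phi x) =
    (aeval x : ℂ[X] →ₐ[ℂ] K).toRingHom := by
  ext c
  · simp [a1_phi]
  · simp [a1_phi]

theorem mem_iff_monic (x f : K) : f ∈ IntOver x ↔
    ∃ p : ℂ[X][X], p.Monic ∧ p.eval₂ (aeval x : ℂ[X] →ₐ[ℂ] K).toRingHom f = 0 := by
  rw [mem_intOver]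
  constructor
  · rintro ⟨p, hp, h0⟩
    have hl : p ∈ Polynomial.lifts (a1_phi x) := by
      rw [Polynomial.mem_lifts]
      exact (Polynomial.map_surjective _ (a1_phi_surj x)) p
    obtain ⟨q, hq, _, hqm⟩ := Polynomial.lifts_and_degree_eq_and_monic hl hp
    refine ⟨q, hqm, ?_⟩
    rw [← a1_comp x, ← Polynomial.eval₂_map, hq]
    exact h0
  · rintro ⟨q, hq, h0⟩
    refine ⟨q.map (a1_phi x), hq.map _, ?_⟩
    rw [Polynomial.eval₂_map, a1_comp]
    exact h0

theorem fgen (hx : Transcendental ℂ x) [FiniteDimensional ℂ⟮x⟯ K] :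
    ∃ s : Finset K, (∀ a ∈ s, a ∈ IntOver x) ∧
      ∀ f ∈ IntOver x, ∃ c : K → ℂ[X], f = ∑ a ∈ s, aeval x (c a) * a := by
  classical
  have hfin := fini x hx
  obtain ⟨S, hS⟩ := hfin.fg_top
  refine ⟨S.image Subtype.val, ?_, ?_⟩
  · intro a ha
    obtain ⟨b, _, rfl⟩ := Finset.mem_image.mp ha
    exact b.2
  · intro f hf
    have hmem : (⟨f, hf⟩ : integralClosure (Algebra.adjoin ℂ {x}) K) ∈
        Submodule.span (Algebra.adjoin ℂ {x}) (S : Set (integralClosure (Algebra.adjoin ℂ {x}) K)) := by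
      rw [hS]; trivial
    rw [Submodule.mem_span_finset'] at hmem
    obtain ⟨g, hg⟩ := hmem
    choose P hP using a1_phi_surj x
    refine ⟨fun a => if h : ∃ b : S, ((b : integralClosure (Algebra.adjoin ℂ {x}) K) : K) = a then
      P (g h.choose) else 0, ?_⟩
    rw [Finset.sum_image (fun a _ b _ h => Subtype.ext h)]
    have h1 : f = ∑ b : S, ((g b : Algebra.adjoin ℂ {x}) : K) *
        ((b : integralClosure (Algebra.adjoin ℂ {x}) K) : K) := by
      have := congrArg (fun a : integralClosure (Algebra.adjoin ℂ {x}) K => (a : K)) hg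
      simp only [AddSubmonoidClass.coe_finsetSum] at this
      rw [← this]
      refine Finset.sum_congr rfl fun b _ => ?_
      rfl
    conv_lhs => rw [h1]
    rw [← Finset.sum_coe_sort S]
    refine Finset.sum_congr rfl fun b _ => ?_
    have hex : ∃ b' : S, ((b' : integralClosure (Algebra.adjoin ℂ {x}) K) : K) =
        ((b : integralClosure (Algebra.adjoin ℂ {x}) K) : K) := ⟨b, rfl⟩
    have hch : hex.choose = b := Subtype.ext (Subtype.ext hex.choose_spec)
    beta_reduce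
    rw [dif_pos hex, hch, ← a1_phi_coe, hP]

theorem a1_mem_inv (hx0 : x ≠ 0) (c : ℂ[X]) {e : ℕ} (he : c.natDegree ≤ e) :
    aeval x c * x⁻¹ ^ e ∈ Algebra.adjoin ℂ {x⁻¹} := by
  rw [Polynomial.aeval_eq_sum_range, Finset.sum_mul]
  refine Subalgebra.sum_mem _ fun i hi => ?_
  have hi' : i ≤ e := by
    have := Finset.mem_range.mp hi
    omega
  have h1 : c.coeff i • x ^ i * x⁻¹ ^ e = c.coeff i • x⁻¹ ^ (e - i) := by
    rw [smul_mul_assoc]
    congr 1
    have : e = i + (e - i) := by omega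
    conv_lhs => rw [this, pow_add, ← mul_assoc, ← mul_pow, mul_inv_cancel₀ hx0, one_pow, one_mul]
  rw [h1]
  exact Subalgebra.smul_mem _ (Subalgebra.pow_mem _ (Algebra.self_mem_adjoin_singleton ℂ _) _) _

theorem pole_bd (hx : Transcendental ℂ x) {f : K} (hf : f ∈ IntOver x) :
    ∃ N : ℕ, ∀ j, N ≤ j → x⁻¹ ^ j * f ∈ IntOver x⁻¹ := by
  have hx0 : x ≠ 0 := by
    rintro rfl
    exact hx isAlgebraic_zero
  obtain ⟨p, hp, h0⟩ := (mem_iff_monic x f).1 hf
  set m := p.natDegree with hm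
  refine ⟨(Finset.range m).sup fun k => (p.coeff k).natDegree, fun j hj => ?_⟩
  have hdeg : ∀ k ∈ Finset.range m, (p.coeff k).natDegree ≤ j * (m - k) := by
    intro k hk
    have h1 := Finset.le_sup (f := fun k => (p.coeff k).natDegree) hk
    have h2 : 1 ≤ m - k := by
      have := Finset.mem_range.mp hk
      omega
    calc (p.coeff k).natDegree ≤ j := h1.trans hj
      _ = j * 1 := (mul_one j).symm
      _ ≤ j * (m - k) := Nat.mul_le_mul_left _ h2
  rw [mem_intOver]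
  have hb : ∀ k, k ∈ Finset.range m →
      aeval x (p.coeff k) * x⁻¹ ^ (j * (m - k)) ∈ Algebra.adjoin ℂ {x⁻¹} := fun k hk =>
    a1_mem_inv hx0 _ (hdeg k hk)
  set q : (Algebra.adjoin ℂ {x⁻¹})[X] := ∑ k ∈ (Finset.range m).attach,
    C (⟨_, hb k.1 k.2⟩ : Algebra.adjoin ℂ {x⁻¹}) * X ^ k.1 with hq
  have hqdeg : q.degree < m := by
    rw [hq]
    refine Polynomial.mem_degreeLT.1 (Submodule.sum_mem _ fun k _ => Polynomial.mem_degreeLT.2 ?_)
    refine lt_of_le_of_lt (Polynomial.degree_C_mul_X_pow_le _ _) ?_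
    exact_mod_cast Finset.mem_range.mp k.2
  refine ⟨X ^ m + q, Polynomial.monic_X_pow_add hqdeg, ?_⟩
  have hsum : f ^ m + ∑ k ∈ Finset.range m, aeval x (p.coeff k) * f ^ k = 0 := by
    rw [Polynomial.eval₂_eq_sum_range, Finset.sum_range_succ] at h0
    have h2 : p.coeff p.natDegree = 1 := hp
    rw [h2, map_one, one_mul, ← hm, add_comm] at h0
    exact h0
  rw [Polynomial.eval₂_add, Polynomial.eval₂_X_pow, hq, Polynomial.eval₂_finsetSum]
  have h3 : ∀ k ∈ (Finset.range m).attach, Polynomial.eval₂ (algebraMap (Algebra.adjoin ℂ {x⁻¹}) K)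
      (x⁻¹ ^ j * f) (C (⟨_, hb k.1 k.2⟩ : Algebra.adjoin ℂ {x⁻¹}) * X ^ k.1) =
      x⁻¹ ^ (j * m) * (aeval x (p.coeff k.1) * f ^ k.1) := by
    intro k _
    rw [Polynomial.eval₂_mul, Polynomial.eval₂_C, Polynomial.eval₂_X_pow]
    change aeval x (p.coeff k.1) * x⁻¹ ^ (j * (m - k.1)) * (x⁻¹ ^ j * f) ^ k.1 = _
    have hk : k.1 ≤ m := (Finset.mem_range.mp k.2).le
    have h4 : x⁻¹ ^ (j * m) = x⁻¹ ^ (j * (m - k.1)) * (x⁻¹ ^ j) ^ k.1 := by
      rw [← pow_mul, ← pow_add, ← mul_add, Nat.sub_add_cancel hk]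
    rw [h4, mul_pow]
    ring
  rw [Finset.sum_congr rfl h3, ← Finset.mul_sum,
    Finset.sum_attach (Finset.range m) (fun k => aeval x (p.coeff k) * f ^ k), mul_pow, ← pow_mul,
    ← mul_add, hsum, mul_zero]

end Pool.Agent.PT

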