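import Pool.Agent.Lib_helper82.PT.AlgBase2
import Pool.Agent.Lib_helper82.PT.DefsB
import Pool.Agent.Lib_helper82.PT.P.A1
import Pool.Agent.Lib_helper82.PT.P.A2b

set_option autoImplicit false

open Filter Topology Metric Set
open scoped IntermediateField IntermediateField.algebraAdjoinAdjoin

namespace Pool.Agent.PT

variable {K : IntermediateField ℂ Mer} {x : K}

open Polynomial in
theorem c1_eq {f : K} (hf : f ∈ IntOver x) : ∃ (m : ℕ) (c : ℕ → ℂ[X]), 1 ≤ m ∧
    (f : Mer) ^ m + ∑ k ∈ Finset.range m, aeval (x : Mer) (c k) * (f : Mer) ^ k = 0 := by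
  obtain ⟨p, hp, h0⟩ := (mem_iff_monic x f).1 hf
  rw [Polynomial.eval₂_eq_sum_range, Finset.sum_range_succ] at h0
  have h2 : p.coeff p.natDegree = 1 := hp
  rw [h2, map_one, one_mul, add_comm] at h0
  have h3 := congrArg (K.val) h0
  rw [map_add, map_pow, map_sum, map_zero] at h3
  have h4 : (f : Mer) ^ p.natDegree +
      ∑ k ∈ Finset.range p.natDegree, aeval (x : Mer) (p.coeff k) * (f : Mer) ^ k = 0 := by
    have h5 : ∀ k ∈ Finset.range p.natDegree, aeval (x : Mer) (p.coeff k) * (f : Mer) ^ k =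
        K.val ((aeval x : ℂ[X] →ₐ[ℂ] K).toRingHom (p.coeff k) * f ^ k) := by
      intro k _
      rw [map_mul, map_pow]
      congr 1
      exact Polynomial.aeval_algHom_apply K.val x (p.coeff k)
    rw [Finset.sum_congr rfl h5]
    exact h3
  refine ⟨p.natDegree, p.coeff, ?_, h4⟩
  by_contra hlt
  have hz : p.natDegree = 0 := by omega
  rw [hz] at h4
  simp at h4

open Polynomial in
theorem c1_aeval_mem {z : ℂ} (hz : Reg (x : Mer) z) (c : ℂ[X]) :
    Reg (aeval (x : Mer) c) z ∧ fn (aeval (x : Mer) c) z = c.eval (fn (x : Mer) z) := by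
  have h1 : aeval (x : Mer) c = ((aeval (⟨(x : Mer), hz⟩ : regAt z) c : regAt z) : Mer) :=
    Polynomial.aeval_algHom_apply (regAt z).val (⟨(x : Mer), hz⟩ : regAt z) c
  refine ⟨?_, ?_⟩
  · rw [h1]; exact (aeval (⟨(x : Mer), hz⟩ : regAt z) c : regAt z).2
  · rw [h1]
    have h2 := Polynomial.aeval_algHom_apply (ev z) (⟨(x : Mer), hz⟩ : regAt z) c
    rw [ev_apply, ev_apply] at h2
    rw [← h2, Polynomial.coe_aeval_eq_eval]

theorem c1_reg {f : K} (hf : f ∈ IntOver x) {z : ℂ} (hz : Reg (x : Mer) z) : Reg (f : Mer) z := by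
  obtain ⟨m, c, hm, h⟩ := c1_eq hf
  by_contra hreg
  obtain ⟨_, hg, hg0⟩ := pole hreg
  have hf0 : (f : Mer) ≠ 0 := by
    intro h0
    rw [h0] at hreg
    have := (reg_const 0 z).1
    rw [map_zero] at this
    exact hreg this
  set g : Mer := (f : Mer)⁻¹ with hgdef
  have h1 : 1 + ∑ k ∈ Finset.range m, Polynomial.aeval (x : Mer) (c k) * g ^ (m - k) = 0 := by
    have h2 := congrArg (fun t => t * g ^ m) h
    simp only [zero_mul, add_mul, Finset.sum_mul] at h2
    have h3 : (f : Mer) ^ m * g ^ m = 1 := by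
      rw [← mul_pow, hgdef, mul_inv_cancel₀ hf0, one_pow]
    rw [h3] at h2
    rw [← h2]
    congr 1
    refine Finset.sum_congr rfl fun k hk => ?_
    have hk' : k ≤ m := (Finset.mem_range.mp hk).le
    have h4 : g ^ m = g ^ k * g ^ (m - k) := by rw [← pow_add, Nat.add_sub_cancel' hk']
    have h5 : (f : Mer) ^ k * g ^ k = 1 := by
      rw [← mul_pow, hgdef, mul_inv_cancel₀ hf0, one_pow]
    rw [h4, mul_assoc, ← mul_assoc ((f : Mer) ^ k), h5, one_mul]
  let G : regAt z := ⟨g, hg⟩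
  let A : ℕ → regAt z := fun k => ⟨Polynomial.aeval (x : Mer) (c k), (c1_aeval_mem hz (c k)).1⟩
  have h6 : (1 : regAt z) + ∑ k ∈ Finset.range m, A k * G ^ (m - k) = 0 := by
    apply Subtype.ext
    rw [AddMemClass.coe_add, AddSubmonoidClass.coe_finsetSum]
    exact h1
  have h7 := congrArg (ev z) h6
  rw [map_add, map_one, map_zero, map_sum] at h7
  have h8 : ∀ k ∈ Finset.range m, ev z (A k * G ^ (m - k)) = 0 := by
    intro k hk
    have hG : ev z G = 0 := hg0
    have : m - k ≠ 0 := by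
      have := Finset.mem_range.mp hk
      omega
    rw [map_mul, map_pow, hG, zero_pow this, mul_zero]
  rw [Finset.sum_eq_zero h8, add_zero] at h7
  exact one_ne_zero h7

theorem c1_root {m : ℕ} (hm : 1 ≤ m) (b : ℕ → ℂ) (B : ℕ → ℝ) (hB : ∀ k ∈ Finset.range m, ‖b k‖ ≤ B k)
    {v : ℂ} (h : v ^ m + ∑ k ∈ Finset.range m, b k * v ^ k = 0) :
    ‖v‖ ≤ 1 + ∑ k ∈ Finset.range m, B k := by
  by_contra hlt
  push Not at hlt
  have hB0 : ∀ k ∈ Finset.range m, 0 ≤ B k := fun k hk => (norm_nonneg _).trans (hB k hk)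
  have hS : 0 ≤ ∑ k ∈ Finset.range m, B k := Finset.sum_nonneg hB0
  have hv1 : 1 ≤ ‖v‖ := by linarith
  have h1 : v ^ m = -∑ k ∈ Finset.range m, b k * v ^ k := eq_neg_of_add_eq_zero_left h
  have h2 : ‖v‖ ^ m ≤ (∑ k ∈ Finset.range m, B k) * ‖v‖ ^ (m - 1) := by
    rw [← norm_pow, h1, norm_neg, Finset.sum_mul]
    refine (norm_sum_le _ _).trans (Finset.sum_le_sum fun k hk => ?_)
    rw [norm_mul, norm_pow]
    refine mul_le_mul (hB k hk) (pow_le_pow_right₀ hv1 ?_) (by positivity) (hB0 k hk)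
    have := Finset.mem_range.mp hk
    omega
  have h3 : ‖v‖ ^ m = ‖v‖ * ‖v‖ ^ (m - 1) := by
    rw [← pow_succ']
    congr 1
    omega
  rw [h3] at h2
  have h4 : ‖v‖ ≤ ∑ k ∈ Finset.range m, B k := le_of_mul_le_mul_right h2 (by positivity)
  linarith

theorem int_bd {f : K} (hf : f ∈ IntOver x) (M : ℝ) : ∃ M' : ℝ, ∀ z, Reg (x : Mer) z →
    ‖fn (x : Mer) z‖ ≤ M → Reg (f : Mer) z ∧ ‖fn (f : Mer) z‖ ≤ M' := by
  obtain ⟨m, c, hm, h⟩ := c1_eq hf
  have hb : ∀ k, ∃ B : ℝ, ∀ w : ℂ, ‖w‖ ≤ M → ‖(c k).eval w‖ ≤ B := by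
    intro k
    obtain ⟨B, hB⟩ := (isCompact_closedBall (0 : ℂ) M).exists_bound_of_continuousOn
      (f := fun w => (c k).eval w) (c k).continuous.continuousOn
    exact ⟨B, fun w hw => hB w (mem_closedBall_zero_iff.mpr hw)⟩
  choose B hB using hb
  refine ⟨1 + ∑ k ∈ Finset.range m, B k, fun z hz hM => ?_⟩
  have hfz := c1_reg hf hz
  refine ⟨hfz, ?_⟩
  let F : regAt z := ⟨(f : Mer), hfz⟩
  let A : ℕ → regAt z := fun k => ⟨Polynomial.aeval (x : Mer) (c k), (c1_aeval_mem hz (c k)).1⟩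
  have h6 : F ^ m + ∑ k ∈ Finset.range m, A k * F ^ k = 0 := by
    apply Subtype.ext
    rw [AddMemClass.coe_add, AddSubmonoidClass.coe_finsetSum]
    exact h
  have h7 := congrArg (ev z) h6
  rw [map_add, map_pow, map_zero, map_sum] at h7
  have h8 : ∀ k ∈ Finset.range m, ev z (A k * F ^ k) =
      (c k).eval (fn (x : Mer) z) * (fn (f : Mer) z) ^ k := by
    intro k _
    rw [map_mul, map_pow]
    congr 1
    exact (c1_aeval_mem hz (c k)).2
  rw [Finset.sum_congr rfl h8] at h7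
  exact c1_root hm (fun k => (c k).eval (fn (x : Mer) z)) B (fun k _ => hB k _ hM) h7

theorem char_at {z : ℂ} (hz : Reg (x : Mer) z) : ∃ χ : IntOver x →ₐ[ℂ] ℂ,
    ∀ a : IntOver x, χ a = fn ((a : K) : Mer) z := by
  refine ⟨(ev z).comp (AlgHom.codRestrict (K.val.comp (IntOver x).val) (regAt z)
    fun a => c1_reg a.2 hz), fun a => ?_⟩
  rfl

end Pool.Agent.PT

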