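import Pool.Agent.Lib_helper82.PT.AlgBase2
import Pool.Agent.Lib_helper82.PT.DefsB
import Pool.Agent.Lib_helper82.PT.P.A1
import Pool.Agent.Lib_helper82.PT.P.A2b
import Pool.Agent.Lib_helper82.PT.P.C1

/-! # The plane theorem, block C10 (finitely many places over a value) -/

set_option autoImplicit false

open Filter Topology Metric Set
open scoped IntermediateField IntermediateField.algebraAdjoinAdjoin

namespace Pool.Agent.PT

open Polynomial in
/-- a character maps a root of a monic polynomial to a root of a fixed polynomial -/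
theorem c10_root {K : Type} [Field K] [Algebra ℂ K] {x : K} {c : ℂ} (χ : IntOver x →ₐ[ℂ] ℂ)
    (hχ : χ ⟨x, self_mem x⟩ = c) (a : IntOver x) (p : ℂ[X][X])
    (h : p.eval₂ (aeval x : ℂ[X] →ₐ[ℂ] K).toRingHom (a : K) = 0) :
    (p.map (evalRingHom c)).eval (χ a) = 0 := by
  have h1 : p.eval₂ (aeval (⟨x, self_mem x⟩ : IntOver x) : ℂ[X] →ₐ[ℂ] IntOver x).toRingHom a
      = 0 := by
    apply Subtype.val_injective
    have h2 := Polynomial.hom_eval₂ p
      (aeval (⟨x, self_mem x⟩ : IntOver x) : ℂ[X] →ₐ[ℂ] IntOver x).toRingHom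
      (IntOver x).val.toRingHom a
    have h3 : (IntOver x).val.toRingHom.comp
        (aeval (⟨x, self_mem x⟩ : IntOver x) : ℂ[X] →ₐ[ℂ] IntOver x).toRingHom =
        (aeval x : ℂ[X] →ₐ[ℂ] K).toRingHom := by
      have h4 : (IntOver x).val.comp (aeval (⟨x, self_mem x⟩ : IntOver x)) = aeval x := by
        apply Polynomial.algHom_ext
        simp
      rw [← h4]
      rfl
    rw [h3] at h2
    exact h2.trans h
  have h2 := Polynomial.hom_eval₂ p
    (aeval (⟨x, self_mem x⟩ : IntOver x) : ℂ[X] →ₐ[ℂ] IntOver x).toRingHom χ.toRingHom a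
  have h3 : χ.toRingHom.comp
      (aeval (⟨x, self_mem x⟩ : IntOver x) : ℂ[X] →ₐ[ℂ] IntOver x).toRingHom =
      evalRingHom c := by
    apply Polynomial.ringHom_ext
    · intro b
      simp
    · simp [hχ]
  rw [h1, h3] at h2
  rw [Polynomial.eval_map]
  exact h2.symm.trans (map_zero χ.toRingHom)

open Polynomial in
theorem c10_val {K : Type} [Field K] [Algebra ℂ K] {x : K} {c : ℂ} (χ : IntOver x →ₐ[ℂ] ℂ)
    (hχ : χ ⟨x, self_mem x⟩ = c) (s : Finset K) (hs : ∀ a ∈ s, a ∈ IntOver x) (d : K → ℂ[X])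
    (f : IntOver x) (hf : (f : K) = ∑ a ∈ s, aeval x (d a) * a) :
    χ f = ∑ a ∈ s.attach, (d a).eval c * χ ⟨a, hs a a.2⟩ := by
  have h1 : f = ∑ a ∈ s.attach, aeval (⟨x, self_mem x⟩ : IntOver x) (d a) * ⟨a, hs a a.2⟩ := by
    apply Subtype.val_injective
    have h4 : (IntOver x).val.comp (aeval (⟨x, self_mem x⟩ : IntOver x)) = aeval x := by
      apply Polynomial.algHom_ext
      simp
    rw [hf, ← Finset.sum_attach]
    show _ = (IntOver x).val (∑ a ∈ s.attach, aeval (⟨x, self_mem x⟩ : IntOver x) (d a) *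
      ⟨a, hs a a.2⟩)
    rw [map_sum]
    refine Finset.sum_congr rfl fun a _ => ?_
    rw [map_mul, ← h4]
    rfl
  rw [h1, map_sum]
  refine Finset.sum_congr rfl fun a _ => ?_
  rw [map_mul, ← Polynomial.aeval_algHom_apply, hχ]
  simp

variable {K : IntermediateField ℂ Mer} {x : K}

theorem pigeon (hx : Transcendental ℂ x) [FiniteDimensional ℂ⟮x⟯ K] (z : ℕ → ℂ) (c : ℂ)
    (hz : ∀ k, Reg (x : Mer) (z k) ∧ fn (x : Mer) (z k) = c) :
    ∃ i j : ℕ, i < j ∧ ∀ a ∈ IntOver x, fn (a : Mer) (z i) = fn (a : Mer) (z j) := by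
  classical
  choose χ hχ using fun k => char_at (hz k).1
  have hχx : ∀ k, χ k ⟨x, self_mem x⟩ = c := fun k => (hχ k _).trans (hz k).2
  obtain ⟨s, hs, hgen⟩ := fgen hx
  choose! p hp using fun (a : K) (ha : a ∈ IntOver x) => (mem_iff_monic x a).1 ha
  let F : ℕ → (∀ a : s, ((p a).map (Polynomial.evalRingHom c)).roots.toFinset) := fun k a =>
    ⟨χ k ⟨a, hs a a.2⟩, by
      rw [Multiset.mem_toFinset, Polynomial.mem_roots
        ((hp a (hs a a.2)).1.map (Polynomial.evalRingHom c)).ne_zero]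
      exact c10_root (χ k) (hχx k) _ _ (hp a (hs a a.2)).2⟩
  obtain ⟨i, j, hij, hF⟩ := Finite.exists_ne_map_eq_of_infinite F
  have key : ∀ a ∈ IntOver x, fn (a : Mer) (z i) = fn (a : Mer) (z j) := by
    intro a ha
    obtain ⟨d, hd⟩ := hgen a ha
    have h1 := c10_val (χ i) (hχx i) s hs d ⟨a, ha⟩ hd
    have h2 := c10_val (χ j) (hχx j) s hs d ⟨a, ha⟩ hd
    rw [← hχ i ⟨a, ha⟩, ← hχ j ⟨a, ha⟩, h1, h2]
    refine Finset.sum_congr rfl fun b _ => ?_
    have h3 := congrArg Subtype.val (congrFun hF b)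
    have h4 : χ i ⟨b, hs b b.2⟩ = χ j ⟨b, hs b b.2⟩ := h3
    rw [h4]
  rcases lt_or_gt_of_ne hij with h | h
  · exact ⟨i, j, h, key⟩
  · exact ⟨j, i, h, fun a ha => (key a ha).symm⟩

end Pool.Agent.PT

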