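import Pool.Agent.Lib_helper82.PT.AlgBase2
import Pool.Agent.Lib_helper82.PT.DefsB

/-! # Block C3 (Cauchy, Liouville, constants) -/

set_option autoImplicit false

open Filter Topology Metric Set
open scoped IntermediateField IntermediateField.algebraAdjoinAdjoin

namespace Pool.Agent.PT

theorem cauchy {f : Mer} {z₀ : ℂ} {r M : ℝ} (hr : 0 < r) (h : Bdd f z₀ r M) :
    Reg (D f) z₀ ∧ ‖fn (D f) z₀‖ ≤ M / r := by
  have h0 : Reg f z₀ := (h z₀ (mem_ball_self hr)).1
  obtain ⟨h1, h2⟩ := reg_D h0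
  refine ⟨h1, ?_⟩
  rw [h2.eq_of_nhds]
  have key : ∀ ρ : ℝ, 0 < ρ → ρ < r → ‖deriv (fn f) z₀‖ ≤ M / ρ := by
    intro ρ hρ hρr
    refine Complex.norm_deriv_le_of_forall_mem_sphere_norm_le hρ ?_ ?_
    · refine DifferentiableOn.diffContOnCl ?_
      intro z hz
      have hz' : z ∈ ball z₀ r :=
        (mem_closedBall.1 (closure_ball_subset_closedBall hz)).trans_lt hρr
      exact (h z hz').1.differentiableAt.differentiableWithinAt
    · intro z hz
      exact (h z (by rw [mem_ball, mem_sphere.1 hz]; exact hρr)).2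
  rw [le_div_iff₀ hr]
  have ht : Tendsto (fun ρ : ℝ => ‖deriv (fn f) z₀‖ * ρ) (𝓝[<] r)
      (𝓝 (‖deriv (fn f) z₀‖ * r)) :=
    ((continuous_const.mul continuous_id).tendsto r).mono_left nhdsWithin_le_nhds
  refine le_of_tendsto ht ?_
  filter_upwards [Ioo_mem_nhdsLT hr] with ρ hρ
  have h3 := key ρ hρ.1 hρ.2
  rwa [le_div_iff₀ hρ.1] at h3

theorem liouville {f : Mer} {C : ℝ} (h : ∀ z, Reg f z ∧ ‖fn f z‖ ≤ C) :
    ∃ c : ℂ, f = algebraMap ℂ Mer c := by
  have hd : Differentiable ℂ (fn f) := fun z => (h z).1.differentiableAt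
  have hb : Bornology.IsBounded (range (fn f)) := by
    rw [isBounded_iff_forall_norm_le]
    exact ⟨C, by rintro _ ⟨z, rfl⟩; exact (h z).2⟩
  refine ⟨fn f 0, eq_of_eventually (z := 0) (Eventually.of_forall fun w => ?_)⟩
  rw [(reg_const _ w).2]
  exact hd.apply_eq_apply_of_bounded hb w 0

theorem const_of_D {f : Mer} (h : D f = 0) : ∃ c : ℂ, f = algebraMap ℂ Mer c := by
  obtain ⟨z₀, hz₀⟩ := (an_ev f).exists
  have h2 := (reg_D hz₀).2
  have h0 : ∀ z, fn (0 : Mer) z = 0 := by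
    intro z
    have h5 := (reg_const 0 z).2
    rwa [map_zero] at h5
  have h3 : ∀ᶠ z in 𝓝 z₀, deriv (fn f) z = 0 := by
    filter_upwards [h2] with z hz
    rw [← hz, h, h0]
  have h4 : ∀ᶠ z in 𝓝 z₀, AnalyticAt ℂ (fn f) z := AnalyticAt.eventually_analyticAt hz₀
  obtain ⟨ε, hε, hb⟩ := Metric.eventually_nhds_iff_ball.1 (h3.and h4)
  refine ⟨fn f z₀, eq_of_eventually (z := z₀) ?_⟩
  have h6 : ∀ᶠ w in 𝓝 z₀, fn f w = fn (algebraMap ℂ Mer (fn f z₀)) w := by
    filter_upwards [ball_mem_nhds z₀ hε] with w hw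
    rw [(reg_const _ w).2]
    exact isOpen_ball.is_const_of_deriv_eq_zero (convex_ball z₀ ε).isPreconnected
      (fun z hz => (hb z hz).2.differentiableAt.differentiableWithinAt)
      (fun z hz => (hb z hz).1) hw (mem_ball_self hε)
  exact h6.filter_mono nhdsWithin_le_nhds

end Pool.Agent.PT

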