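import Pool.Agent.Lib_helper82.PT.AlgBase2
import Pool.Agent.Lib_helper82.PT.DefsB
import Pool.Agent.Lib_helper82.PT.P.C1
import Pool.Agent.Lib_helper82.PT.P.C3

/-! # Block C4 (differentials are small in the middle of large discs) -/

set_option autoImplicit false

open Filter Topology Metric Set
open scoped IntermediateField IntermediateField.algebraAdjoinAdjoin

namespace Pool.Agent.PT

variable {K : IntermediateField ℂ Mer} {x : K}

theorem c4_sum {n : ℕ} {g : Fin n → Mer} {z : ℂ} (h : ∀ i, Reg (g i) z) :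
    Reg (∑ i, g i) z ∧ fn (∑ i, g i) z = ∑ i, fn (g i) z := by
  have h1 : (∑ i, g i) ∈ regAt z := Subalgebra.sum_mem _ fun i _ => h i
  refine ⟨h1, ?_⟩
  have h2 : ev z ⟨∑ i, g i, h1⟩ = ∑ i, ev z ⟨g i, h i⟩ := by
    rw [← map_sum]
    congr 1
    exact Subtype.ext (by simp)
  exact h2

theorem kd_small {l : Mer} (h : IsKd (DK K) x l) (M : ℝ) :
    ∃ C : ℝ, ∀ (z₀ : ℂ) (r : ℝ), 0 < r →
    Bdd (x : Mer) z₀ r M → Reg l z₀ ∧ ‖fn l z₀‖ ≤ C / r := by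
  obtain ⟨n, b, y, hby, rfl⟩ := h
  choose B hB using fun i => int_bd (hby i).1 M
  choose Y hY using fun i => int_bd (hby i).2 M
  refine ⟨∑ i, B i * Y i, fun z₀ r hr hx => ?_⟩
  have h1 : ∀ i, b i • DK K (y i) = (b i : Mer) * D (y i : Mer) := fun i => rfl
  simp only [h1]
  have hz : z₀ ∈ ball z₀ r := mem_ball_self hr
  have h2 : ∀ i, Reg (b i : Mer) z₀ ∧ ‖fn (b i : Mer) z₀‖ ≤ B i :=
    fun i => hB i z₀ (hx z₀ hz).1 (hx z₀ hz).2
  have h3 : ∀ i, Reg (D (y i : Mer)) z₀ ∧ ‖fn (D (y i : Mer)) z₀‖ ≤ Y i / r :=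
    fun i => cauchy hr fun z hz => hY i z (hx z hz).1 (hx z hz).2
  have h4 : ∀ i, Reg ((b i : Mer) * D (y i : Mer)) z₀ ∧
      fn ((b i : Mer) * D (y i : Mer)) z₀ = fn (b i : Mer) z₀ * fn (D (y i : Mer)) z₀ :=
    fun i => ⟨(reg_mul (h2 i).1 (h3 i).1).1, (reg_mul (h2 i).1 (h3 i).1).2.eq_of_nhds⟩
  obtain ⟨h5, h6⟩ := c4_sum fun i => (h4 i).1
  refine ⟨h5, ?_⟩
  rw [h6, Finset.sum_div]
  refine (norm_sum_le _ _).trans (Finset.sum_le_sum fun i _ => ?_)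
  rw [(h4 i).2, norm_mul, mul_div_assoc]
  exact mul_le_mul (h2 i).2 (h3 i).2 (norm_nonneg _) ((norm_nonneg _).trans (h2 i).2)

end Pool.Agent.PT

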