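import Pool.Agent.Lib_helper82.PT.AlgBase2
import Pool.Agent.Lib_helper82.PT.DefsB

set_option autoImplicit false

open Filter Topology Metric Set
open scoped IntermediateField IntermediateField.algebraAdjoinAdjoin

namespace Pool.Agent.PT

variable {K : IntermediateField ℂ Mer} {x : K}

/-- the elements of `K` whose derivative is in `K` -/
noncomputable def c5S (K : IntermediateField ℂ Mer) : IntermediateField ℂ K where
  carrier := {g | D (g : Mer) ∈ K}
  mul_mem' := by
    intro a b ha hb
    change D (((a * b : K) : K) : Mer) ∈ K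
    have h : (((a * b : K) : K) : Mer) = (a : Mer) * (b : Mer) := rfl
    rw [h, Derivation.leibniz, smul_eq_mul, smul_eq_mul]
    exact K.add_mem (K.mul_mem a.2 hb) (K.mul_mem b.2 ha)
  one_mem' := by
    change D (((1 : K) : K) : Mer) ∈ K
    have h : (((1 : K) : K) : Mer) = 1 := rfl
    rw [h, Derivation.map_one_eq_zero]
    exact K.zero_mem
  add_mem' := by
    intro a b ha hb
    change D (((a + b : K) : K) : Mer) ∈ K
    have h : (((a + b : K) : K) : Mer) = (a : Mer) + (b : Mer) := rfl
    rw [h, map_add]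
    exact K.add_mem ha hb
  zero_mem' := by
    change D (((0 : K) : K) : Mer) ∈ K
    have h : (((0 : K) : K) : Mer) = 0 := rfl
    rw [h, map_zero]
    exact K.zero_mem
  algebraMap_mem' := by
    intro c
    change D (((algebraMap ℂ K c : K) : K) : Mer) ∈ K
    have h : (((algebraMap ℂ K c : K) : K) : Mer) = algebraMap ℂ Mer c := rfl
    rw [h, Derivation.map_algebraMap]
    exact K.zero_mem
  inv_mem' := by
    intro a ha
    change D (((a⁻¹ : K) : K) : Mer) ∈ K
    have h : (((a⁻¹ : K) : K) : Mer) = (a : Mer)⁻¹ := rfl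
    rw [h, Derivation.leibniz_inv, smul_eq_mul]
    exact K.mul_mem (K.neg_mem (pow_mem (K.inv_mem a.2) 2)) ha

theorem c5_mem {g : K} : g ∈ c5S K ↔ D (g : Mer) ∈ K := Iff.rfl

theorem c5_poly {R F L M : Type} [CommRing R] [Field F] [Field L] [Field M] [Algebra R L]
    [Algebra R M] [Algebra F L] [Algebra L M] (d : Derivation R L M)
    (hF : ∀ a : F, ∃ k : L, d (algebraMap F L a) = algebraMap L M k) (f : L)
    (P : Polynomial F) : ∃ k : L, d (Polynomial.aeval f P) =
      algebraMap L M k + algebraMap L M (Polynomial.aeval f (Polynomial.derivative P)) * d f := by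
  induction P using Polynomial.induction_on' with
  | add p q hp hq =>
    obtain ⟨k, hk⟩ := hp
    obtain ⟨l, hl⟩ := hq
    refine ⟨k + l, ?_⟩
    rw [Polynomial.derivative_add, map_add, map_add, map_add, map_add, map_add, hk, hl]
    ring
  | monomial n a =>
    obtain ⟨k, hk⟩ := hF a
    refine ⟨f ^ n * k, ?_⟩
    rw [Polynomial.derivative_monomial, Polynomial.aeval_monomial, Polynomial.aeval_monomial,
      Derivation.leibniz, Derivation.leibniz_pow, hk]
    simp only [Algebra.smul_def, map_mul, map_pow, map_natCast, eq_natCast]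
    ring

theorem c5_main {R F L M : Type} [CommRing R] [Field F] [CharZero F] [Field L] [Field M]
    [Algebra R L] [Algebra R M] [Algebra F L] [Algebra L M] [FiniteDimensional F L]
    (d : Derivation R L M) (hF : ∀ a : F, ∃ k : L, d (algebraMap F L a) = algebraMap L M k)
    (f : L) : ∃ k : L, d f = algebraMap L M k := by
  obtain ⟨k, hk⟩ := c5_poly d hF f (minpoly F f)
  have hint : IsIntegral F f := Algebra.IsIntegral.isIntegral f
  have hsep : (minpoly F f).Separable := (minpoly.irreducible hint).separable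
  have hne : Polynomial.aeval f (Polynomial.derivative (minpoly F f)) ≠ 0 :=
    hsep.aeval_derivative_ne_zero (minpoly.aeval _ _)
  rw [minpoly.aeval, map_zero] at hk
  have hne' : algebraMap L M (Polynomial.aeval f (Polynomial.derivative (minpoly F f))) ≠ 0 := by
    rwa [Ne, FaithfulSMul.algebraMap_eq_zero_iff]
  refine ⟨-k * (Polynomial.aeval f (Polynomial.derivative (minpoly F f)))⁻¹, ?_⟩
  rw [map_mul, map_inv₀, map_neg, eq_mul_inv_iff_mul_eq₀ hne']
  linear_combination -hk

theorem D_stable [FiniteDimensional ℂ⟮x⟯ K] (hDx : D (x : Mer) ∈ K) (f : K) :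
    D (f : Mer) ∈ K := by
  have hF : ∀ a : ℂ⟮x⟯, ∃ k : K, DK K (algebraMap ℂ⟮x⟯ K a) = algebraMap K Mer k := by
    have hle : ℂ⟮x⟯ ≤ c5S K := by
      rw [IntermediateField.adjoin_simple_le_iff]
      exact hDx
    intro a
    exact ⟨⟨D ((a : K) : Mer), hle a.2⟩, rfl⟩
  obtain ⟨k, hk⟩ := c5_main (F := ℂ⟮x⟯) (DK K) hF f
  have h1 : D (f : Mer) = (k : Mer) := hk
  rw [h1]
  exact k.2


end Pool.Agent.PT
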