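import Pool.Agent.Lib_helper82.PT.AlgBase2
import Pool.Agent.Lib_helper82.PT.DefsB

/-! Block C2: periods of meromorphic functions on the plane. -/

set_option autoImplicit false

open Filter Topology Metric Set
open scoped IntermediateField IntermediateField.algebraAdjoinAdjoin

namespace Pool.Agent.PT

theorem c2_nf (f : Mer) (p z : ℂ) : MeromorphicNFAt (fun w => fn f (w + p)) z :=
  MeromorphicNFAt.comp_analyticAt (f := fn f) (g := fun w => w + p) (fn_nfAt f (z + p))
    (by fun_prop)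

/-- the translate of a meromorphic function -/
theorem c2_tr (f : Mer) (p : ℂ) : ∃ g : Mer, ∀ z, fn g z = fn f (z + p) := by
  have hm : Meromorphic (fun w => fn f (w + p)) := fun z => (c2_nf f p z).meromorphicAt
  refine ⟨mk _ hm, fun z => ?_⟩
  have h1 : fn (mk _ hm) =ᶠ[𝓝[≠] z] (fun w => fn f (w + p)) := ev_iff.1 (fn_mk hm) z
  exact (((fn_nfAt _ z).eventuallyEq_nhdsNE_iff_eventuallyEq_nhds (c2_nf f p z)).1 h1).eq_of_nhds

theorem per_of_ev {f : Mer} {p z₀ : ℂ} (h : ∀ᶠ z in 𝓝[≠] z₀, fn f (z + p) = fn f z) :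
    Per p f := by
  obtain ⟨g, hg⟩ := c2_tr f p
  have h1 : g = f := eq_of_eventually (z := z₀) (h.mono fun z hz => by rw [hg, hz])
  intro z
  rw [← hg, h1]

theorem c2_shift {P : ℂ → Prop} (h : ∀ᶠ z in codiscrete ℂ, P z) (p z₀ : ℂ) :
    ∀ᶠ z in 𝓝[≠] z₀, P (z + p) := by
  have h1 := ev_iff.1 h (z₀ + p)
  have h2 : Tendsto (fun z : ℂ => z + p) (𝓝[≠] z₀) (𝓝[≠] (z₀ + p)) := by
    refine tendsto_nhdsWithin_iff.mpr ⟨?_, ?_⟩
    · exact (Continuous.tendsto (by fun_prop) z₀).mono_left nhdsWithin_le_nhds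
    · filter_upwards [self_mem_nhdsWithin] with z hz
      intro hc
      exact hz (add_right_cancel hc)
  exact h2.eventually h1

theorem per_field (p : ℂ) : ∃ F : IntermediateField ℂ Mer, ∀ f, f ∈ F ↔ Per p f := by
  refine ⟨{ carrier := {f | Per p f}
            mul_mem' := ?_
            add_mem' := ?_
            algebraMap_mem' := ?_
            inv_mem' := ?_ }, fun f => Iff.rfl⟩
  · intro f g hf hg
    refine per_of_ev (z₀ := 0) ?_
    filter_upwards [c2_shift (fn_mul f g) p 0, ev_iff.1 (fn_mul f g) 0] with z h1 h2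
    rw [h1, h2, Pi.mul_apply, Pi.mul_apply, hf z, hg z]
  · intro f g hf hg
    refine per_of_ev (z₀ := 0) ?_
    filter_upwards [c2_shift (fn_add f g) p 0, ev_iff.1 (fn_add f g) 0] with z h1 h2
    rw [h1, h2, Pi.add_apply, Pi.add_apply, hf z, hg z]
  · intro c z
    rw [(reg_const c (z + p)).2, (reg_const c z).2]
  · intro f hf z
    rw [fn_inv_eq, fn_inv_eq, hf z]



end Pool.Agent.PT
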