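import Pool.Agent.Lib_helper82.PT.AlgBase2
import Pool.Agent.Lib_helper82.PT.DefsB
import Pool.Agent.Lib_helper82.PT.P.A2b
import Pool.Agent.Lib_helper82.PT.P.C1
import Pool.Agent.Lib_helper82.PT.P.C2

/-! # The plane theorem (MP_45e720_ag), block C6: points with the same place -/

set_option autoImplicit false

open Filter Topology Metric Set
open scoped IntermediateField IntermediateField.algebraAdjoinAdjoin

namespace Pool.Agent.PT

variable {K : IntermediateField ℂ Mer} {x : K}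

/-- a regular element at `z` is regular at `z'`, with the same value -/
theorem c6_same (hx : Transcendental ℂ x) [FiniteDimensional ℂ⟮x⟯ K]
    {z z' : ℂ} (hz : Reg (x : Mer) z) (hz' : Reg (x : Mer) z')
    (h : ∀ a ∈ IntOver x, fn (a : Mer) z = fn (a : Mer) z') (g : K) (hg : Reg (g : Mer) z) :
    Reg (g : Mer) z' ∧ fn (g : Mer) z = fn (g : Mer) z' := by
  obtain ⟨χ, hχ⟩ := char_at hz
  have hreg : ∀ a : IntOver x, Reg ((a : K) : Mer) z ∧ Reg ((a : K) : Mer) z' := by
    intro a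
    obtain ⟨M1, h1⟩ := int_bd a.2 ‖fn (x : Mer) z‖
    obtain ⟨M2, h2⟩ := int_bd a.2 ‖fn (x : Mer) z'‖
    exact ⟨(h1 z hz le_rfl).1, (h2 z' hz' le_rfl).1⟩
  obtain ⟨a, b, hb, hab | ⟨ha, hab⟩⟩ := val hx χ g
  · have hm : (g : Mer) * ((b : K) : Mer) = ((a : K) : Mer) := by
      have := congrArg (fun t : K => (t : Mer)) hab
      exact this
    have hbz : fn ((b : K) : Mer) z ≠ 0 := by rw [← hχ b]; exact hb
    have hbz' : fn ((b : K) : Mer) z' ≠ 0 := by rw [← h b b.2]; exact hbz
    have hb0 : ((b : K) : Mer) ≠ 0 := by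
      intro h0
      apply hbz
      have := (reg_const 0 z).2
      rw [map_zero] at this
      rw [h0, this]
    have hg' : (g : Mer) = ((a : K) : Mer) * (((b : K) : Mer))⁻¹ := by
      rw [← hm, mul_inv_cancel_right₀ hb0]
    have hi := reg_inv (hreg b).2 hbz'
    have hmul := reg_mul (hreg a).2 hi
    rw [← hg'] at hmul
    refine ⟨hmul.1, ?_⟩
    have e1 : fn (g : Mer) z' = fn ((a : K) : Mer) z' * (fn ((b : K) : Mer) z')⁻¹ := by
      rw [hmul.2.eq_of_nhds, Pi.mul_apply, fn_inv_eq]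
    have hi2 := reg_inv (hreg b).1 hbz
    have hmul2 := reg_mul (hreg a).1 hi2
    rw [← hg'] at hmul2
    have e2 : fn (g : Mer) z = fn ((a : K) : Mer) z * (fn ((b : K) : Mer) z)⁻¹ := by
      rw [hmul2.2.eq_of_nhds, Pi.mul_apply, fn_inv_eq]
    rw [e1, e2, h a a.2, h b b.2]
  · exfalso
    have hm : (g : Mer) * ((a : K) : Mer) = ((b : K) : Mer) := by
      have := congrArg (fun t : K => (t : Mer)) hab
      exact this
    have hmul := reg_mul hg (hreg a).1
    rw [hm] at hmul
    apply hb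
    rw [hχ b, hmul.2.eq_of_nhds, Pi.mul_apply, ← hχ a, ha, mul_zero]

theorem c6_der (hx : Transcendental ℂ x) [FiniteDimensional ℂ⟮x⟯ K]
    (hD : ∀ f : K, D (f : Mer) ∈ K) {z z' : ℂ} (hz : Reg (x : Mer) z) (hz' : Reg (x : Mer) z')
    (h : ∀ a ∈ IntOver x, fn (a : Mer) z = fn (a : Mer) z') (k : ℕ) :
    ∀ f : K, Reg (f : Mer) z →
      iteratedDeriv k (fn (f : Mer)) z = iteratedDeriv k (fn (f : Mer)) z' := by
  induction k with
  | zero =>
    intro f hf
    rw [iteratedDeriv_zero]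
    exact (c6_same hx hz hz' h f hf).2
  | succ k ih =>
    intro f hf
    have hf' := (c6_same hx hz hz' h f hf).1
    have h1 := reg_D hf
    have h2 := reg_D hf'
    rw [iteratedDeriv_succ', ← h1.2.iteratedDeriv_eq k, ← h2.2.iteratedDeriv_eq k]
    exact ih ⟨D (f : Mer), hD f⟩ h1.1

theorem c6_per (hx : Transcendental ℂ x) [FiniteDimensional ℂ⟮x⟯ K]
    (hD : ∀ f : K, D (f : Mer) ∈ K) {z z' : ℂ} (hz : Reg (x : Mer) z) (hz' : Reg (x : Mer) z')
    (h : ∀ a ∈ IntOver x, fn (a : Mer) z = fn (a : Mer) z') (f : K) (hf : Reg (f : Mer) z) :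
    Per (z' - z) (f : Mer) := by
  have hf' : Reg (f : Mer) z' := (c6_same hx hz hz' h f hf).1
  have p1 := (AnalyticAt.hasFPowerSeriesAt hf).eventually_hasSum
  have p2 := (AnalyticAt.hasFPowerSeriesAt hf').eventually_hasSum
  have hc : (fun n => iteratedDeriv n (fn (f : Mer)) z / (n.factorial : ℂ)) =
      fun n => iteratedDeriv n (fn (f : Mer)) z' / (n.factorial : ℂ) := by
    funext n
    rw [c6_der hx hD hz hz' h n f hf]
  rw [hc] at p1
  have h0 : ∀ᶠ y in 𝓝 (0 : ℂ), fn (f : Mer) (z + y) = fn (f : Mer) (z' + y) := by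
    filter_upwards [p1, p2] with y h1 h2
    exact h1.unique h2
  have ht : Tendsto (fun u : ℂ => u - z) (𝓝 z) (𝓝 0) := by
    have : Tendsto (fun u : ℂ => u - z) (𝓝 z) (𝓝 (z - z)) :=
      (continuous_id.sub continuous_const).tendsto z
    rwa [sub_self] at this
  have h1 : ∀ᶠ u in 𝓝 z, fn (f : Mer) (u + (z' - z)) = fn (f : Mer) u := by
    filter_upwards [ht.eventually h0] with u hu
    have e1 : z + (u - z) = u := by ring
    have e2 : z' + (u - z) = u + (z' - z) := by ring
    rw [e1, e2] at hu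
    exact hu.symm
  exact per_of_ev (h1.filter_mono nhdsWithin_le_nhds)

/-- If all the elements of `IntOver x` have the same value at `z` and at `z'`, then `z' - z` is a
period of all elements of `K`. -/
theorem same_place (hx : Transcendental ℂ x) [FiniteDimensional ℂ⟮x⟯ K]
    (hD : ∀ f : K, D (f : Mer) ∈ K) {z z' : ℂ} (hz : Reg (x : Mer) z) (hz' : Reg (x : Mer) z')
    (h : ∀ a ∈ IntOver x, fn (a : Mer) z = fn (a : Mer) z') (f : K) : Per (z' - z) (f : Mer) := by
  by_cases hf : Reg (f : Mer) z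
  · exact c6_per hx hD hz hz' h f hf
  · have h1 : Reg ((f⁻¹ : K) : Mer) z := by
      have := (pole hf).2.1
      simpa using this
    have h2 := c6_per hx hD hz hz' h f⁻¹ h1
    obtain ⟨F, hF⟩ := per_field (z' - z)
    rw [← hF] at h2 ⊢
    have h3 := F.inv_mem h2
    simpa using h3


end Pool.Agent.PT
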