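import Pool.Agent.Lib_helper82.PT.AlgBase2
import Pool.Agent.Lib_helper82.PT.DefsB
import Pool.Agent.Lib_helper82.PT.P.C2

/-! # Plane theorem (MP_45e720_ag): blocks C7, C8, C9 -/

set_option autoImplicit false

open Filter Topology Metric Set
open scoped IntermediateField IntermediateField.algebraAdjoinAdjoin

namespace Pool.Agent.PT

theorem c7_sub (x : Mer) (c₀ : ℂ) {z : ℂ} (hz : Reg x z) :
    Reg (x - algebraMap ℂ Mer c₀) z ∧ fn (x - algebraMap ℂ Mer c₀) z = fn x z - c₀ := by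
  have h1 := reg_add hz (reg_const (-c₀) z).1
  have h2 : x + algebraMap ℂ Mer (-c₀) = x - algebraMap ℂ Mer c₀ := by
    rw [map_neg, sub_eq_add_neg]
  rw [h2] at h1
  refine ⟨h1.1, ?_⟩
  have h3 := h1.2.eq_of_nhds
  rw [h3, Pi.add_apply, (reg_const (-c₀) z).2, sub_eq_add_neg]

theorem c7_g {x : Mer} {c₀ : ℂ} {r : ℝ} (hr : 0 < r) {z : ℂ}
    (hz : Reg x z → r ≤ ‖fn x z - c₀‖) :
    Reg (x - algebraMap ℂ Mer c₀)⁻¹ z ∧ ‖fn (x - algebraMap ℂ Mer c₀)⁻¹ z‖ ≤ r⁻¹ := by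
  by_cases h : Reg x z
  · obtain ⟨h1, h2⟩ := c7_sub x c₀ h
    have h3 := hz h
    have h4 : fn (x - algebraMap ℂ Mer c₀) z ≠ 0 := by
      rw [h2]
      intro h5
      rw [h5, norm_zero] at h3
      exact absurd h3 (not_le.2 hr)
    refine ⟨reg_inv h1 h4, ?_⟩
    rw [fn_inv_eq, h2, norm_inv]
    exact inv_anti₀ hr h3
  · have h1 : ¬ Reg (x - algebraMap ℂ Mer c₀) z := by
      intro h2
      have h3 := (reg_add h2 (reg_const c₀ z).1).1
      rw [sub_add_cancel] at h3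
      exact h h3
    obtain ⟨-, h3, h4⟩ := pole h1
    refine ⟨h3, ?_⟩
    rw [h4, norm_zero]
    exact (inv_pos.2 hr).le

/-- the limit of `1 / (x - c₀)` along a filter all of whose sets contain large discs -/
theorem c7_end {x : Mer} (h : NoBig x) {c₀ : ℂ} {r : ℝ} (hr : 0 < r) {l : Filter ℂ}
    (hS : ∀ᶠ z in l, Reg x z → r ≤ ‖fn x z - c₀‖) {L : ℂ}
    (hL : Tendsto (fn (x - algebraMap ℂ Mer c₀)⁻¹) l (𝓝 L))
    (hbig : ∀ s ∈ l, ∀ R : ℝ, ∃ z₀ : ℂ, ball z₀ R ⊆ s) : False := by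
  have hbad : ∀ M : ℝ, (∀ᶠ z in l, Reg x z ∧ ‖fn x z‖ ≤ M) → False := by
    intro M hM
    obtain ⟨R, hR⟩ := h M
    obtain ⟨z₀, hz₀⟩ := hbig _ hM R
    exact (hR z₀).1 fun z hz => hz₀ hz
  have hbad' : ∀ M : ℝ, (∀ᶠ z in l, Reg x⁻¹ z ∧ ‖fn x⁻¹ z‖ ≤ M) → False := by
    intro M hM
    obtain ⟨R, hR⟩ := h M
    obtain ⟨z₀, hz₀⟩ := hbig _ hM R
    exact (hR z₀).2 fun z hz => hz₀ hz
  have hg : ∀ᶠ z in l, Reg (x - algebraMap ℂ Mer c₀)⁻¹ z := by
    filter_upwards [hS] with z hz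
    exact (c7_g hr hz).1
  generalize hgd : (x - algebraMap ℂ Mer c₀)⁻¹ = g at hL hg
  have hx : x = g⁻¹ + algebraMap ℂ Mer c₀ := by rw [← hgd, inv_inv, sub_add_cancel]
  by_cases hL0 : L = 0
  · by_cases hg0 : g = 0
    · rw [hg0, inv_zero, zero_add] at hx
      refine hbad ‖c₀‖ (Eventually.of_forall fun z => ?_)
      rw [hx]
      exact ⟨(reg_const c₀ z).1, by rw [(reg_const c₀ z).2]⟩
    · have hxi : x⁻¹ = g * (algebraMap ℂ Mer c₀ * g + algebraMap ℂ Mer 1)⁻¹ := by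
        have h1 : x = (algebraMap ℂ Mer c₀ * g + algebraMap ℂ Mer 1) * g⁻¹ := by
          rw [hx, map_one, add_mul, mul_assoc, mul_inv_cancel₀ hg0, mul_one, one_mul, add_comm]
        rw [h1, mul_inv, inv_inv, mul_comm]
      rw [hL0] at hL
      have h2 : Tendsto (fun z => ‖fn g z‖) l (𝓝 0) := by simpa using hL.norm
      have h3 : Tendsto (fun z => ‖c₀‖ * ‖fn g z‖) l (𝓝 0) := by simpa using h2.const_mul ‖c₀‖
      refine hbad' 1 ?_
      filter_upwards [hg, h2.eventually (gt_mem_nhds (show (0 : ℝ) < 1 / 2 by norm_num)),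
        h3.eventually (gt_mem_nhds (show (0 : ℝ) < 1 / 2 by norm_num))] with z hz h4 h5
      have h6 := reg_add (reg_mul (reg_const c₀ z).1 hz).1 (reg_const 1 z).1
      have h7 : fn (algebraMap ℂ Mer c₀ * g + algebraMap ℂ Mer 1) z = c₀ * fn g z + 1 := by
        rw [h6.2.eq_of_nhds, Pi.add_apply, (reg_mul (reg_const c₀ z).1 hz).2.eq_of_nhds,
          Pi.mul_apply, (reg_const c₀ z).2, (reg_const 1 z).2]
      have h8 : (1 / 2 : ℝ) ≤ ‖c₀ * fn g z + 1‖ := by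
        have h9 : ‖(1 : ℂ)‖ ≤ ‖c₀ * fn g z + 1‖ + ‖c₀ * fn g z‖ := by
          calc ‖(1 : ℂ)‖ = ‖(c₀ * fn g z + 1) - c₀ * fn g z‖ := by congr 1; ring
            _ ≤ _ := norm_sub_le _ _
        rw [norm_one, norm_mul] at h9
        linarith
      have h10 : fn (algebraMap ℂ Mer c₀ * g + algebraMap ℂ Mer 1) z ≠ 0 := by
        rw [h7]
        intro h11
        rw [h11, norm_zero] at h8
        norm_num at h8
      have h12 := reg_inv h6.1 h10
      have h13 := reg_mul hz h12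
      rw [hxi]
      refine ⟨h13.1, ?_⟩
      rw [h13.2.eq_of_nhds, Pi.mul_apply, fn_inv_eq, h7, norm_mul, norm_inv]
      have h14 : ‖c₀ * fn g z + 1‖⁻¹ ≤ 2 := by
        rw [inv_le_comm₀ (by linarith) (by norm_num)]
        linarith
      have h15 : 0 ≤ ‖c₀ * fn g z + 1‖⁻¹ := inv_nonneg.2 (norm_nonneg _)
      nlinarith [norm_nonneg (fn g z)]
  · have hLn : 0 < ‖L‖ := norm_pos_iff.2 hL0
    have h2 := hL.norm
    refine hbad (2 / ‖L‖ + ‖c₀‖) ?_
    filter_upwards [hg, h2.eventually (lt_mem_nhds (show ‖L‖ / 2 < ‖L‖ by linarith))] with z hz h4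
    have h5 : fn g z ≠ 0 := by
      intro h6
      rw [h6, norm_zero] at h4
      linarith
    have h6 := reg_inv hz h5
    have h7 := reg_add h6 (reg_const c₀ z).1
    rw [← hx] at h7
    refine ⟨h7.1, ?_⟩
    rw [h7.2.eq_of_nhds, Pi.add_apply, (reg_const c₀ z).2, fn_inv_eq]
    refine (norm_add_le _ _).trans ?_
    rw [norm_inv]
    have h8 : ‖fn g z‖⁻¹ ≤ 2 / ‖L‖ := by
      rw [inv_le_comm₀ (by linarith) (by positivity), inv_div]
      exact h4.le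
    linarith

theorem dense_inf {x : Mer} (h : NoBig x) (k : ℝ) (c₀ : ℂ) {r : ℝ} (hr : 0 < r) :
    ∃ z : ℂ, k < ‖z‖ ∧ Reg x z ∧ ‖fn x z - c₀‖ < r := by
  by_contra hcon
  push Not at hcon
  have hS : ∀ z : ℂ, k < ‖z‖ → Reg x z → r ≤ ‖fn x z - c₀‖ := hcon
  have hnear : ∀ᶠ z : ℂ in Bornology.cobounded ℂ, k < ‖z‖ :=
    tendsto_norm_cobounded_atTop.eventually (eventually_gt_atTop k)
  have hinv : Tendsto (Inv.inv : ℂ → ℂ) (𝓝[≠] 0) (Bornology.cobounded ℂ) :=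
    tendsto_inv₀_nhdsNE_zero
  have h1 : ∀ᶠ z : ℂ in 𝓝[≠] (0 : ℂ), k < ‖z⁻¹‖ := hinv.eventually hnear
  set G : ℂ → ℂ := fun ζ => fn (x - algebraMap ℂ Mer c₀)⁻¹ ζ⁻¹ with hG
  have hd : ∀ᶠ z in 𝓝[≠] (0 : ℂ), DifferentiableAt ℂ G z := by
    filter_upwards [h1, self_mem_nhdsWithin] with z hz hz0
    have h2 : Reg (x - algebraMap ℂ Mer c₀)⁻¹ z⁻¹ := (c7_g hr (hS _ hz)).1
    exact DifferentiableAt.comp z (AnalyticAt.differentiableAt h2)
      (differentiableAt_inv hz0)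
  have hb : IsBoundedUnder (· ≤ ·) (𝓝[≠] (0 : ℂ)) fun z => ‖G z - G 0‖ := by
    refine isBoundedUnder_of_eventually_le (a := r⁻¹ + ‖G 0‖) ?_
    filter_upwards [h1] with z hz
    exact (norm_sub_le _ _).trans (add_le_add_left (c7_g hr (hS _ hz)).2 _)
  have hT := Complex.tendsto_limUnder_of_differentiable_on_punctured_nhds_of_bounded_under hd hb
  have hT2 : Tendsto (fn (x - algebraMap ℂ Mer c₀)⁻¹) (Bornology.cobounded ℂ)
      (𝓝 (limUnder (𝓝[≠] (0 : ℂ)) G)) := by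
    have h3 := hT.comp (tendsto_inv₀_cobounded' (α := ℂ))
    refine h3.congr fun z => ?_
    simp [hG]
  refine c7_end h hr (hnear.mono fun z hz => hS z hz) hT2 ?_
  intro s hs R
  obtain ⟨r', -, hr'⟩ := (hasBasis_cobounded_norm (E := ℂ)).mem_iff.1 hs
  refine ⟨((|r'| + |R| : ℝ) : ℂ), fun z hz => hr' ?_⟩
  rw [Set.mem_ofPred_eq]
  rw [mem_ball, dist_eq_norm] at hz
  have h4 : ‖((|r'| + |R| : ℝ) : ℂ)‖ = |r'| + |R| := by
    rw [Complex.norm_real, Real.norm_of_nonneg (by positivity)]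
  have h5 : ‖((|r'| + |R| : ℝ) : ℂ)‖ ≤ ‖z‖ + ‖z - ((|r'| + |R| : ℝ) : ℂ)‖ := by
    calc ‖((|r'| + |R| : ℝ) : ℂ)‖ = ‖z - (z - ((|r'| + |R| : ℝ) : ℂ))‖ := by congr 1; ring
      _ ≤ _ := norm_sub_le _ _
  have h6 := le_abs_self r'
  have h7 := le_abs_self R
  linarith


theorem dense_half {x : Mer} (h : NoBig x) {p : ℂ} (hp : p ≠ 0) (hxp : Per p x) (k : ℝ) (c₀ : ℂ)
    {r : ℝ} (hr : 0 < r) : ∃ z : ℂ, k < (z / p).im ∧ Reg x z ∧ ‖fn x z - c₀‖ < r := by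
  by_contra hcon
  push Not at hcon
  have hS : ∀ z : ℂ, k < (z / p).im → Reg x z → r ≤ ‖fn x z - c₀‖ := hcon
  have hgp : Per p (x - algebraMap ℂ Mer c₀)⁻¹ := by
    obtain ⟨F, hF⟩ := per_field p
    rw [← hF]
    exact F.inv_mem (F.sub_mem ((hF x).2 hxp) (F.algebraMap_mem c₀))
  set l : Filter ℂ := comap (fun z : ℂ => (z / p).im) atTop with hl
  have hT0 : Tendsto (fun z : ℂ => (z / p).im) l atTop := tendsto_comap
  have hT1 : Tendsto (fun z : ℂ => z / p) l (comap Complex.im atTop) := by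
    rw [tendsto_comap_iff]
    exact hT0
  set F : ℂ → ℂ := fun w => fn (x - algebraMap ℂ Mer c₀)⁻¹ (w * p) with hF
  have hper : Function.Periodic F ((1 : ℝ) : ℂ) := by
    intro w
    have h1 := hgp (w * p)
    simp only [hF]
    rw [← h1]
    congr 1
    push_cast
    ring
  have hev : ∀ᶠ w : ℂ in comap Complex.im atTop, k < w.im :=
    tendsto_comap.eventually (eventually_gt_atTop k)
  have hw : ∀ w : ℂ, w * p / p = w := fun w => mul_div_cancel_right₀ w hp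
  have h_hol : ∀ᶠ w in comap Complex.im atTop, DifferentiableAt ℂ F w := by
    filter_upwards [hev] with w hw1
    have h2 : Reg (x - algebraMap ℂ Mer c₀)⁻¹ (w * p) :=
      (c7_g hr (hS (w * p) (by rwa [hw]))).1
    exact DifferentiableAt.comp w (AnalyticAt.differentiableAt h2)
      (differentiableAt_id.mul_const p)
  have h_bd : BoundedAtFilter (comap Complex.im atTop) F := by
    refine Asymptotics.IsBigO.of_bound r⁻¹ ?_
    filter_upwards [hev] with w hw1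
    simpa using (c7_g hr (hS (w * p) (by rwa [hw]))).2
  have hT2 := Function.Periodic.tendsto_at_I_inf one_pos hper h_hol h_bd
  have hT3 : Tendsto (fn (x - algebraMap ℂ Mer c₀)⁻¹) l
      (𝓝 (Function.Periodic.cuspFunction 1 F 0)) := by
    refine (hT2.comp hT1).congr fun z => ?_
    simp [hF, div_mul_cancel₀ z hp]
  refine c7_end h hr ((hT0.eventually (eventually_gt_atTop k)).mono fun z hz => hS z hz) hT3 ?_
  intro s hs R
  rw [hl, mem_comap] at hs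
  obtain ⟨t, ht, hts⟩ := hs
  obtain ⟨A, hA⟩ := mem_atTop_sets.1 ht
  have hpn : 0 < ‖p‖ := norm_pos_iff.2 hp
  refine ⟨p * (((A + |R| / ‖p‖ : ℝ) : ℂ) * Complex.I), fun z hz => hts (hA _ ?_)⟩
  rw [mem_ball, dist_eq_norm] at hz
  set z₀ : ℂ := p * (((A + |R| / ‖p‖ : ℝ) : ℂ) * Complex.I) with hz₀
  have h1 : z / p = (z - z₀) / p + z₀ / p := by
    rw [← add_div, sub_add_cancel]
  have h2 : z₀ / p = ((A + |R| / ‖p‖ : ℝ) : ℂ) * Complex.I := by
    rw [hz₀, mul_div_cancel_left₀ _ hp]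
  have h3 : |((z - z₀) / p).im| ≤ ‖z - z₀‖ / ‖p‖ := by
    rw [← norm_div]
    exact Complex.abs_im_le_norm _
  have h4 : ‖z - z₀‖ / ‖p‖ ≤ |R| / ‖p‖ :=
    div_le_div_of_nonneg_right (hz.le.trans (le_abs_self R)) hpn.le
  show A ≤ (z / p).im
  rw [h1, h2, Complex.add_im, Complex.mul_im]
  simp only [Complex.ofReal_re, Complex.I_im, Complex.ofReal_im, Complex.I_re, mul_one, mul_zero,
    add_zero]
  have h5 := neg_abs_le ((z - z₀) / p).im
  linarith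


theorem baire {x : Mer} (hx : x ∉ (algebraMap ℂ Mer).range) (S : ℕ → Set ℂ)
    (hS : ∀ k, IsOpen (S k))
    (hd : ∀ (k : ℕ) (c₀ : ℂ) (r : ℝ), 0 < r → ∃ z ∈ S k, Reg x z ∧ ‖fn x z - c₀‖ < r) :
    ∃ c : ℂ, ∀ k, ∃ z ∈ S k, Reg x z ∧ fn x z = c := by
  set V : ℕ → Set ℂ := fun k => {c | ∃ z ∈ S k, Reg x z ∧ fn x z = c} with hV
  have hVo : ∀ k, IsOpen (V k) := by
    intro k
    rw [isOpen_iff_mem_nhds]
    rintro c ⟨z, hz, hr, rfl⟩
    rcases AnalyticAt.eventually_constant_or_nhds_le_map_nhds hr with h1 | h1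
    · exfalso
      refine hx ⟨fn x z, ?_⟩
      refine (eq_of_eventually (z := z) ?_).symm
      filter_upwards [h1.filter_mono nhdsWithin_le_nhds] with w hw
      rw [hw, (reg_const (fn x z) w).2]
    · have h2 : fn x '' (S k ∩ {w | Reg x w}) ∈ map (fn x) (𝓝 z) :=
        image_mem_map (inter_mem ((hS k).mem_nhds hz) (AnalyticAt.eventually_analyticAt hr))
      refine mem_of_superset (h1 h2) ?_
      rintro _ ⟨w, ⟨hw1, hw2⟩, rfl⟩
      exact ⟨w, hw1, hw2, rfl⟩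
  have hVd : ∀ k, Dense (V k) := by
    intro k
    rw [Metric.dense_iff]
    intro c₀ r hr
    obtain ⟨z, hz, h1, h2⟩ := hd k c₀ r hr
    exact ⟨fn x z, by rwa [mem_ball, dist_eq_norm], z, hz, h1, rfl⟩
  obtain ⟨c, hc⟩ := (dense_iInter_of_isOpen hVo hVd).nonempty
  exact ⟨c, fun k => mem_iInter.1 hc k⟩


end Pool.Agent.PT
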