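import Pool.Agent.Lib_helper82.PT.AlgBase2
import Pool.Agent.Lib_helper82.PT.DefsB

set_option autoImplicit false

open Filter Topology Metric Set
open scoped IntermediateField IntermediateField.algebraAdjoinAdjoin

namespace Pool.Agent.PT

/-- the quotient of two coordinates -/
private noncomputable def e1_g {n : ℕ} (H : ℂ → IS.PP n) (j i : Fin (n + 1)) (z : ℂ) : ℂ :=
  (H z).rep i / (H z).rep j

private theorem e1_rep {n : ℕ} {H : ℂ → IS.PP n} {F : ℂ → Fin (n + 1) → ℂ} {z : ℂ}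
    (h : ∃ h : F z ≠ 0, H z = Projectivization.mk ℂ (F z) h) :
    ∃ a : ℂ, a ≠ 0 ∧ ∀ i, (H z).rep i = a * F z i := by
  obtain ⟨h0, h1⟩ := h
  obtain ⟨a, ha⟩ := Projectivization.exists_smul_eq_mk_rep ℂ (F z) h0
  refine ⟨a, a.ne_zero, fun i => ?_⟩
  rw [h1, ← ha]
  rfl

private theorem e1_eq {n : ℕ} {H : ℂ → IS.PP n} {F : ℂ → Fin (n + 1) → ℂ} {z : ℂ}
    (h : ∃ h : F z ≠ 0, H z = Projectivization.mk ℂ (F z) h) (j i : Fin (n + 1)) :
    e1_g H j i z = F z i / F z j := by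
  obtain ⟨a, ha, h1⟩ := e1_rep h
  unfold e1_g
  rw [h1, h1, mul_div_mul_left _ _ ha]

private theorem e1_mero {n : ℕ} {H : ℂ → IS.PP n} (hH : IS.HolP H) (j i : Fin (n + 1)) :
    Meromorphic (e1_g H j i) := by
  intro z₀
  obtain ⟨F, hF⟩ := hH z₀
  have hA : AnalyticAt ℂ F z₀ := hF.self_of_nhds.1
  have hc : ∀ k, AnalyticAt ℂ (fun z => F z k) z₀ := fun k => by
    have := analyticAt_pi_iff.mp hA k
    exact this
  have h1 : MeromorphicAt (fun z => F z i / F z j) z₀ := (hc i).meromorphicAt.div (hc j).meromorphicAt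
  refine h1.congr ?_
  refine Filter.Eventually.filter_mono nhdsWithin_le_nhds ?_
  filter_upwards [hF] with z hz
  exact (e1_eq hz.2 j i).symm

theorem exists_coord {n : ℕ} {H : ℂ → IS.PP n} (hH : IS.HolP H) :
    ∃ (j : Fin (n + 1)) (φ : Fin (n + 1) → Mer), IsCoord H j φ := by
  obtain ⟨F₁, hF₁⟩ := hH 0
  obtain ⟨h0, -⟩ := hF₁.self_of_nhds.2
  obtain ⟨j, hj⟩ := Function.ne_iff.mp h0
  have hj' : F₁ 0 j ≠ 0 := hj
  -- the quotient `H_j / H_j` is not identically zero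
  have hne : ¬ e1_g H j j =ᶠ[codiscrete ℂ] fun _ => 0 := by
    intro hc
    have h1 := ev_iff.1 hc 0
    have hcont : ContinuousAt (fun z => F₁ z j) 0 :=
      (analyticAt_pi_iff.mp hF₁.self_of_nhds.1 j).continuousAt
    have h2 : ∀ᶠ z in 𝓝[≠] (0 : ℂ), F₁ z j ≠ 0 :=
      Filter.Eventually.filter_mono nhdsWithin_le_nhds (hcont.eventually_ne hj')
    have h3 : ∀ᶠ z in 𝓝[≠] (0 : ℂ), e1_g H j j z = F₁ z j / F₁ z j :=
      Filter.Eventually.filter_mono nhdsWithin_le_nhds (hF₁.mono fun z hz => e1_eq hz.2 j j)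
    obtain ⟨z, ⟨hz1, hz2⟩, hz3⟩ := ((h1.and h2).and h3).exists
    rw [hz3, div_self hz2] at hz1
    exact one_ne_zero hz1
  have hall := mer_ne (e1_mero hH j j) hne
  have hrep : ∀ z, e1_g H j j z ≠ 0 → (H z).rep j ≠ 0 := by
    intro z hz h
    exact hz (by unfold e1_g; rw [h, div_zero])
  refine ⟨j, fun i => mk (e1_g H j i) (e1_mero hH j i), ?_, ?_⟩
  · rw [← mk_one, mk_eq_mk]
    filter_upwards [hall] with z hz
    exact div_self (hrep z hz)
  · intro z₀ F hF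
    have h1 := ev_iff.1 hall z₀
    have h2 : ∀ᶠ z in 𝓝[≠] z₀, ∃ h : F z ≠ 0, H z = Projectivization.mk ℂ (F z) h :=
      Filter.Eventually.filter_mono nhdsWithin_le_nhds (hF.mono fun z hz => hz.2)
    have h3 : ∀ᶠ z in 𝓝[≠] z₀, ∀ i, fn (mk (e1_g H j i) (e1_mero hH j i)) z = e1_g H j i z :=
      Filter.eventually_all.mpr fun i => ev_iff.1 (fn_mk (e1_mero hH j i)) z₀
    filter_upwards [h1, h2, h3] with z hz1 hz2 hz3
    refine ⟨?_, fun i => ?_⟩
    · obtain ⟨a, ha, h4⟩ := e1_rep hz2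
      have h5 := hrep z hz1
      rw [h4 j] at h5
      exact right_ne_zero_of_mul h5
    · rw [hz3 i, e1_eq hz2 j i]

theorem holP_of_unif {n : ℕ} {H : ℂ → IS.PP n} (hH : IS.UnifLift H) : IS.HolP H := by
  obtain ⟨δ, C, hδ, h⟩ := hH
  intro z₀
  obtain ⟨F, p, hF, h1⟩ := h z₀
  refine ⟨F, ?_⟩
  filter_upwards [ball_mem_nhds z₀ hδ] with z hz
  exact ⟨hF.analyticAt (isOpen_ball.mem_nhds hz), (h1 z hz).2.2⟩

end Pool.Agent.PT

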