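import Pool.Agent.Lib_helper82.PT.AlgBase2
import Pool.Agent.Lib_helper82.PT.DefsB
import Pool.Agent.Lib_helper82.PT.P.A2b

/-! # Block E2: dehomogenization -/

set_option autoImplicit false

open Filter Topology Metric Set
open scoped IntermediateField IntermediateField.algebraAdjoinAdjoin

namespace Pool.Agent.PT

private theorem e2_hom {d : ℕ} {Q : MvPolynomial (Fin 3) ℂ} (hQ : Q.IsHomogeneous d) (a : ℂ)
    (v : Fin 3 → ℂ) : MvPolynomial.eval (a • v) Q = a ^ d * MvPolynomial.eval v Q := by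
  rw [MvPolynomial.eval_eq', MvPolynomial.eval_eq', Finset.mul_sum]
  refine Finset.sum_congr rfl fun α hα => ?_
  have h1 : α.degree = d := by
    by_contra hc
    exact MvPolynomial.mem_support_iff.mp hα (hQ.coeff_eq_zero hc)
  have h2 : ∏ i, (a • v) i ^ α i = a ^ d * ∏ i, v i ^ α i := by
    rw [← h1, Finsupp.degree_eq_sum, ← Finset.prod_pow_eq_pow_sum, ← Finset.prod_mul_distrib]
    refine Finset.prod_congr rfl fun i _ => ?_
    rw [Pi.smul_apply, smul_eq_mul, mul_pow]
  rw [h2]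
  ring

/-- the dehomogenization -/
private noncomputable def e2_de (R : MvPolynomial (Fin 3) ℂ) : MvPolynomial (Fin 2) ℂ :=
  MvPolynomial.aeval ![1, MvPolynomial.X 0, MvPolynomial.X 1] R

private theorem e2_eval (R : MvPolynomial (Fin 3) ℂ) (v : Fin 2 → ℂ) :
    MvPolynomial.eval v (e2_de R) = MvPolynomial.eval ![1, v 0, v 1] R := by
  unfold e2_de
  have h1 : ∀ Q : MvPolynomial (Fin 2) ℂ, MvPolynomial.eval v Q = MvPolynomial.aeval v Q :=
    fun Q => by rw [MvPolynomial.aeval_eq_eval]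
  rw [h1, ← AlgHom.comp_apply, MvPolynomial.comp_aeval, MvPolynomial.aeval_eq_eval]
  have h2 : (fun i => (MvPolynomial.aeval v) ((![1, MvPolynomial.X 0, MvPolynomial.X 1] :
      Fin 3 → MvPolynomial (Fin 2) ℂ) i)) = ![1, v 0, v 1] := by
    funext i
    fin_cases i <;> simp
  rw [h2]

private theorem e2_ne {d : ℕ} {R : MvPolynomial (Fin 3) ℂ} (hR : R.IsHomogeneous d) (h0 : R ≠ 0) :
    e2_de R ≠ 0 := by
  intro hc
  have h1 : MvPolynomial.X 0 * R = 0 := by
    refine MvPolynomial.funext fun v => ?_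
    rw [map_mul, MvPolynomial.eval_X, map_zero]
    by_cases hv : v 0 = 0
    · rw [hv, zero_mul]
    · have h2 : v = v 0 • ![1, v 1 / v 0, v 2 / v 0] := by
        funext i
        fin_cases i
        · simp
        · simp [mul_div_cancel₀ _ hv]
        · simp [mul_div_cancel₀ _ hv]
      have h3 := e2_eval R ![v 1 / v 0, v 2 / v 0]
      rw [hc, map_zero] at h3
      simp only [Matrix.cons_val_zero, Matrix.cons_val_one] at h3
      have h4 : MvPolynomial.eval v R = 0 := by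
        rw [h2, e2_hom hR, ← h3, mul_zero]
      rw [h4, mul_zero]
  rcases mul_eq_zero.mp h1 with h2 | h2
  · exact MvPolynomial.X_ne_zero _ h2
  · exact h0 h2

theorem rel2 {n : ℕ} {H : ℂ → IS.PP n} (hH : IS.HolP H) {j : Fin (n + 1)} {φ : Fin (n + 1) → Mer}
    (hc : IsCoord H j φ) (hR : IS.Rel3 H) (a b : Fin (n + 1)) :
    ∃ R : MvPolynomial (Fin 2) ℂ, R ≠ 0 ∧ MvPolynomial.aeval ![φ a, φ b] R = 0 := by
  obtain ⟨d, R, hR0, hRh, hRz⟩ := hR j a b
  refine ⟨e2_de R, e2_ne hRh hR0, ?_⟩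
  obtain ⟨F, hF⟩ := hH 0
  have h1 := hc.2 0 F hF
  refine eq_of_eventually (z := 0) ?_
  have ha : ∀ᶠ z in 𝓝[≠] (0 : ℂ), Reg (φ a) z := ev_iff.1 (an_ev (φ a)) 0
  have hb : ∀ᶠ z in 𝓝[≠] (0 : ℂ), Reg (φ b) z := ev_iff.1 (an_ev (φ b)) 0
  have h2 := hF.filter_mono (nhdsWithin_le_nhds (s := {0}ᶜ))
  filter_upwards [h1, ha, hb, h2] with z hz hza hzb hz2
  obtain ⟨hzj, hzi⟩ := hz
  obtain ⟨-, hne, hHz⟩ := hz2
  -- the value of the right-hand side
  have h0 : fn (0 : Mer) z = 0 := by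
    have h := (reg_const 0 z).2
    rwa [map_zero] at h
  rw [h0]
  -- the value of the left-hand side
  let u : Fin 2 → regAt z := ![⟨φ a, hza⟩, ⟨φ b, hzb⟩]
  have h3 : MvPolynomial.aeval ![φ a, φ b] (e2_de R) =
      ((MvPolynomial.aeval u (e2_de R) : regAt z) : Mer) := by
    have h4 : ((MvPolynomial.aeval u (e2_de R) : regAt z) : Mer) =
        (regAt z).val (MvPolynomial.aeval u (e2_de R)) := rfl
    rw [h4, ← AlgHom.comp_apply, MvPolynomial.comp_aeval]
    congr 2
    funext i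
    fin_cases i <;> rfl
  have h4 : fn (MvPolynomial.aeval ![φ a, φ b] (e2_de R)) z =
      MvPolynomial.eval ![fn (φ a) z, fn (φ b) z] (e2_de R) := by
    rw [h3, ← ev_apply, ← AlgHom.comp_apply, MvPolynomial.comp_aeval, MvPolynomial.aeval_eq_eval]
    have h5 : (fun i => (ev z) (u i)) = ![fn (φ a) z, fn (φ b) z] := by
      funext i
      fin_cases i <;> rfl
    rw [h5]
  rw [h4, e2_eval]
  simp only [Matrix.cons_val_zero, Matrix.cons_val_one]
  rw [hzi a, hzi b]
  -- homogeneity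
  obtain ⟨c, hcF⟩ := Projectivization.exists_smul_eq_mk_rep ℂ (F z) hne
  have h6 : (H z).rep = (c : ℂ) • F z := by
    rw [hHz]
    exact hcF.symm
  have h7 := hRz z
  have h8 : ![(H z).rep j, (H z).rep a, (H z).rep b] =
      ((c : ℂ) * F z j) • ![1, F z a / F z j, F z b / F z j] := by
    rw [h6]
    funext i
    fin_cases i
    · simp
    · show (c : ℂ) * F z a = (c : ℂ) * F z j * (F z a / F z j)
      field_simp
    · show (c : ℂ) * F z b = (c : ℂ) * F z j * (F z b / F z j)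
      field_simp
  rw [h8, e2_hom hRh] at h7
  rcases mul_eq_zero.mp h7 with h9 | h9
  · exact absurd (eq_zero_of_pow_eq_zero h9) (mul_ne_zero c.ne_zero hzj)
  · exact h9


end Pool.Agent.PT
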