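import Pool.Agent.Lib_helper82.PT.AlgBase2
import Pool.Agent.Lib_helper82.PT.DefsB

/-! # PT, block E3 -/

set_option autoImplicit false

open Set

namespace Pool.Agent.PT

/-- a field generated by pairwise dependent elements has transcendence degree at most one -/
theorem e3_trdeg {F : Type} [Field F] [Algebra ℂ F] {n : ℕ} (φ : Fin n → F)
    (h : ∀ a b, ∃ R : MvPolynomial (Fin 2) ℂ, R ≠ 0 ∧ MvPolynomial.aeval ![φ a, φ b] R = 0)
    (ht : IntermediateField.adjoin ℂ (range φ) = ⊤) :
    Algebra.trdeg ℂ F ≤ 1 := by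
  have halg : Algebra.IsAlgebraic (Algebra.adjoin ℂ (range φ)) F := by
    constructor
    intro y
    have hy : y ∈ IntermediateField.adjoin ℂ (range φ) := by rw [ht]; trivial
    obtain ⟨r, hr, s, hs, rfl⟩ := IntermediateField.mem_adjoin_iff_div.1 hy
    have h1 : IsAlgebraic (Algebra.adjoin ℂ (range φ)) r :=
      isAlgebraic_algebraMap (A := F) (⟨r, hr⟩ : Algebra.adjoin ℂ (range φ))
    have h2 : IsAlgebraic (Algebra.adjoin ℂ (range φ)) s :=
      isAlgebraic_algebraMap (A := F) (⟨s, hs⟩ : Algebra.adjoin ℂ (range φ))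
    rw [div_eq_mul_inv]
    exact h1.mul h2.inv
  obtain ⟨u, -, hu, hb⟩ := exists_isTranscendenceBasis_between (R := ℂ) (∅ : Set F) (range φ)
    (empty_subset _) (by
      exact (algebraicIndependent_empty_iff ..).mpr (FaithfulSMul.algebraMap_injective ℂ F))
  have hc : Cardinal.mk u ≤ 1 := by
    rw [Cardinal.le_one_iff_subsingleton]
    constructor
    intro p q
    by_contra hpq
    obtain ⟨a, ha⟩ := hu p.2
    obtain ⟨b, hb'⟩ := hu q.2
    obtain ⟨R, hR0, hR⟩ := h a b
    have hi : Function.Injective ![p, q] := by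
      intro i j hij
      fin_cases i <;> fin_cases j <;> simp_all
    have h3 := hb.1.comp ![p, q] hi
    have h4 : (Subtype.val : u → F) ∘ ![p, q] = ![φ a, φ b] := by
      funext i
      fin_cases i
      · simp [ha]
      · simp [hb']
    rw [h4] at h3
    exact hR0 (h3.eq_zero_of_aeval_eq_zero R hR)
  exact hb.cardinalMk_eq_trdeg ▸ hc

theorem e3_main {L : Type} [Field L] [Algebra ℂ L] {n : ℕ} (φ : Fin n → L)
    (h : ∀ a b, ∃ R : MvPolynomial (Fin 2) ℂ, R ≠ 0 ∧ MvPolynomial.aeval ![φ a, φ b] R = 0)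
    (F : IntermediateField ℂ L) (hF : F = IntermediateField.adjoin ℂ (range φ))
    (x : F) (hx : (x : L) ∉ (algebraMap ℂ L).range) :
    Transcendental ℂ x ∧ FiniteDimensional (IntermediateField.adjoin ℂ {x}) F := by
  let ψ : Fin n → F := fun a => ⟨φ a, by
    rw [hF]; exact IntermediateField.subset_adjoin ℂ _ (mem_range_self a)⟩
  have hψ : ∀ a, ((ψ a : F) : L) = φ a := fun a => rfl
  have h' : ∀ a b, ∃ R : MvPolynomial (Fin 2) ℂ, R ≠ 0 ∧
      MvPolynomial.aeval ![ψ a, ψ b] R = 0 := by
    intro a b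
    obtain ⟨R, h0, hR⟩ := h a b
    refine ⟨R, h0, ?_⟩
    have h5 : F.val (MvPolynomial.aeval ![ψ a, ψ b] R) = 0 := by
      rw [← hR, MvPolynomial.comp_aeval_apply]
      congr 2
      funext i
      fin_cases i <;> rfl
    exact (map_eq_zero F.val).1 h5
  have ht : IntermediateField.adjoin ℂ (range ψ) = ⊤ := by
    apply IntermediateField.lift_injective F
    rw [IntermediateField.lift_top, IntermediateField.lift_adjoin]
    refine Eq.trans ?_ hF.symm
    congr 1
    rw [← range_comp]
    rfl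
  have hd := e3_trdeg ψ h' ht
  have hxt : Transcendental ℂ x := by
    intro hx'
    have h1 : IsAlgebraic ℂ (x : L) := hx'.algebraMap
    have h2 : IsIntegral ℂ (x : L) := h1.isIntegral
    exact hx (minpoly.mem_range_of_degree_eq_one ℂ (x : L)
      (IsAlgClosed.degree_eq_one_of_irreducible ℂ (minpoly.irreducible h2)))
  refine ⟨hxt, ?_⟩
  have hi : AlgebraicIndependent ℂ (fun _ : Unit => x) :=
    algebraicIndependent_unique_type_iff.2 hxt
  have hb : IsTranscendenceBasis ℂ (fun _ : Unit => x) :=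
    hi.isTranscendenceBasis_of_trdeg_le_of_finite (by simpa using hd)
  have h1 := hb.isAlgebraic_field
  rw [range_const] at h1
  have h2 : Algebra.EssFiniteType ℂ F := by
    rw [IntermediateField.essFiniteType_iff, hF]
    exact IntermediateField.fg_adjoin_of_finite (finite_range φ)
  have h3 : Algebra.EssFiniteType (IntermediateField.adjoin ℂ {x}) F :=
    Algebra.EssFiniteType.of_comp ℂ (IntermediateField.adjoin ℂ {x}) F
  exact Algebra.finite_of_essFiniteType_of_isAlgebraic

open scoped IntermediateField in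
theorem fin_ext {L : Type} [Field L] [Algebra ℂ L] {n : ℕ} (φ : Fin n → L)
    (h : ∀ a b, ∃ R : MvPolynomial (Fin 2) ℂ, R ≠ 0 ∧ MvPolynomial.aeval ![φ a, φ b] R = 0)
    (x : IntermediateField.adjoin ℂ (range φ)) (hx : (x : L) ∉ (algebraMap ℂ L).range) :
    Transcendental ℂ x ∧ FiniteDimensional ℂ⟮x⟯ (IntermediateField.adjoin ℂ (range φ)) :=
  e3_main φ h _ rfl x hx


end Pool.Agent.PT
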