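import Pool.Agent.Lib_helper82.PT.AlgBase2
import Pool.Agent.Lib_helper82.PT.DefsB

/-! # Block E4b of the plane theorem (MP_45e720_ag): a linear form that does not vanish at infinity -/

set_option autoImplicit false

open Filter Topology Metric Set
open scoped IntermediateField IntermediateField.algebraAdjoinAdjoin

namespace Pool.Agent.PT

/-- Some linear form does not vanish on finitely many nonzero vectors. -/
theorem e4b_form {n : ℕ} (S : Finset (Fin (n + 1) → ℂ)) (hS : ∀ s ∈ S, s ≠ 0) :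
    ∃ l : Fin (n + 1) → ℂ, ∀ s ∈ S, ∑ i, l i * s i ≠ 0 := by
  classical
  induction S using Finset.induction_on with
  | empty => exact ⟨0, fun s hs => absurd hs (Finset.notMem_empty s)⟩
  | insert s T hsT ih =>
    obtain ⟨l, hl⟩ := ih (fun t ht => hS t (Finset.mem_insert_of_mem ht))
    have hs : s ≠ 0 := hS s (Finset.mem_insert_self s T)
    obtain ⟨i₀, hi₀⟩ : ∃ i, s i ≠ 0 := by
      by_contra h
      push Not at h
      exact hs (funext h)
    -- `l + t e`, where `e` is the coordinate `i₀`; finitely many `t` are bad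
    have key : ∀ (t : ℂ) (w : Fin (n + 1) → ℂ),
        ∑ i, (l i + t * (Pi.single i₀ (1 : ℂ) : Fin (n + 1) → ℂ) i) * w i =
          ∑ i, l i * w i + t * w i₀ := by
      intro t w
      have h1 : ∀ i, (l i + t * (Pi.single i₀ (1 : ℂ) : Fin (n + 1) → ℂ) i) * w i =
          l i * w i + (if i = i₀ then t * w i else 0) := by
        intro i
        by_cases h : i = i₀
        · subst h
          simp
          ring
        · simp [h]
      rw [Finset.sum_congr rfl fun i _ => h1 i, Finset.sum_add_distrib]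
      simp
    obtain ⟨t, ht⟩ := Infinite.exists_notMem_finset
      ((T.image fun w => -(∑ i, l i * w i) / w i₀) ∪ {-(∑ i, l i * s i) / s i₀} : Finset ℂ)
    rw [Finset.mem_union, not_or] at ht
    refine ⟨fun i => l i + t * (Pi.single i₀ (1 : ℂ) : Fin (n + 1) → ℂ) i, ?_⟩
    intro w hw
    rw [key]
    rcases Finset.mem_insert.mp hw with rfl | hw
    · intro h
      apply ht.2
      rw [Finset.mem_singleton, eq_div_iff hi₀]
      linear_combination h
    · by_cases h0 : w i₀ = 0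
      · rw [h0, mul_zero, add_zero]
        exact hl w hw
      · intro h
        apply ht.1
        rw [Finset.mem_image]
        refine ⟨w, hw, ?_⟩
        rw [div_eq_iff h0]
        linear_combination -h

theorem exists_form {n : ℕ} {H : ℂ → IS.PP n} {j : Fin (n + 1)}
    (hS : ∃ S : Finset (Fin (n + 1) → ℂ), (∀ s ∈ S, s ≠ 0) ∧ ∀ v : Fin (n + 1) → ℂ, v ≠ 0 → v j = 0 →
      (∃ (z : ℕ → ℂ) (c : ℕ → ℂ), Tendsto (fun k => c k • (H (z k)).rep) atTop (𝓝 v)) →
      ∃ s ∈ S, ∃ a : ℂ, v = a • s) :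
    ∃ (l : Fin (n + 1) → ℂ) (ε : ℝ), 0 < ε ∧
      ∀ z, ε * ‖(H z).rep‖ ≤ max ‖(H z).rep j‖ ‖∑ i, l i * (H z).rep i‖ := by
  classical
  obtain ⟨S, hS0, hS⟩ := hS
  obtain ⟨l, hl⟩ := e4b_form S hS0
  refine ⟨l, ?_⟩
  by_contra hcon
  push Not at hcon
  have h1 : ∀ k : ℕ, ∃ z : ℂ, max ‖(H z).rep j‖ ‖∑ i, l i * (H z).rep i‖ <
      (1 / ((k : ℝ) + 1)) * ‖(H z).rep‖ := fun k =>
    hcon (1 / ((k : ℝ) + 1)) Nat.one_div_pos_of_nat
  choose z hz using h1
  have hne : ∀ k, (H (z k)).rep ≠ 0 := fun k => (H (z k)).rep_nonzero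
  have hpos : ∀ k, 0 < ‖(H (z k)).rep‖ := fun k => norm_pos_iff.mpr (hne k)
  set c : ℕ → ℂ := fun k => ((‖(H (z k)).rep‖⁻¹ : ℝ) : ℂ) with hc
  have hcn : ∀ k, ‖c k‖ = ‖(H (z k)).rep‖⁻¹ := by
    intro k
    rw [hc]
    simp
  set w : ℕ → Fin (n + 1) → ℂ := fun k => c k • (H (z k)).rep with hw
  have hw1 : ∀ k, w k ∈ sphere (0 : Fin (n + 1) → ℂ) 1 := by
    intro k
    rw [mem_sphere_zero_iff_norm, hw]
    simp only
    rw [norm_smul, hcn, inv_mul_cancel₀ (hpos k).ne']
  obtain ⟨v, hv, φ, hφ, hlim⟩ := (isCompact_sphere (0 : Fin (n + 1) → ℂ) 1).tendsto_subseq hw1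
  have hv1 : ‖v‖ = 1 := mem_sphere_zero_iff_norm.mp hv
  have hv0 : v ≠ 0 := by
    rw [← norm_ne_zero_iff, hv1]
    exact one_ne_zero
  have hbd : ∀ k, ‖w k j‖ ≤ 1 / ((k : ℝ) + 1) ∧ ‖∑ i, l i * w k i‖ ≤ 1 / ((k : ℝ) + 1) := by
    intro k
    have h2 := hz k
    rw [max_lt_iff] at h2
    have h3 : ∑ i, l i * w k i = c k * ∑ i, l i * (H (z k)).rep i := by
      rw [Finset.mul_sum]
      refine Finset.sum_congr rfl fun i _ => ?_
      rw [hw]
      simp only [Pi.smul_apply, smul_eq_mul]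
      ring
    have h4 : w k j = c k * (H (z k)).rep j := by
      rw [hw]
      simp only [Pi.smul_apply, smul_eq_mul]
    rw [h3, h4, norm_mul, norm_mul, hcn]
    constructor
    · rw [inv_mul_le_iff₀ (hpos k), mul_comm]
      exact h2.1.le
    · rw [inv_mul_le_iff₀ (hpos k), mul_comm]
      exact h2.2.le
  have hinv : Tendsto (fun k : ℕ => 1 / (((φ k : ℕ) : ℝ) + 1)) atTop (𝓝 0) :=
    tendsto_one_div_add_atTop_nhds_zero_nat.comp hφ.tendsto_atTop
  have hvj : v j = 0 := by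
    have h2 : Tendsto (fun k => w (φ k) j) atTop (𝓝 (v j)) :=
      ((continuous_apply j).tendsto v).comp hlim
    have h3 : Tendsto (fun k => w (φ k) j) atTop (𝓝 0) :=
      squeeze_zero_norm (fun k => (hbd (φ k)).1) hinv
    exact tendsto_nhds_unique h2 h3
  have hvl : ∑ i, l i * v i = 0 := by
    have hcont : Continuous fun u : Fin (n + 1) → ℂ => ∑ i, l i * u i := by fun_prop
    have h2 : Tendsto (fun k => ∑ i, l i * w (φ k) i) atTop (𝓝 (∑ i, l i * v i)) :=
      (hcont.tendsto v).comp hlim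
    have h3 : Tendsto (fun k => ∑ i, l i * w (φ k) i) atTop (𝓝 0) :=
      squeeze_zero_norm (fun k => (hbd (φ k)).2) hinv
    exact tendsto_nhds_unique h2 h3
  obtain ⟨s, hs, a, ha⟩ := hS v hv0 hvj ⟨fun k => z (φ k), fun k => c (φ k), hlim⟩
  have ha0 : a ≠ 0 := by
    rintro rfl
    exact hv0 (by rw [ha, zero_smul])
  apply hl s hs
  have h5 : ∑ i, l i * v i = a * ∑ i, l i * s i := by
    rw [ha, Finset.mul_sum]
    refine Finset.sum_congr rfl fun i _ => ?_
    simp only [Pi.smul_apply, smul_eq_mul]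
    ring
  rw [h5] at hvl
  exact (mul_eq_zero.mp hvl).resolve_left ha0


end Pool.Agent.PT
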