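import Pool.Agent.Lib_helper82.PT.AlgBase2
import Pool.Agent.Lib_helper82.PT.DefsB

/-! # The plane theorem, block E5a -/

set_option autoImplicit false

open Filter Topology Metric Set

namespace Pool.Agent.PT

theorem e5a_const (c : ℂ) : fn (algebraMap ℂ Mer c) =ᶠ[codiscrete ℂ] fun _ => c := by
  rw [algebraMap_eq]
  exact fn_mk (Meromorphic.const c)

theorem e5a_sum {ι : Type} [DecidableEq ι] (s : Finset ι) (l : ι → ℂ) (φ : ι → Mer) :
    fn (∑ i ∈ s, algebraMap ℂ Mer (l i) * φ i) =ᶠ[codiscrete ℂ]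
      fun w => ∑ i ∈ s, l i * fn (φ i) w := by
  induction s using Finset.induction_on with
  | empty =>
    simp only [Finset.sum_empty]
    rw [← mk_zero]
    exact fn_mk (Meromorphic.const 0)
  | insert a s ha ih =>
    rw [Finset.sum_insert ha]
    filter_upwards [fn_add (algebraMap ℂ Mer (l a) * φ a) (∑ i ∈ s, algebraMap ℂ Mer (l i) * φ i),
      fn_mul (algebraMap ℂ Mer (l a)) (φ a), e5a_const (l a), ih] with w h1 h2 h3 h4
    rw [h1, Pi.add_apply, h2, Pi.mul_apply, h3, h4, Finset.sum_insert ha]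

theorem e5a_bd {n : ℕ} (l v : Fin (n + 1) → ℂ) : ‖∑ i, l i * v i‖ ≤ (∑ i, ‖l i‖) * ‖v‖ := by
  rw [Finset.sum_mul]
  refine (norm_sum_le _ _).trans (Finset.sum_le_sum fun i _ => ?_)
  rw [norm_mul]
  exact mul_le_mul_of_nonneg_left (norm_le_pi_norm v i) (norm_nonneg _)

theorem form_tame {n : ℕ} {H : ℂ → IS.PP n} (hU : IS.UnifLift H) {j : Fin (n + 1)}
    {φ : Fin (n + 1) → Mer} (hc : IsCoord H j φ) (l : Fin (n + 1) → ℂ) (ε : ℝ) (hε : 0 < ε)
    (hl : ∀ z, ε * ‖(H z).rep‖ ≤ max ‖(H z).rep j‖ ‖∑ i, l i * (H z).rep i‖) :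
    Tame (∑ i, algebraMap ℂ Mer (l i) * φ i) := by
  classical
  obtain ⟨δ, C, hδ, hF⟩ := hU
  set L : ℝ := ∑ i, ‖l i‖ with hL
  have hL0 : 0 ≤ L := Finset.sum_nonneg fun i _ => norm_nonneg _
  have hC : 1 ≤ C := by
    obtain ⟨F, p, -, h⟩ := hF 0
    obtain ⟨h1, h2, -⟩ := h 0 (mem_ball_self hδ)
    have h3 := norm_le_pi_norm (F 0) p
    rw [h1, norm_one] at h3
    linarith
  set R : ℝ := 2 * C + 1 with hR
  have hR0 : 0 < R := by linarith
  set r : ℝ := min δ (δ / R * (ε / (4 * (1 + L)))) with hr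
  have hL1 : 0 < 1 + L := by linarith
  have hr0 : 0 < r := lt_min hδ (by positivity)
  refine ⟨r, 2 * C * (1 + L) / ε, hr0, fun z₀ => ?_⟩
  obtain ⟨F, p, hd, h⟩ := hF z₀
  -- the oscillation of the lift
  have hosc : ∀ z ∈ ball z₀ r, ‖F z - F z₀‖ ≤ ε / (4 * (1 + L)) := by
    intro z hz
    have hz1 : z ∈ ball z₀ δ := ball_subset_ball (min_le_left _ _) hz
    have hmaps : MapsTo F (ball z₀ δ) (closedBall (F z₀) R) := by
      intro w hw
      rw [mem_closedBall, dist_eq_norm]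
      have h1 := (h w hw).2.1
      have h2 := (h z₀ (mem_ball_self hδ)).2.1
      have h3 := norm_sub_le (F w) (F z₀)
      linarith
    have h1 := Complex.dist_le_div_mul_dist_of_mapsTo_ball hd hmaps hz1
    rw [dist_eq_norm] at h1
    refine h1.trans ?_
    have h2 : dist z z₀ ≤ δ / R * (ε / (4 * (1 + L))) :=
      (mem_ball.1 hz).le.trans (min_le_right _ _)
    calc R / δ * dist z z₀ ≤ R / δ * (δ / R * (ε / (4 * (1 + L)))) :=
          mul_le_mul_of_nonneg_left h2 (by positivity)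
      _ = ε / (4 * (1 + L)) := by field_simp
  -- the coordinates at the centre
  have hcen : ε ≤ max ‖F z₀ j‖ ‖∑ i, l i * F z₀ i‖ := by
    obtain ⟨h1, h2, h3, h4⟩ := h z₀ (mem_ball_self hδ)
    obtain ⟨a, ha⟩ := Projectivization.exists_smul_eq_mk_rep ℂ (F z₀) h3
    rw [← h4] at ha
    have h5 := hl z₀
    rw [← ha] at h5
    have ha0 : 0 < ‖(a : ℂ)‖ := norm_pos_iff.2 a.ne_zero
    have e1 : ‖(a • F z₀)‖ = ‖(a : ℂ)‖ * ‖F z₀‖ := by rw [Units.smul_def, norm_smul]
    have e2 : ‖(a • F z₀) j‖ = ‖(a : ℂ)‖ * ‖F z₀ j‖ := by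
      rw [Units.smul_def, Pi.smul_apply, smul_eq_mul, norm_mul]
    have e3 : ‖∑ i, l i * (a • F z₀) i‖ = ‖(a : ℂ)‖ * ‖∑ i, l i * F z₀ i‖ := by
      rw [← norm_mul, Finset.mul_sum]
      congr 1
      refine Finset.sum_congr rfl fun i _ => ?_
      rw [Units.smul_def, Pi.smul_apply, smul_eq_mul]
      ring
    rw [e1, e2, e3, ← mul_max_of_nonneg _ _ ha0.le] at h5
    have h6 : 1 ≤ ‖F z₀‖ := by
      have := norm_le_pi_norm (F z₀) p
      rwa [h1, norm_one] at this
    have h7 : ‖(a : ℂ)‖ * (ε * ‖F z₀‖) ≤ ‖(a : ℂ)‖ * max ‖F z₀ j‖ ‖∑ i, l i * F z₀ i‖ := by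
      rw [← mul_assoc, mul_comm _ ε, mul_assoc]
      exact h5
    have h8 := le_of_mul_le_mul_left h7 ha0
    nlinarith
  -- the value of x near a point of the disc
  have hana : ∀ z ∈ ball z₀ r, AnalyticAt ℂ F z := fun z hz =>
    hd.analyticAt (isOpen_ball.mem_nhds (ball_subset_ball (min_le_left _ _) hz))
  have hval : ∀ z ∈ ball z₀ r, ∀ᶠ w in 𝓝[≠] z, fn (∑ i, algebraMap ℂ Mer (l i) * φ i) w =
      (∑ i, l i * F w i) / F w j := by
    intro z hz
    have hzδ : ball z₀ δ ∈ 𝓝 z := isOpen_ball.mem_nhds (ball_subset_ball (min_le_left _ _) hz)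
    have h1 := hc.2 z F (by
      filter_upwards [hzδ] with w hw
      exact ⟨hd.analyticAt (isOpen_ball.mem_nhds hw), (h w hw).2.2⟩)
    filter_upwards [h1, ev_iff.1 (e5a_sum Finset.univ l φ) z] with w hw1 hw2
    rw [hw2, Finset.sum_div]
    refine Finset.sum_congr rfl fun i _ => ?_
    rw [hw1.2 i, mul_div_assoc]
  have hFj : ∀ z ∈ ball z₀ r, AnalyticAt ℂ (fun w => F w j) z := fun z hz =>
    (analyticAt_pi_iff.1 (hana z hz)) j
  have hFl : ∀ z ∈ ball z₀ r, AnalyticAt ℂ (fun w => ∑ i, l i * F w i) z := fun z hz =>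
    Finset.analyticAt_fun_sum _ fun i _ => analyticAt_const.mul ((analyticAt_pi_iff.1 (hana z hz)) i)
  have hbdj : ∀ z ∈ ball z₀ r, ‖F z j‖ ≤ C := fun z hz =>
    (norm_le_pi_norm _ _).trans (h z (ball_subset_ball (min_le_left _ _) hz)).2.1
  have hbdl : ∀ z ∈ ball z₀ r, ‖∑ i, l i * F z i‖ ≤ L * C := fun z hz =>
    (e5a_bd l (F z)).trans (mul_le_mul_of_nonneg_left
      (h z (ball_subset_ball (min_le_left _ _) hz)).2.1 hL0)
  have hη : ε / (4 * (1 + L)) ≤ ε / 4 := by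
    apply div_le_div_of_nonneg_left hε.le (by norm_num)
    nlinarith
  have hη2 : L * (ε / (4 * (1 + L))) ≤ ε / 4 := by
    rw [mul_div_assoc', div_le_div_iff₀ (by positivity) (by norm_num)]
    nlinarith
  rcases le_max_iff.1 hcen with hj | hj
  · left
    intro z hz
    have h1 : ε / 2 ≤ ‖F z j‖ := by
      have h2 : ‖F z₀ j - F z j‖ ≤ ε / 4 := by
        have h3 := norm_le_pi_norm (F z - F z₀) j
        rw [Pi.sub_apply] at h3
        rw [norm_sub_rev]
        exact h3.trans ((hosc z hz).trans hη)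
      have h4 := norm_sub_norm_le (F z₀ j) (F z j)
      linarith
    have h0 : F z j ≠ 0 := by
      intro h0
      rw [h0, norm_zero] at h1
      linarith
    have h2 := reg_of_ne ((hFl z hz).div (hFj z hz) h0) (hval z hz)
    refine ⟨h2.1, ?_⟩
    rw [h2.2.eq_of_nhds, Pi.div_apply, norm_div]
    calc ‖∑ i, l i * F z i‖ / ‖F z j‖ ≤ (L * C) / (ε / 2) :=
          div_le_div₀ (by positivity) (hbdl z hz) (by positivity) h1
      _ ≤ 2 * C * (1 + L) / ε := by
          rw [div_div_eq_mul_div]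
          apply div_le_div_of_nonneg_right _ hε.le
          nlinarith
  · right
    intro z hz
    have h1 : ε / 2 ≤ ‖∑ i, l i * F z i‖ := by
      have h2 : ‖∑ i, l i * F z₀ i - ∑ i, l i * F z i‖ ≤ ε / 4 := by
        have e : ∑ i, l i * F z₀ i - ∑ i, l i * F z i = -∑ i, l i * (F z - F z₀) i := by
          rw [← Finset.sum_sub_distrib, ← Finset.sum_neg_distrib]
          refine Finset.sum_congr rfl fun i _ => ?_
          rw [Pi.sub_apply]
          ring
        rw [e, norm_neg]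
        exact (e5a_bd l _).trans ((mul_le_mul_of_nonneg_left (hosc z hz) hL0).trans hη2)
      have h4 := norm_sub_norm_le (∑ i, l i * F z₀ i) (∑ i, l i * F z i)
      linarith
    have h0 : ∑ i, l i * F z i ≠ 0 := by
      intro h0
      rw [h0, norm_zero] at h1
      linarith
    have h3 : fn (∑ i, algebraMap ℂ Mer (l i) * φ i)⁻¹ =ᶠ[𝓝[≠] z]
        fun w => F w j / ∑ i, l i * F w i := by
      filter_upwards [hval z hz] with w hw
      rw [fn_inv_eq, hw, inv_div]
    have h2 := reg_of_ne ((hFj z hz).div (hFl z hz) h0) h3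
    refine ⟨h2.1, ?_⟩
    rw [h2.2.eq_of_nhds, Pi.div_apply, norm_div]
    calc ‖F z j‖ / ‖∑ i, l i * F z i‖ ≤ C / (ε / 2) :=
          div_le_div₀ (by positivity) (hbdj z hz) (by positivity) h1
      _ ≤ 2 * C * (1 + L) / ε := by
          rw [div_div_eq_mul_div]
          apply div_le_div_of_nonneg_right _ hε.le
          nlinarith


end Pool.Agent.PT
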