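import Pool.Agent.Lib_helper82.PT.AlgBase2
import Pool.Agent.Lib_helper82.PT.DefsB
import Pool.Agent.Lib_helper82.PT.P.C3

/-! # Project IS (plane theorem), block E5b -/

set_option autoImplicit false

open Filter Topology Metric Set
open scoped IntermediateField IntermediateField.algebraAdjoinAdjoin

namespace Pool.Agent.PT

theorem e5b_sum {n : ℕ} (f : Fin n → Mer) (s : Finset (Fin n)) :
    fn (∑ i ∈ s, f i) =ᶠ[codiscrete ℂ] fun z => ∑ i ∈ s, fn (f i) z := by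
  classical
  induction s using Finset.induction_on with
  | empty =>
    refine Eventually.of_forall fun z => ?_
    have h := (reg_const 0 z).2
    rw [map_zero] at h
    simpa using h
  | insert a s ha ih =>
    rw [Finset.sum_insert ha]
    filter_upwards [fn_add (f a) (∑ i ∈ s, f i), ih] with z h1 h2
    rw [h1, Pi.add_apply, h2, Finset.sum_insert ha]

theorem e5b_lin {n : ℕ} (l : Fin n → ℂ) (φ : Fin n → Mer) :
    fn (∑ i, algebraMap ℂ Mer (l i) * φ i) =ᶠ[codiscrete ℂ] fun z => ∑ i, l i * fn (φ i) z := by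
  have h1 : ∀ᶠ z in codiscrete ℂ, ∀ i, fn (algebraMap ℂ Mer (l i) * φ i) z =
      l i * fn (φ i) z := by
    rw [eventually_all]
    intro i
    filter_upwards [fn_mul (algebraMap ℂ Mer (l i)) (φ i)] with z hz
    rw [hz, Pi.mul_apply, (reg_const (l i) z).2]
  filter_upwards [e5b_sum (fun i => algebraMap ℂ Mer (l i) * φ i) Finset.univ, h1] with z h2 h3
  rw [h2]
  exact Finset.sum_congr rfl fun i _ => h3 i

theorem e5b_loc {n : ℕ} {H : ℂ → IS.PP n} (hH : IS.HolP H) {j : Fin (n + 1)}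
    {φ : Fin (n + 1) → Mer} (hc : IsCoord H j φ)
    (l : Fin (n + 1) → ℂ) (ε : ℝ) (hε : 0 < ε)
    (hl : ∀ z, ε * ‖(H z).rep‖ ≤ max ‖(H z).rep j‖ ‖∑ i, l i * (H z).rep i‖) {c : ℂ}
    (hx : (∑ i, algebraMap ℂ Mer (l i) * φ i) = algebraMap ℂ Mer c) (z₀ : ℂ) :
    ∃ v : Fin (n + 1) → ℂ, v j ≠ 0 ∧ (∃ h : v ≠ 0, H z₀ = Projectivization.mk ℂ v h) ∧
      ∀ i, Reg (φ i) z₀ ∧ fn (φ i) z₀ = v i / v j ∧ ‖v i / v j‖ ≤ max 1 ‖c‖ / ε := by
  obtain ⟨F, hF⟩ := hH z₀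
  obtain ⟨hFa, h0, hH0⟩ := hF.self_of_nhds
  have h1 := hc.2 z₀ F hF
  have h2 := ev_iff.1 (e5b_lin l φ) z₀
  have hFi : ∀ i, AnalyticAt ℂ (fun z => F z i) z₀ := fun i =>
    ((ContinuousLinearMap.proj (R := ℂ) (φ := fun _ : Fin (n + 1) => ℂ) i).analyticAt _).comp hFa
  have h3 : ∀ᶠ z in 𝓝[≠] z₀, ∑ i, l i * F z i = c * F z j := by
    filter_upwards [h1, h2] with z hz1 hz2
    rw [hx, (reg_const c z).2] at hz2
    rw [hz2, Finset.sum_mul]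
    refine Finset.sum_congr rfl fun i _ => ?_
    rw [hz1.2 i, mul_assoc, div_mul_cancel₀ _ hz1.1]
  have h4 : ∑ i, l i * F z₀ i = c * F z₀ j := by
    have c1 : ContinuousAt (fun z => ∑ i, l i * F z i) z₀ :=
      tendsto_finsetSum _ fun i _ => (continuousAt_const.mul (hFi i).continuousAt)
    have c2 : ContinuousAt (fun z => c * F z j) z₀ :=
      continuousAt_const.mul (hFi j).continuousAt
    exact tendsto_nhds_unique_of_eventuallyEq (c1.tendsto.mono_left nhdsWithin_le_nhds)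
      (c2.tendsto.mono_left nhdsWithin_le_nhds) h3
  obtain ⟨a, ha⟩ := Projectivization.exists_smul_eq_mk_rep ℂ (F z₀) h0
  have ha0 : 0 < ‖(a : ℂ)‖ := norm_pos_iff.2 a.ne_zero
  have h5 := hl z₀
  rw [hH0, ← ha] at h5
  have e1 : ‖a • F z₀‖ = ‖(a : ℂ)‖ * ‖F z₀‖ := by
    rw [Units.smul_def, norm_smul]
  have e2 : ∀ i, (a • F z₀) i = (a : ℂ) * F z₀ i := fun i => rfl
  have e3 : ∑ i, l i * (a • F z₀) i = (a : ℂ) * (c * F z₀ j) := by
    rw [← h4, Finset.mul_sum]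
    refine Finset.sum_congr rfl fun i _ => ?_
    rw [e2]
    ring
  rw [e1, e3, e2, norm_mul, norm_mul, norm_mul] at h5
  have h6 : ε * ‖F z₀‖ ≤ max 1 ‖c‖ * ‖F z₀ j‖ := by
    have h7 : max (‖(a : ℂ)‖ * ‖F z₀ j‖) (‖(a : ℂ)‖ * (‖c‖ * ‖F z₀ j‖)) ≤
        ‖(a : ℂ)‖ * (max 1 ‖c‖ * ‖F z₀ j‖) := by
      refine max_le ?_ ?_
      · refine mul_le_mul_of_nonneg_left ?_ ha0.le
        calc ‖F z₀ j‖ = 1 * ‖F z₀ j‖ := (one_mul _).symm
          _ ≤ _ := mul_le_mul_of_nonneg_right (le_max_left _ _) (norm_nonneg _)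
      · refine mul_le_mul_of_nonneg_left ?_ ha0.le
        exact mul_le_mul_of_nonneg_right (le_max_right _ _) (norm_nonneg _)
    have h8 := h5.trans h7
    have h9 : ‖(a : ℂ)‖ * (ε * ‖F z₀‖) ≤ ‖(a : ℂ)‖ * (max 1 ‖c‖ * ‖F z₀ j‖) := by
      calc ‖(a : ℂ)‖ * (ε * ‖F z₀‖) = ε * (‖(a : ℂ)‖ * ‖F z₀‖) := by ring
        _ ≤ _ := h8
    exact le_of_mul_le_mul_left h9 ha0
  have hj : F z₀ j ≠ 0 := by
    intro h
    rw [h, norm_zero, mul_zero] at h6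
    have h7 : 0 < ‖F z₀‖ := norm_pos_iff.2 h0
    have h8 : 0 < ε * ‖F z₀‖ := mul_pos hε h7
    linarith
  refine ⟨F z₀, hj, ⟨h0, hH0⟩, fun i => ?_⟩
  have h7 : AnalyticAt ℂ (fun z => F z i / F z j) z₀ := (hFi i).div (hFi j) hj
  have h8 : fn (φ i) =ᶠ[𝓝[≠] z₀] fun z => F z i / F z j := by
    filter_upwards [h1] with z hz
    exact hz.2 i
  obtain ⟨h9, h10⟩ := reg_of_ne h7 h8
  refine ⟨h9, h10.eq_of_nhds, ?_⟩
  have hj0 : 0 < ‖F z₀ j‖ := norm_pos_iff.2 hj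
  rw [norm_div, div_le_div_iff₀ hj0 hε]
  calc ‖F z₀ i‖ * ε ≤ ‖F z₀‖ * ε := mul_le_mul_of_nonneg_right (norm_le_pi_norm _ i) hε.le
    _ = ε * ‖F z₀‖ := mul_comm _ _
    _ ≤ _ := h6

theorem form_nonconst {n : ℕ} {H : ℂ → IS.PP n} (hH : IS.HolP H) {j : Fin (n + 1)}
    {φ : Fin (n + 1) → Mer} (hc : IsCoord H j φ) (hne : ∃ z z', H z ≠ H z')
    (l : Fin (n + 1) → ℂ) (ε : ℝ) (hε : 0 < ε)
    (hl : ∀ z, ε * ‖(H z).rep‖ ≤ max ‖(H z).rep j‖ ‖∑ i, l i * (H z).rep i‖) :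
    (∑ i, algebraMap ℂ Mer (l i) * φ i) ∉ (algebraMap ℂ Mer).range := by
  rintro ⟨c, hx⟩
  have hloc := e5b_loc hH hc l ε hε hl hx.symm
  have h1 : ∀ i, ∃ c' : ℂ, φ i = algebraMap ℂ Mer c' := by
    intro i
    refine liouville (C := max 1 ‖c‖ / ε) fun z => ?_
    obtain ⟨v, -, -, h2⟩ := hloc z
    obtain ⟨h3, h4, h5⟩ := h2 i
    exact ⟨h3, by rw [h4]; exact h5⟩
  choose c' hc' using h1
  obtain ⟨z, z', hzz⟩ := hne
  refine hzz ?_
  obtain ⟨v, hv, ⟨hv0, hHv⟩, hv1⟩ := hloc z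
  obtain ⟨w, hw, ⟨hw0, hHw⟩, hw1⟩ := hloc z'
  rw [hHv, hHw, Projectivization.mk_eq_mk_iff']
  refine ⟨v j / w j, ?_⟩
  funext i
  have h2 : c' i = v i / v j := by
    rw [← (hv1 i).2.1, hc' i, (reg_const (c' i) z).2]
  have h3 : c' i = w i / w j := by
    rw [← (hw1 i).2.1, hc' i, (reg_const (c' i) z').2]
  have h4 : w i / w j = v i / v j := h3.symm.trans h2
  rw [Pi.smul_apply, smul_eq_mul]
  have h5 : w i = v i / v j * w j := by
    rw [← h4, div_mul_cancel₀ _ hw]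
  rw [h5]
  field_simp

end Pool.Agent.PT

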