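import Pool.Agent.Lib_helper82.PT.AlgBase2
import Pool.Agent.Lib_helper82.PT.DefsB

/-! # The plane theorem (MP_45e720_ag), block E6: periods of the coordinates -/

set_option autoImplicit false

open Filter Topology Metric Set
open scoped IntermediateField IntermediateField.algebraAdjoinAdjoin

namespace Pool.Agent.PT

/-- Block E6. periods of the coordinates are periods of `H` -/
theorem per_H {n : ℕ} {H : ℂ → IS.PP n} (hH : IS.HolP H) {j : Fin (n + 1)} {φ : Fin (n + 1) → Mer}
    (hc : IsCoord H j φ) {p : ℂ} (hp : ∀ i, Per p (φ i)) (z : ℂ) : H (z + p) = H z := by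
  obtain ⟨F, hF⟩ := hH z
  obtain ⟨F', hF'⟩ := hH (z + p)
  obtain ⟨hFan, hFz, hHz⟩ := hF.self_of_nhds
  obtain ⟨hFan', hFz', hHz'⟩ := hF'.self_of_nhds
  have h1 := hc.2 z F hF
  have h2 := hc.2 (z + p) F' hF'
  have hshift : Tendsto (fun w : ℂ => w + p) (𝓝[≠] z) (𝓝[≠] (z + p)) := by
    refine tendsto_nhdsWithin_iff.2 ⟨?_, ?_⟩
    · exact ((continuous_id.add continuous_const).tendsto z).mono_left nhdsWithin_le_nhds
    · filter_upwards [self_mem_nhdsWithin] with w hw h
      exact hw (add_right_cancel h)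
  have h3 : ∀ᶠ w in 𝓝[≠] z, ∀ i k, F w i * F' (w + p) k = F' (w + p) i * F w k := by
    filter_upwards [h1, hshift.eventually h2] with w hw hw' i k
    obtain ⟨hj, hi⟩ := hw
    obtain ⟨hj', hi'⟩ := hw'
    have e : ∀ i, F' (w + p) i / F' (w + p) j = F w i / F w j := fun i => by
      rw [← hi i, ← hi' i]
      exact hp i w
    have e2 : ∀ i, F' (w + p) i = F w i / F w j * F' (w + p) j := fun i => by
      rw [← e i, div_mul_cancel₀ _ hj']
    rw [e2 i, e2 k]
    field_simp
  have hcF : ContinuousAt F z := hFan.continuousAt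
  have hcF' : ContinuousAt (fun w => F' (w + p)) z := by
    have : ContinuousAt F' ((fun w : ℂ => w + p) z) := hFan'.continuousAt
    exact ContinuousAt.comp (f := fun w : ℂ => w + p) (g := F') this
      (continuous_id.add continuous_const).continuousAt
  have hi : ∀ i, ContinuousAt (fun w => F w i) z := fun i =>
    (continuous_apply i).continuousAt.comp hcF
  have hi' : ∀ i, ContinuousAt (fun w => F' (w + p) i) z := fun i =>
    (continuous_apply i).continuousAt.comp hcF'
  have h4 : ∀ i k, F z i * F' (z + p) k = F' (z + p) i * F z k := by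
    intro i k
    have t1 : Tendsto (fun w => F w i * F' (w + p) k) (𝓝[≠] z) (𝓝 (F z i * F' (z + p) k)) :=
      ((hi i).mul (hi' k)).tendsto.mono_left nhdsWithin_le_nhds
    have t2 : Tendsto (fun w => F' (w + p) i * F w k) (𝓝[≠] z) (𝓝 (F' (z + p) i * F z k)) :=
      ((hi' i).mul (hi k)).tendsto.mono_left nhdsWithin_le_nhds
    refine tendsto_nhds_unique (t1.congr' ?_) t2
    filter_upwards [h3] with w hw
    exact hw i k
  obtain ⟨k, hk⟩ := Function.ne_iff.1 hFz
  rw [hHz, hHz', Projectivization.mk_eq_mk_iff']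
  refine ⟨F' (z + p) k / F z k, ?_⟩
  funext i
  have hk' : F z k ≠ 0 := hk
  rw [Pi.smul_apply, smul_eq_mul, div_mul_eq_mul_div, div_eq_iff hk', mul_comm, h4 i k]


end Pool.Agent.PT
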