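import Pool.Agent.Lib_helper82.PT.AlgBase2
import Pool.Agent.Lib_helper82.PT.DefsB

/-! # PT, block E7: common denominators, homogenization -/

set_option autoImplicit false

open Filter Topology Metric Set
open scoped IntermediateField IntermediateField.algebraAdjoinAdjoin

namespace Pool.Agent.PT

/-- homogenization of a polynomial -/
noncomputable def e7_hom (d : ℕ) (b : Polynomial ℂ) : MvPolynomial (Fin 2) ℂ :=
  ∑ k ∈ Finset.range (d + 1),
    MvPolynomial.C (b.coeff k) * (MvPolynomial.X 0 ^ k * MvPolynomial.X 1 ^ (d - k))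

theorem e7_isHom (d : ℕ) (b : Polynomial ℂ) : (e7_hom d b).IsHomogeneous d := by
  refine MvPolynomial.IsHomogeneous.sum _ _ _ fun k hk => ?_
  have hk' : k ≤ d := Nat.lt_succ_iff.1 (Finset.mem_range.1 hk)
  have h1 : (MvPolynomial.X 0 ^ k * MvPolynomial.X 1 ^ (d - k) :
      MvPolynomial (Fin 2) ℂ).IsHomogeneous (k + (d - k)) :=
    (MvPolynomial.isHomogeneous_X_pow _ k).mul (MvPolynomial.isHomogeneous_X_pow _ (d - k))
  have h2 := (MvPolynomial.isHomogeneous_C (Fin 2) (b.coeff k)).mul h1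
  rwa [zero_add, Nat.add_sub_cancel' hk'] at h2

theorem e7_aeval {L : Type} [Field L] [Algebra ℂ L] {d : ℕ} {b : Polynomial ℂ}
    (hb : b.natDegree ≤ d) (t : L) :
    MvPolynomial.aeval ![t, 1] (e7_hom d b) = Polynomial.aeval t b := by
  rw [e7_hom, map_sum, Polynomial.aeval_eq_sum_range' (Nat.lt_succ_of_le hb)]
  refine Finset.sum_congr rfl fun k _ => ?_
  simp [Algebra.smul_def]

theorem e7_eval1 {d : ℕ} {b : Polynomial ℂ} (hb : b.natDegree ≤ d) {v : Fin 2 → ℂ}
    (hv : v 1 ≠ 0) :
    MvPolynomial.eval v (e7_hom d b) = v 1 ^ d * Polynomial.eval (v 0 / v 1) b := by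
  rw [e7_hom, map_sum, Polynomial.eval_eq_sum_range' (Nat.lt_succ_of_le hb), Finset.mul_sum]
  refine Finset.sum_congr rfl fun k hk => ?_
  have hk' : k ≤ d := Nat.lt_succ_iff.1 (Finset.mem_range.1 hk)
  simp only [map_mul, map_pow, MvPolynomial.eval_C, MvPolynomial.eval_X]
  obtain ⟨m, rfl⟩ := Nat.exists_eq_add_of_le hk'
  rw [Nat.add_sub_cancel_left, div_pow, pow_add]
  field_simp

theorem e7_eval0 {d : ℕ} {b : Polynomial ℂ} {v : Fin 2 → ℂ} (hv : v 1 = 0) :
    MvPolynomial.eval v (e7_hom d b) = b.coeff d * v 0 ^ d := by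
  rw [e7_hom, map_sum, Finset.sum_eq_single d]
  · simp
  · intro k hk hkd
    have hk' : k < d := lt_of_le_of_ne (Nat.lt_succ_iff.1 (Finset.mem_range.1 hk)) hkd
    have : d - k ≠ 0 := by omega
    simp [hv, this]
  · intro h
    exact absurd (Finset.mem_range.2 (Nat.lt_succ_self d)) h

/-- Block E7 -/
theorem rat_poly {L : Type} [Field L] [Algebra ℂ L] {n : ℕ} (φ : Fin (n + 1) → L)
    {j : Fin (n + 1)}
    (hj : φ j = 1) (t : L) (h : ∀ i, φ i ∈ ℂ⟮t⟯) :
    ∃ (d : ℕ) (P : Fin (n + 1) → MvPolynomial (Fin 2) ℂ), (∀ i, (P i).IsHomogeneous d) ∧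
      (∀ v : Fin 2 → ℂ, v ≠ 0 → (fun i => MvPolynomial.eval v (P i)) ≠ 0) ∧
      ∃ g : L, g ≠ 0 ∧ ∀ i, MvPolynomial.aeval ![t, 1] (P i) = g * φ i := by
  classical
  -- numerators and denominators
  have h1 : ∀ i, ∃ r s : Polynomial ℂ, Polynomial.aeval t s ≠ 0 ∧
      Polynomial.aeval t s * φ i = Polynomial.aeval t r := by
    intro i
    obtain ⟨r, s, hrs⟩ := (IntermediateField.mem_adjoin_simple_iff ℂ (φ i)).1 (h i)
    by_cases hs : Polynomial.aeval t s = 0
    · refine ⟨0, 1, ?_, ?_⟩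
      · simp
      · rw [hrs, hs]
        simp
    · refine ⟨r, s, hs, ?_⟩
      rw [hrs]
      field_simp
  choose r s hs hrs using h1
  -- common denominator
  set q : Polynomial ℂ := ∏ i, s i with hq
  have hq0 : Polynomial.aeval t q ≠ 0 := by
    rw [hq, map_prod]
    exact Finset.prod_ne_zero_iff.2 fun i _ => hs i
  set a : Fin (n + 1) → Polynomial ℂ := fun i => (∏ i' ∈ Finset.univ.erase i, s i') * r i with ha
  have hat : ∀ i, Polynomial.aeval t (a i) = Polynomial.aeval t q * φ i := by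
    intro i
    rw [ha, hq]
    show Polynomial.aeval t ((∏ i' ∈ Finset.univ.erase i, s i') * r i) = _
    rw [map_mul, ← hrs i, ← Finset.prod_erase_mul Finset.univ s (Finset.mem_univ i), map_mul]
    ring
  have haj : Polynomial.aeval t (a j) ≠ 0 := by
    rw [hat j, hj, mul_one]
    exact hq0
  have haj0 : a j ≠ 0 := by
    intro h0
    rw [h0, map_zero] at haj
    exact haj rfl
  -- divide by the greatest common divisor
  obtain ⟨G, hG⟩ : ∃ G : Polynomial ℂ, Ideal.span (Set.range a) = Ideal.span {G} :=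
    ⟨_, (Submodule.IsPrincipal.span_singleton_generator _).symm⟩
  have hdvd : ∀ i, ∃ b : Polynomial ℂ, a i = G * b := by
    intro i
    have h2 : a i ∈ Ideal.span (Set.range a) := Ideal.subset_span ⟨i, rfl⟩
    rw [hG, Ideal.mem_span_singleton] at h2
    obtain ⟨b, hb⟩ := h2
    exact ⟨b, hb⟩
  choose b hb using hdvd
  have hG0 : G ≠ 0 := by
    rintro rfl
    rw [hb j, zero_mul] at haj0
    exact haj0 rfl
  have hG1 : ∃ c : Fin (n + 1) → Polynomial ℂ, ∑ i, c i * b i = 1 := by
    have h2 : G ∈ Ideal.span (Set.range a) := by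
      rw [hG]
      exact Ideal.mem_span_singleton_self G
    obtain ⟨c, hc⟩ := (Submodule.mem_span_range_iff_exists_fun (Polynomial ℂ)).1 h2
    refine ⟨c, mul_left_cancel₀ hG0 ?_⟩
    rw [mul_one, Finset.mul_sum]
    conv_rhs => rw [← hc]
    refine Finset.sum_congr rfl fun i _ => ?_
    rw [smul_eq_mul, hb i]
    ring
  obtain ⟨c, hc⟩ := hG1
  have hGt : Polynomial.aeval t G ≠ 0 := by
    intro h0
    rw [hb j, map_mul, h0, zero_mul] at haj
    exact haj rfl
  have hbj0 : b j ≠ 0 := by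
    intro h0
    rw [hb j, h0, mul_zero] at haj0
    exact haj0 rfl
  -- the degree
  obtain ⟨m, hm, hmax⟩ := (Finset.univ.filter fun i => b i ≠ 0).exists_max_image
    (fun i => (b i).natDegree) ⟨j, Finset.mem_filter.2 ⟨Finset.mem_univ j, hbj0⟩⟩
  have hm0 : b m ≠ 0 := (Finset.mem_filter.1 hm).2
  have hdeg : ∀ i, (b i).natDegree ≤ (b m).natDegree := by
    intro i
    by_cases hi : b i = 0
    · rw [hi, Polynomial.natDegree_zero]
      exact Nat.zero_le _
    · exact hmax i (Finset.mem_filter.2 ⟨Finset.mem_univ i, hi⟩)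
  refine ⟨(b m).natDegree, fun i => e7_hom (b m).natDegree (b i), fun i => e7_isHom _ _, ?_,
    Polynomial.aeval t q / Polynomial.aeval t G, div_ne_zero hq0 hGt, ?_⟩
  · intro v hv h0
    by_cases hv1 : v 1 = 0
    · have hv0 : v 0 ≠ 0 := by
        intro h2
        apply hv
        funext i
        fin_cases i
        · exact h2
        · exact hv1
      have h2 := congrFun h0 m
      simp only [Pi.zero_apply] at h2
      rw [e7_eval0 hv1] at h2
      have h3 : (b m).coeff (b m).natDegree ≠ 0 := by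
        rw [Polynomial.coeff_natDegree]
        exact Polynomial.leadingCoeff_ne_zero.2 hm0
      exact mul_ne_zero h3 (pow_ne_zero _ hv0) h2
    · have h2 : ∀ i, Polynomial.eval (v 0 / v 1) (b i) = 0 := by
        intro i
        have h3 := congrFun h0 i
        simp only [Pi.zero_apply] at h3
        rw [e7_eval1 (hdeg i) hv1] at h3
        exact (mul_eq_zero.1 h3).resolve_left (pow_ne_zero _ hv1)
      have h3 := congrArg (Polynomial.eval (v 0 / v 1)) hc
      rw [Polynomial.eval_finsetSum, Polynomial.eval_one] at h3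
      rw [Finset.sum_eq_zero fun i _ => by rw [Polynomial.eval_mul, h2 i, mul_zero]] at h3
      exact zero_ne_one h3
  · intro i
    rw [e7_aeval (hdeg i)]
    have h2 : Polynomial.aeval t G * Polynomial.aeval t (b i) =
        Polynomial.aeval t q * φ i := by
      rw [← map_mul, ← hb i, hat i]
    rw [div_mul_eq_mul_div, eq_div_iff hGt, ← h2]
    ring


end Pool.Agent.PT
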