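import Pool.Agent.Lib_helper82.PT.AlgBase2
import Pool.Agent.Lib_helper82.PT.DefsB
import Pool.Agent.Lib_helper82.PT.P.A2b

/-! # The plane theorem (MP_45e720_ag): block E8 -/

set_option autoImplicit false

open Filter Topology Metric Set
open scoped IntermediateField IntermediateField.algebraAdjoinAdjoin

namespace Pool.Agent.PT

theorem e8_hom {d : ℕ} {P : MvPolynomial (Fin 2) ℂ} (hP : P.IsHomogeneous d) (c : ℂ)
    (v : Fin 2 → ℂ) : MvPolynomial.eval (c • v) P = c ^ d * MvPolynomial.eval v P := by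
  rw [MvPolynomial.eval_eq', MvPolynomial.eval_eq', Finset.mul_sum]
  refine Finset.sum_congr rfl fun s hs => ?_
  have h1 : s 0 + s 1 = d := by
    have h2 := hP (MvPolynomial.mem_support_iff.1 hs)
    have h3 : s.degree = d := by
      rw [Finsupp.degree_eq_weight_one (R := ℕ)]
      exact h2
    rw [Finsupp.degree_eq_sum, Fin.sum_univ_two] at h3
    exact h3
  rw [Fin.prod_univ_two, Fin.prod_univ_two, ← h1, pow_add]
  simp only [Pi.smul_apply, smul_eq_mul, mul_pow]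
  ring

theorem e8_prop {n : ℕ} {F G : Fin (n + 1) → ℂ} (hF : F ≠ 0) (hG : G ≠ 0)
    (h : ∀ a b, F a * G b = F b * G a) :
    Projectivization.mk ℂ F hF = Projectivization.mk ℂ G hG := by
  rw [Projectivization.mk_eq_mk_iff']
  obtain ⟨b, hb⟩ := Function.ne_iff.1 hG
  have hb' : G b ≠ 0 := hb
  refine ⟨F b / G b, ?_⟩
  funext a
  rw [Pi.smul_apply, smul_eq_mul, div_mul_eq_mul_div, ← h a b, mul_div_cancel_right₀ _ hb']

theorem e8_ne {t : Mer} {z : ℂ} (ht : t ≠ 0) (h1 : Reg t z) (h2 : Reg t⁻¹ z) : fn t z ≠ 0 := by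
  intro h0
  have h3 := (reg_mul h1 h2).2.eq_of_nhds
  rw [mul_inv_cancel₀ ht] at h3
  have h4 := (reg_const 1 z).2
  rw [map_one] at h4
  rw [h4] at h3
  rw [Pi.mul_apply, h0, zero_mul] at h3
  exact one_ne_zero h3

theorem e8_ne1 (c : ℂ) : (![c, 1] : Fin 2 → ℂ) ≠ 0 := fun h => by
  have := congrFun h 1
  simp at this

theorem e8_ne2 (c : ℂ) : (![1, c] : Fin 2 → ℂ) ≠ 0 := fun h => by
  have := congrFun h 0
  simp at this

open scoped Classical in
/-- the map to the line -/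
noncomputable def e8_u (t : Mer) (z : ℂ) : IS.PP 1 :=
  if Reg t z then Projectivization.mk ℂ ![fn t z, 1] (e8_ne1 _)
  else Projectivization.mk ℂ ![1, 0] (e8_ne2 _)

theorem e8_u2 {t : Mer} (ht : t ≠ 0) {z : ℂ} (hz : Reg t⁻¹ z) :
    e8_u t z = Projectivization.mk ℂ ![1, fn t⁻¹ z] (e8_ne2 _) := by
  unfold e8_u
  split_ifs with h
  · have h0 := e8_ne ht h hz
    refine e8_prop _ _ fun a b => ?_
    rw [fn_inv_eq]
    fin_cases a <;> fin_cases b <;> simp [h0]
  · have h1 : fn t⁻¹ z = 0 := (pole h).2.2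
    congr 1
    rw [h1]

/-- a local lift of `u`, proportional to `(t : 1)` -/
theorem e8_lift (t : Mer) (z₀ : ℂ) : ∃ U : ℂ → Fin 2 → ℂ,
    (∀ᶠ z in 𝓝 z₀, AnalyticAt ℂ U z ∧ ∃ h : U z ≠ 0, e8_u t z = Projectivization.mk ℂ (U z) h) ∧
    ∀ᶠ z in 𝓝[≠] z₀, ∃ c : ℂ, U z = c • ![fn t z, 1] := by
  by_cases h : Reg t z₀
  · refine ⟨fun z => ![fn t z, 1], ?_, ?_⟩
    · filter_upwards [h.eventually_analyticAt] with z hz
      refine ⟨?_, e8_ne1 _, ?_⟩
      · rw [analyticAt_pi_iff, Fin.forall_fin_two]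
        exact ⟨hz, analyticAt_const⟩
      · unfold e8_u
        rw [if_pos (show Reg t z from hz)]
    · exact Eventually.of_forall fun z => ⟨1, by simp⟩
  · have ht : t ≠ 0 := by
      rintro rfl
      have := (reg_const 0 z₀).1
      rw [map_zero] at this
      exact h this
    have hi := (pole h).2.1
    refine ⟨fun z => ![1, fn t⁻¹ z], ?_, ?_⟩
    · filter_upwards [AnalyticAt.eventually_analyticAt hi] with z hz
      refine ⟨?_, e8_ne2 _, e8_u2 ht hz⟩
      rw [analyticAt_pi_iff, Fin.forall_fin_two]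
      exact ⟨analyticAt_const, hz⟩
    · have h1 : ∀ᶠ z in 𝓝[≠] z₀, Reg t z := ev_iff.1 (an_ev t) z₀
      have h2 : ∀ᶠ z in 𝓝[≠] z₀, Reg t⁻¹ z := ev_iff.1 (an_ev t⁻¹) z₀
      filter_upwards [h1, h2] with z h3 h4
      have h5 := e8_ne ht h3 h4
      refine ⟨fn t⁻¹ z, ?_⟩
      rw [fn_inv_eq]
      funext a
      fin_cases a <;> simp [h5]

theorem e8_cont {f g : ℂ → ℂ} {z₀ : ℂ} (hf : ContinuousAt f z₀) (hg : ContinuousAt g z₀)
    (h : ∀ᶠ z in 𝓝[≠] z₀, f z = g z) : f z₀ = g z₀ := by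
  have h1 : Tendsto f (𝓝[≠] z₀) (𝓝 (f z₀)) := hf.tendsto.mono_left nhdsWithin_le_nhds
  have h2 : Tendsto g (𝓝[≠] z₀) (𝓝 (g z₀)) := hg.tendsto.mono_left nhdsWithin_le_nhds
  exact tendsto_nhds_unique h1 (h2.congr' (h.mono fun z hz => hz.symm))

theorem rat_H {n : ℕ} {H : ℂ → IS.PP n} (hH : IS.HolP H) {j : Fin (n + 1)}
    {φ : Fin (n + 1) → Mer}
    (hc : IsCoord H j φ) (t : Mer) (d : ℕ) (P : Fin (n + 1) → MvPolynomial (Fin 2) ℂ)
    (hP : ∀ i, (P i).IsHomogeneous d)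
    (hP' : ∀ v : Fin 2 → ℂ, v ≠ 0 → (fun i => MvPolynomial.eval v (P i)) ≠ 0) (g : Mer)
    (hg : g ≠ 0) (h : ∀ i, MvPolynomial.aeval ![t, 1] (P i) = g * φ i) : IS.RatFactor H := by
  have hval : ∀ᶠ z in codiscrete ℂ, ∀ i,
      MvPolynomial.eval ![fn t z, 1] (P i) = fn g z * fn (φ i) z := by
    have h1 : ∀ᶠ z in codiscrete ℂ, ∀ i, Reg (φ i) z := eventually_all.2 fun i => an_ev (φ i)
    filter_upwards [an_ev t, an_ev g, h1] with z h2 h3 h4 i
    have h5 : (MvPolynomial.aeval (![⟨t, h2⟩, 1] : Fin 2 → regAt z) (P i) : regAt z) =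
        ⟨g, h3⟩ * ⟨φ i, h4 i⟩ := by
      apply Subtype.ext
      have h6 : (regAt z).val (MvPolynomial.aeval (![⟨t, h2⟩, 1] : Fin 2 → regAt z) (P i)) =
          MvPolynomial.aeval ![t, 1] (P i) := by
        rw [MvPolynomial.comp_aeval_apply]
        congr 2
        funext a
        fin_cases a <;> rfl
      exact h6.trans (h i)
    have h9 : ev z (MvPolynomial.aeval (![⟨t, h2⟩, 1] : Fin 2 → regAt z) (P i)) =
        fn g z * fn (φ i) z := (congrArg (ev z) h5).trans (map_mul (ev z) _ _)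
    have h10 := MvPolynomial.comp_aeval_apply (![⟨t, h2⟩, 1] : Fin 2 → regAt z) (ev z) (P i)
    rw [← h9, h10, ← MvPolynomial.aeval_eq_eval]
    congr 2
    funext a
    fin_cases a
    · rfl
    · exact (map_one (ev z)).symm
  refine ⟨d, P, hP, hP', e8_u t, ?_, ?_⟩
  · intro z₀
    obtain ⟨U, hU, -⟩ := e8_lift t z₀
    exact ⟨U, hU⟩
  · intro z₀
    have hr : (fun i => MvPolynomial.eval (e8_u t z₀).rep (P i)) ≠ 0 :=
      hP' _ (Projectivization.rep_nonzero _)
    refine ⟨hr, ?_⟩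
    obtain ⟨F, hF⟩ := hH z₀
    obtain ⟨U, hU, hUc⟩ := e8_lift t z₀
    obtain ⟨hF1, hF2, hF3⟩ := hF.self_of_nhds
    obtain ⟨hU1, hU2, hU3⟩ := hU.self_of_nhds
    rw [hF3]
    refine e8_prop _ _ fun a b => ?_
    obtain ⟨μ, hμ⟩ := Projectivization.exists_smul_eq_mk_rep ℂ (U z₀) hU2
    have h0 : ∀ a, MvPolynomial.eval (e8_u t z₀).rep (P a) =
        (μ : ℂ) ^ d * MvPolynomial.eval (U z₀) (P a) := by
      intro a
      rw [hU3, ← hμ, Units.smul_def, e8_hom (hP a)]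
    rw [h0, h0]
    have hFa : ∀ a, ContinuousAt (fun z => F z a) z₀ := fun a =>
      (continuous_apply a).continuousAt.comp hF1.continuousAt
    have hGa : ∀ a, ContinuousAt (fun z => MvPolynomial.eval (U z) (P a)) z₀ := fun a =>
      (MvPolynomial.continuous_eval (P a)).continuousAt.comp hU1.continuousAt
    have key : F z₀ a * MvPolynomial.eval (U z₀) (P b) = F z₀ b * MvPolynomial.eval (U z₀) (P a) :=
      e8_cont (f := fun z => F z a * MvPolynomial.eval (U z) (P b))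
      (g := fun z => F z b * MvPolynomial.eval (U z) (P a))
      ((hFa a).mul (hGa b)) ((hFa b).mul (hGa a)) (by
      filter_upwards [hc.2 z₀ F hF, ev_iff.1 hval z₀, hUc] with z h1 h2 h3
      obtain ⟨c, h3⟩ := h3
      have h4 : ∀ a, MvPolynomial.eval (U z) (P a) * F z j = c ^ d * fn g z * F z a := by
        intro a
        rw [h3, e8_hom (hP a), h2 a, h1.2 a]
        have := h1.1
        field_simp
      have h5 := h4 a
      have h6 := h4 b
      refine mul_right_cancel₀ h1.1 ?_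
      linear_combination F z a * h6 - F z b * h5)
    linear_combination (μ : ℂ) ^ d * key


end Pool.Agent.PT
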