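import Pool.Agent.Lib_helper82.PT.AlgBase2

set_option autoImplicit false

open Polynomial
open scoped IntermediateField IntermediateField.algebraAdjoinAdjoin

namespace Pool.Agent.PT

variable {K : Type} [Field K] [Algebra ℂ K] {x : K}

private theorem a2a_ft (hx : Transcendental ℂ x) [FiniteDimensional ℂ⟮x⟯ K] :
    Algebra.FiniteType ℂ (IntOver x) := by
  have h1 : Module.Finite (Algebra.adjoin ℂ {x}) (integralClosure (Algebra.adjoin ℂ {x}) K) :=
    fini x hx
  have h2 : Algebra.FiniteType (Algebra.adjoin ℂ {x})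
      (integralClosure (Algebra.adjoin ℂ {x}) K) := inferInstance
  have h3 : Algebra.FiniteType ℂ (Algebra.adjoin ℂ {x}) := by
    rw [← Subalgebra.fg_iff_finiteType]
    exact ⟨{x}, by simp⟩
  have h4 : Algebra.FiniteType ℂ (integralClosure (Algebra.adjoin ℂ {x}) K) :=
    Algebra.FiniteType.trans h3 h2
  exact h4

theorem exists_char (hx : Transcendental ℂ x) [FiniteDimensional ℂ⟮x⟯ K]
    (I : Ideal (IntOver x)) (hI : I ≠ ⊤) : ∃ χ : IntOver x →ₐ[ℂ] ℂ, ∀ a ∈ I, χ a = 0 := by
  obtain ⟨m, hm, hIm⟩ := Ideal.exists_le_maximal I hI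
  have hft := a2a_ft hx
  have h1 : Algebra.FiniteType ℂ (IntOver x ⧸ m) :=
    Algebra.FiniteType.of_surjective (Ideal.Quotient.mkₐ ℂ m) (Ideal.Quotient.mkₐ_surjective ℂ m)
  let _ := Ideal.Quotient.field m
  have h2 : Module.Finite ℂ (IntOver x ⧸ m) := finite_of_finite_type_of_isJacobsonRing ℂ _
  have h3 : Function.Bijective (algebraMap ℂ (IntOver x ⧸ m)) :=
    IsAlgClosed.algebraMap_bijective_of_isIntegral
  refine ⟨((AlgEquiv.ofBijective (Algebra.ofId ℂ (IntOver x ⧸ m)) h3).symm : _ →ₐ[ℂ] ℂ).comp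
    (Ideal.Quotient.mkₐ ℂ m), fun a ha => ?_⟩
  have : (Ideal.Quotient.mkₐ ℂ m) a = 0 := Ideal.Quotient.eq_zero_iff_mem.2 (hIm ha)
  rw [AlgHom.comp_apply, this, map_zero]

theorem exists_char_val (hx : Transcendental ℂ x) [FiniteDimensional ℂ⟮x⟯ K] (c : ℂ) :
    ∃ χ : IntOver x →ₐ[ℂ] ℂ, χ ⟨x, self_mem x⟩ = c := by
  obtain ⟨χ, hχ⟩ := exists_char hx
    (Ideal.span {(⟨x, self_mem x⟩ - algebraMap ℂ (IntOver x) c : IntOver x)}) (by
      intro htop
      obtain ⟨u, hu⟩ := (Ideal.span_singleton_eq_top.1 htop).exists_right_inv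
      let P : Ideal (Algebra.adjoin ℂ {x}) := RingHom.ker
        ((aeval c : ℂ[X] →ₐ[ℂ] ℂ).comp
          (Polynomial.algEquivOfTranscendental ℂ x hx).symm.toAlgHom).toRingHom
      have hPp : P.IsPrime := RingHom.ker_isPrime _
      have hint : Algebra.IsIntegral (Algebra.adjoin ℂ {x})
        (integralClosure (Algebra.adjoin ℂ {x}) K) := inferInstance
      obtain ⟨Q, -, hQ1, hQ2⟩ := Ideal.exists_ideal_over_prime_of_isIntegral
        (S := integralClosure (Algebra.adjoin ℂ {x}) K) P ⊥ (by
          intro a ha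
          rw [Ideal.mem_comap, Ideal.mem_bot] at ha
          have : a = 0 := by
            have := congrArg Subtype.val ha
            exact Subtype.ext this
          rw [this]; exact P.zero_mem)
      have hmem : (⟨x, Algebra.self_mem_adjoin_singleton ℂ x⟩ -
          algebraMap ℂ (Algebra.adjoin ℂ {x}) c : Algebra.adjoin ℂ {x}) ∈ P := by
        have e : (⟨x, Algebra.self_mem_adjoin_singleton ℂ x⟩ -
          algebraMap ℂ (Algebra.adjoin ℂ {x}) c : Algebra.adjoin ℂ {x}) =
            Polynomial.algEquivOfTranscendental ℂ x hx (X - C c) := by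
          apply Subtype.ext
          simp
        rw [e]
        change (aeval c) ((Polynomial.algEquivOfTranscendental ℂ x hx).symm
          (Polynomial.algEquivOfTranscendental ℂ x hx (X - C c))) = 0
        simp
      rw [← hQ2, Ideal.mem_comap] at hmem
      apply hQ1.ne_top
      rw [Ideal.eq_top_iff_one]
      have h7 := Q.mul_mem_left (show integralClosure (Algebra.adjoin ℂ {x}) K from u) hmem
      have h8 : (1 : integralClosure (Algebra.adjoin ℂ {x}) K) =
          (show integralClosure (Algebra.adjoin ℂ {x}) K from u) *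
          algebraMap (Algebra.adjoin ℂ {x}) (integralClosure (Algebra.adjoin ℂ {x}) K)
            (⟨x, Algebra.self_mem_adjoin_singleton ℂ x⟩ -
              algebraMap ℂ (Algebra.adjoin ℂ {x}) c) := by
        rw [mul_comm]
        exact hu.symm
      rw [h8]
      exact h7)
  refine ⟨χ, ?_⟩
  have := hχ _ (Ideal.subset_span rfl)
  rw [map_sub, AlgHom.commutes, sub_eq_zero] at this
  exact this


end Pool.Agent.PT
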