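import Pool.Agent.Lib_helper82.PT.AlgBase2

set_option autoImplicit false

open Polynomial
open scoped IntermediateField IntermediateField.algebraAdjoinAdjoin

namespace Pool.Agent.PT

variable {K : Type} [Field K] [Algebra ℂ K] {x : K}

private theorem a3a_crt {A : Type} [CommRing A] [IsDedekindDomain A] (p : Ideal A)
    (hp : p.IsMaximal) (π : A) (hπ : π ≠ 0) (hπp : π ∈ p) :
    ∃ f₀ ∈ p, f₀ ∉ p ^ 2 ∧ ∀ q : Ideal A, q.IsMaximal → q ≠ p → π ∈ q → f₀ ∉ q := by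
  classical
  have hbot : ∀ q : Ideal A, π ∈ q → q ≠ ⊥ := by
    intro q hq h
    rw [h] at hq
    exact hπ (Ideal.mem_bot.1 hq)
  have hfin := Ideal.finite_factors (R := A) (I := Ideal.span {π}) (by
    rw [Ne, Ideal.zero_eq_bot, Ideal.span_singleton_eq_bot]
    exact hπ)
  set S : Finset (Ideal A) := (hfin.image
    (fun v : IsDedekindDomain.HeightOneSpectrum A => v.asIdeal)).toFinset with hS
  have hmem : ∀ q ∈ insert p S, Prime q ∧ q.IsPrime := by
    intro q hq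
    rw [Finset.mem_insert] at hq
    rcases hq with rfl | hq
    · exact ⟨Ideal.prime_of_isPrime (hbot _ hπp) hp.isPrime, hp.isPrime⟩
    · rw [hS, Set.Finite.mem_toFinset] at hq
      obtain ⟨v, -, rfl⟩ := hq
      exact ⟨Ideal.prime_of_isPrime v.ne_bot v.isPrime, v.isPrime⟩
  obtain ⟨π₁, h1, h2⟩ := Ideal.exists_mem_pow_notMem_pow_succ p (hbot p hπp) hp.ne_top 1
  obtain ⟨y, hy⟩ := IsDedekindDomain.exists_forall_sub_mem_ideal (s := insert p S) (fun i => i)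
    (fun i => if i = p then 2 else 1) (fun i hi => (hmem i hi).1) (fun i _ j _ hij => hij)
    (fun i => if (i : Ideal A) = p then π₁ else 1)
  rw [pow_one] at h1
  have hyp := hy p (Finset.mem_insert_self _ _)
  simp only [if_true] at hyp
  refine ⟨y, ?_, ?_, ?_⟩
  · have h3 := Ideal.pow_le_self (two_ne_zero) hyp
    have h4 := p.add_mem h3 h1
    rwa [sub_add_cancel] at h4
  · intro h
    apply h2
    have h4 := (p ^ 2).sub_mem h hyp
    rwa [sub_sub_cancel] at h4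
  · intro q hq hqp hπq hyq
    have hqS : q ∈ insert p S := by
      rw [Finset.mem_insert]
      right
      rw [hS, Set.Finite.mem_toFinset]
      refine ⟨⟨q, hq.isPrime, hbot q hπq⟩, ?_, rfl⟩
      show q ∣ Ideal.span {π}
      rw [Ideal.dvd_iff_le, Ideal.span_singleton_le_iff_mem]
      exact hπq
    have h3 := hy q hqS
    simp only [if_neg hqp, pow_one] at h3
    have h4 := q.sub_mem hyq h3
    rw [sub_sub_cancel] at h4
    exact hq.ne_top ((Ideal.eq_top_iff_one q).2 h4)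

private theorem a3a_prim [FiniteDimensional ℂ⟮x⟯ K] :
    ∃ θ : IntOver x, IntermediateField.adjoin ℂ⟮x⟯ {(θ : K)} = ⊤ := by
  obtain ⟨α, hα⟩ := Field.exists_primitive_element ℂ⟮x⟯ K
  have halg : Algebra.IsAlgebraic (Algebra.adjoin ℂ {x}) K :=
    (IsFractionRing.comap_isAlgebraic_iff (A := Algebra.adjoin ℂ {x}) (K := ℂ⟮x⟯) (C := K)).2
      inferInstance
  obtain ⟨y, hy0, hy⟩ := (halg.isAlgebraic α).exists_integral_multiple
  refine ⟨⟨y • α, hy⟩, ?_⟩
  rw [eq_top_iff, ← hα, IntermediateField.adjoin_le_iff, Set.singleton_subset_iff]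
  have h1 : y • α = (y : K) * α := rfl
  have hy1 : (y : K) ∈ ℂ⟮x⟯ := IntermediateField.algebra_adjoin_le_adjoin ℂ {x} y.2
  have hy2 : (y : K) ≠ 0 := fun h => hy0 (Subtype.ext h)
  have h2 : y • α ∈ IntermediateField.adjoin ℂ⟮x⟯ {y • α} :=
    IntermediateField.mem_adjoin_simple_self _ _
  have h3 := (IntermediateField.adjoin ℂ⟮x⟯ {y • α}).smul_mem
    (x := (⟨(y : K), hy1⟩ : ℂ⟮x⟯)⁻¹) h2
  have h4 : (⟨(y : K), hy1⟩ : ℂ⟮x⟯)⁻¹ • (y • α) = α := by
    rw [h1]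
    show (y : K)⁻¹ * ((y : K) * α) = α
    rw [← mul_assoc, inv_mul_cancel₀ hy2, one_mul]
  rw [h4] at h3
  exact h3

theorem good_fun1 (hx : Transcendental ℂ x) [FiniteDimensional ℂ⟮x⟯ K]
    (χ : IntOver x →ₐ[ℂ] ℂ) :
    ∃ f : IntOver x, χ f = 0 ∧ f ∉ (RingHom.ker χ) ^ 2 ∧
      (∀ q : Ideal (IntOver x), q.IsMaximal → q ≠ RingHom.ker χ →
        (⟨x, self_mem x⟩ - algebraMap ℂ (IntOver x) (χ ⟨x, self_mem x⟩)) ∈ q → f ∉ q) ∧
      IntermediateField.adjoin ℂ⟮x⟯ {(f : K)} = ⊤ := by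
  have hded : IsDedekindDomain (IntOver x) := ded x hx
  set π : IntOver x := ⟨x, self_mem x⟩ - algebraMap ℂ (IntOver x) (χ ⟨x, self_mem x⟩) with hπdef
  have hπK : (π : K) = x - algebraMap ℂ K (χ ⟨x, self_mem x⟩) := rfl
  have hπ0K : (π : K) ≠ 0 := by
    intro h
    apply hx
    rw [hπK, sub_eq_zero] at h
    rw [h]
    exact isAlgebraic_algebraMap _
  have hπ0 : π ≠ 0 := fun h => hπ0K (by rw [h]; rfl)
  have hχπ : χ π = 0 := by
    rw [hπdef, map_sub, AlgHom.commutes]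
    exact sub_self _
  have hmax : (RingHom.ker χ).IsMaximal :=
    RingHom.ker_isMaximal_of_surjective χ (fun c => ⟨algebraMap ℂ _ c, AlgHom.commutes χ c⟩)
  obtain ⟨f₀, h1, h2, h3⟩ := a3a_crt (RingHom.ker χ) hmax π hπ0 hχπ
  obtain ⟨θ, hθ⟩ := a3a_prim (x := x)
  have hfin : Finite (IntermediateField ℂ⟮x⟯ K) :=
    Field.finite_intermediateField_of_exists_primitive_element _ _ ⟨θ, hθ⟩
  set F : ℂ → IntOver x := fun a => f₀ + algebraMap ℂ (IntOver x) a * (π ^ 2 * θ) with hF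
  obtain ⟨a, b, hab, hMM⟩ := Finite.exists_ne_map_eq_of_infinite
    (fun a : ℂ => IntermediateField.adjoin ℂ⟮x⟯ {(F a : K)})
  have hπ2 : ∀ a, algebraMap ℂ (IntOver x) a * (π ^ 2 * θ) ∈ (RingHom.ker χ) ^ 2 := fun a =>
    Ideal.mul_mem_left _ _ (Ideal.mul_mem_right _ _ (Ideal.pow_mem_pow hχπ 2))
  refine ⟨F a, ?_, ?_, ?_, ?_⟩
  · have h4 : F a ∈ RingHom.ker χ :=
      (RingHom.ker χ).add_mem h1 (Ideal.pow_le_self two_ne_zero (hπ2 a))
    exact h4
  · intro h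
    apply h2
    have h4 := ((RingHom.ker χ) ^ 2).sub_mem h (hπ2 a)
    rwa [hF, add_sub_cancel_right] at h4
  · intro q hq hqp hπq hFq
    apply h3 q hq hqp hπq
    have h5 : algebraMap ℂ (IntOver x) a * (π ^ 2 * θ) ∈ q :=
      Ideal.mul_mem_left _ _ (Ideal.mul_mem_right _ _ (Ideal.pow_mem_of_mem q hπq 2 two_pos))
    have h4 := q.sub_mem hFq h5
    rwa [hF, add_sub_cancel_right] at h4
  · set M := IntermediateField.adjoin ℂ⟮x⟯ {(F a : K)} with hM
    have m1 : (F a : K) ∈ M := IntermediateField.mem_adjoin_simple_self _ _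
    have m2 : (F b : K) ∈ M := by
      have : (F b : K) ∈ IntermediateField.adjoin ℂ⟮x⟯ {(F b : K)} :=
        IntermediateField.mem_adjoin_simple_self _ _
      rwa [← hMM] at this
    have hx1 : x ∈ ℂ⟮x⟯ := IntermediateField.mem_adjoin_simple_self _ _
    have hu : algebraMap ℂ K (a - b) * (π : K) ^ 2 ∈ ℂ⟮x⟯ := by
      rw [hπK]
      exact mul_mem (ℂ⟮x⟯.algebraMap_mem _) (pow_mem (sub_mem hx1 (ℂ⟮x⟯.algebraMap_mem _)) 2)
    have hu0 : algebraMap ℂ K (a - b) * (π : K) ^ 2 ≠ 0 := by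
      apply mul_ne_zero _ (pow_ne_zero 2 hπ0K)
      rw [Ne, FaithfulSMul.algebraMap_eq_zero_iff]
      exact sub_ne_zero.2 hab
    have m3 : (F a : K) - (F b : K) = (algebraMap ℂ K (a - b) * (π : K) ^ 2) * (θ : K) := by
      show ((f₀ : K) + algebraMap ℂ K a * ((π : K) ^ 2 * (θ : K))) -
        ((f₀ : K) + algebraMap ℂ K b * ((π : K) ^ 2 * (θ : K))) = _
      rw [map_sub]
      ring
    have m4 : (algebraMap ℂ K (a - b) * (π : K) ^ 2) * (θ : K) ∈ M := by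
      rw [← m3]
      exact sub_mem m1 m2
    have m5 : (θ : K) ∈ M := by
      have h6 := M.smul_mem
        (x := (⟨algebraMap ℂ K (a - b) * (π : K) ^ 2, hu⟩ : ℂ⟮x⟯)⁻¹) m4
      have h7 : (⟨algebraMap ℂ K (a - b) * (π : K) ^ 2, hu⟩ : ℂ⟮x⟯)⁻¹ •
          ((algebraMap ℂ K (a - b) * (π : K) ^ 2) * (θ : K)) = θ := by
        show (algebraMap ℂ K (a - b) * (π : K) ^ 2)⁻¹ *
          ((algebraMap ℂ K (a - b) * (π : K) ^ 2) * (θ : K)) = θ
        rw [← mul_assoc, inv_mul_cancel₀ hu0, one_mul]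
      rw [h7] at h6
      exact h6
    rw [eq_top_iff, ← hθ, IntermediateField.adjoin_le_iff, Set.singleton_subset_iff]
    exact m5

end Pool.Agent.PT

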