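import Pool.Agent.Lib_helper82.PT.AlgBase2

set_option autoImplicit false

open Polynomial
open scoped IntermediateField IntermediateField.algebraAdjoinAdjoin

namespace Pool.Agent.PT

/-- a prime of degree one: the relative norm is the prime below -/
theorem a3_relNorm_one {R S : Type} [CommRing R] [CommRing S] [IsDedekindDomain R]
    [IsDedekindDomain S] [Algebra R S] [Module.Finite R S] [Module.IsTorsionFree R S]
    [PerfectField (FractionRing R)] (P : Ideal S) (p : Ideal R) [P.LiesOver p] [P.IsMaximal]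
    [p.IsMaximal] (h : ∀ s : S, ∃ r : R, s - algebraMap R S r ∈ P) :
    Ideal.relNorm R P = p := by
  rw [Ideal.relNorm_eq_pow_of_isMaximal P p]
  have h1 : P.inertiaDeg R = 1 := by
    rw [Ideal.inertiaDeg_eq_of_isMaximal p P]
    have hs : Function.Surjective (algebraMap (R ⧸ p) (S ⧸ P)) := by
      intro b
      obtain ⟨s, rfl⟩ := Ideal.Quotient.mk_surjective b
      obtain ⟨r, hr⟩ := h s
      refine ⟨Ideal.Quotient.mk p r, ?_⟩
      rw [Ideal.Quotient.algebraMap_mk_of_liesOver]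
      exact (Ideal.Quotient.eq.2 hr).symm
    letI : Field (R ⧸ p) := Ideal.Quotient.field p
    refine (finrank_eq_one_iff_of_nonzero' (1 : S ⧸ P) one_ne_zero).2 fun w => ?_
    obtain ⟨c, hc⟩ := hs w
    exact ⟨c, by rw [← Algebra.algebraMap_eq_smul_one]; exact hc⟩
  rw [h1, pow_one]

/-- the relative norm of an ideal with no prime factor above `π` is not in `(π)` -/
theorem a3_relNorm_not_le {R S : Type} [CommRing R] [CommRing S] [IsDedekindDomain R]
    [IsDedekindDomain S] [Algebra R S] [Module.Finite R S] [Module.IsTorsionFree R S]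
    [PerfectField (FractionRing R)] (p : Ideal R) (hp : p.IsPrime) (hp0 : p ≠ ⊥) (J : Ideal S)
    (hJ : J ≠ ⊥)
    (h : ∀ Q : Ideal S, Q.IsPrime → Q ≠ ⊥ → J ≤ Q → ¬ p.map (algebraMap R S) ≤ Q) :
    ¬ Ideal.relNorm R J ≤ p := by
  intro hle
  have hfac := UniqueFactorizationMonoid.prod_normalizedFactors_eq (a := J) hJ
  rw [normalize_eq J] at hfac
  rw [← hfac, map_multiset_prod, Ideal.IsPrime.multiset_prod_map_le _ hp] at hle
  obtain ⟨Q, hQ, hle⟩ := hle
  have hQp : Prime Q := UniqueFactorizationMonoid.prime_of_normalized_factor Q hQ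
  have hQ0 : Q ≠ ⊥ := hQp.ne_zero
  have hQpr : Q.IsPrime := Ideal.isPrime_of_prime hQp
  have hJQ : J ≤ Q := Ideal.dvd_iff_le.1 (UniqueFactorizationMonoid.dvd_of_mem_normalizedFactors hQ)
  have hQm : Q.IsMaximal := hQpr.isMaximal hQ0
  have : (Q.under R).IsPrime := inferInstance
  obtain ⟨s, hs⟩ := Ideal.exists_relNorm_eq_pow_of_isPrime Q (Q.under R)
  rw [hs] at hle
  have hle2 : Q.under R ≤ p := hp.le_of_pow_le hle
  have hm : (Q.under R).IsMaximal := Ideal.isMaximal_comap_of_isIntegral_of_isMaximal Q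
  have heq : Q.under R = p := hm.eq_of_le hp.ne_top hle2
  refine h Q hQpr hQ0 hJQ ?_
  rw [Ideal.map_le_iff_le_comap, ← heq]

/-- the main point, for abstract rings -/
theorem a3_main {R S : Type} [CommRing R] [CommRing S] [IsDedekindDomain R]
    [IsDedekindDomain S] [Algebra R S] [Module.Finite R S] [Module.IsTorsionFree R S]
    [PerfectField (FractionRing R)] (π : R) (P : Ideal S) [P.IsMaximal]
    (hp : (Ideal.span {π}).IsMaximal) (hπ : π ≠ 0) [P.LiesOver (Ideal.span {π})]
    (h1 : ∀ s : S, ∃ r : R, s - algebraMap R S r ∈ P) (f : S) (hf : f ∈ P) (hf2 : f ∉ P ^ 2)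
    (hq : ∀ q : Ideal S, q.IsMaximal → q ≠ P → algebraMap R S π ∈ q → f ∉ q) :
    ∃ u : R, Algebra.intNorm R S f = π * u ∧ u ∉ Ideal.span {π} := by
  have hf0 : f ≠ 0 := by
    rintro rfl
    exact hf2 (Ideal.zero_mem _)
  obtain ⟨J, hJ⟩ := Ideal.dvd_iff_le.2 ((Ideal.span_singleton_le_iff_mem P).2 hf)
  have hJ0 : J ≠ ⊥ := by
    rintro rfl
    rw [Ideal.mul_bot, Ideal.span_singleton_eq_bot] at hJ
    exact hf0 hJ
  have hfJ : f ∈ J := by
    have : Ideal.span {f} ≤ J := Ideal.dvd_iff_le.1 ⟨P, by rw [hJ, mul_comm]⟩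
    exact this (Ideal.mem_span_singleton_self f)
  have hnot : ¬ Ideal.relNorm R J ≤ Ideal.span {π} := by
    refine a3_relNorm_not_le _ hp.isPrime (by simpa using hπ) J hJ0 fun Q hQ hQ0 hJQ hle => ?_
    have hQm : Q.IsMaximal := hQ.isMaximal hQ0
    rw [Ideal.map_span, Set.image_singleton, Ideal.span_singleton_le_iff_mem] at hle
    by_cases hQP : Q = P
    · subst hQP
      apply hf2
      rw [← Ideal.span_singleton_le_iff_mem, hJ, pow_two]
      exact Ideal.mul_mono_right hJQ
    · exact hq Q hQm hQP hle (hJQ hfJ)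
  have hN : Ideal.span {Algebra.intNorm R S f} = Ideal.span {π} * Ideal.relNorm R J := by
    rw [← Ideal.relNorm_singleton, hJ, map_mul, a3_relNorm_one P (Ideal.span {π}) h1]
  have hmem : Algebra.intNorm R S f ∈ Ideal.span {π} := by
    have : Ideal.span {Algebra.intNorm R S f} ≤ Ideal.span {π} :=
      Ideal.dvd_iff_le.1 ⟨Ideal.relNorm R J, hN⟩
    exact this (Ideal.mem_span_singleton_self _)
  obtain ⟨u, hu⟩ := Ideal.mem_span_singleton.1 hmem
  refine ⟨u, hu, fun hu2 => hnot ?_⟩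
  rw [hu, ← Ideal.span_singleton_mul_span_singleton] at hN
  have hc : Ideal.span {u} = Ideal.relNorm R J :=
    mul_left_cancel₀ (by simpa using hπ : (Ideal.span {π} : Ideal R) ≠ 0) hN
  rw [← hc, Ideal.span_singleton_le_iff_mem]
  exact hu2

section

variable {K : Type} [Field K] [Algebra ℂ K] {x : K}

/-- `IntOver x` and the integral closure have the same elements -/
noncomputable def a3_e (x : K) : IntOver x ≃+* integralClosure (Algebra.adjoin ℂ {x}) K where
  toFun y := ⟨y.1, y.2⟩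
  invFun y := ⟨y.1, y.2⟩
  left_inv _ := rfl
  right_inv _ := rfl
  map_mul' _ _ := rfl
  map_add' _ _ := rfl

theorem a3_e_coe (y : IntOver x) : ((a3_e x y : integralClosure (Algebra.adjoin ℂ {x}) K) : K) = y :=
  rfl

theorem a3_perfect (hx : Transcendental ℂ x) :
    PerfectField (FractionRing (Algebra.adjoin ℂ {x})) := by
  have : CharZero (Algebra.adjoin ℂ {x}) :=
    charZero_of_injective_algebraMap (algebraMap ℂ (Algebra.adjoin ℂ {x})).injective
  infer_instance

/-- the kernel of a character, as an ideal of the integral closure -/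
noncomputable def a3_P (χ : IntOver x →ₐ[ℂ] ℂ) :
    Ideal (integralClosure (Algebra.adjoin ℂ {x}) K) :=
  RingHom.ker ((χ : IntOver x →+* ℂ).comp (a3_e x).symm.toRingHom)

theorem mem_a3_P (χ : IntOver x →ₐ[ℂ] ℂ) (s : integralClosure (Algebra.adjoin ℂ {x}) K) :
    s ∈ a3_P χ ↔ χ ((a3_e x).symm s) = 0 := Iff.rfl

instance (χ : IntOver x →ₐ[ℂ] ℂ) : (a3_P χ).IsMaximal := by
  refine RingHom.ker_isMaximal_of_surjective _ fun c => ⟨a3_e x (algebraMap ℂ (IntOver x) c), ?_⟩
  simp

theorem a3_e0_coe (hx : Transcendental ℂ x) (q : ℂ[X]) :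
    ((Polynomial.algEquivOfTranscendental ℂ x hx q : Algebra.adjoin ℂ {x}) : K) = aeval x q := by
  simp [Polynomial.algEquivOfTranscendental]

/-- the norm is the integral norm -/
theorem a3_nm (hx : Transcendental ℂ x) [FiniteDimensional ℂ⟮x⟯ K]
    [IsDomain (Algebra.adjoin ℂ {x})] [IsIntegrallyClosed (Algebra.adjoin ℂ {x})]
    [IsIntegrallyClosed (integralClosure (Algebra.adjoin ℂ {x}) K)]
    [Algebra.IsIntegral (Algebra.adjoin ℂ {x}) (integralClosure (Algebra.adjoin ℂ {x}) K)]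
    [Module.IsTorsionFree (Algebra.adjoin ℂ {x}) (integralClosure (Algebra.adjoin ℂ {x}) K)]
    (f : integralClosure (Algebra.adjoin ℂ {x}) K) :
    nm x (f : K) = ((Algebra.intNorm (Algebra.adjoin ℂ {x})
      (integralClosure (Algebra.adjoin ℂ {x}) K) f : Algebra.adjoin ℂ {x}) : K) := by
  unfold nm
  have h := Algebra.algebraMap_intNorm (A := Algebra.adjoin ℂ {x}) (K := ℂ⟮x⟯) (L := K)
    (B := integralClosure (Algebra.adjoin ℂ {x}) K) f
  have h2 : algebraMap (integralClosure (Algebra.adjoin ℂ {x}) K) K f = (f : K) := rfl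
  rw [h2] at h
  rw [← h, ← IsScalarTower.algebraMap_apply (Algebra.adjoin ℂ {x}) ℂ⟮x⟯ K]
  rfl

/-- the set-up at a character -/
theorem a3_setup (hx : Transcendental ℂ x) (χ : IntOver x →ₐ[ℂ] ℂ) (c : ℂ)
    (hc : χ ⟨x, self_mem x⟩ = c) :
    let π : Algebra.adjoin ℂ {x} := Polynomial.algEquivOfTranscendental ℂ x hx (X - C c)
    (Ideal.span {π}).IsMaximal ∧ π ≠ 0 ∧ (a3_P χ).LiesOver (Ideal.span {π}) ∧
      ∀ s : integralClosure (Algebra.adjoin ℂ {x}) K, ∃ r : Algebra.adjoin ℂ {x},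
        s - algebraMap _ _ r ∈ a3_P χ := by
  intro π
  have := pid x hx
  have hirr : Irreducible π :=
    (MulEquiv.irreducible_iff (Polynomial.algEquivOfTranscendental ℂ x hx).toMulEquiv).2
      (Polynomial.irreducible_X_sub_C c)
  have hmax : (Ideal.span {π}).IsMaximal := PrincipalIdealRing.isMaximal_of_irreducible hirr
  have hmem : algebraMap (Algebra.adjoin ℂ {x}) (integralClosure (Algebra.adjoin ℂ {x}) K) π
      ∈ a3_P χ := by
    rw [mem_a3_P]
    have h1 : (a3_e x).symm (algebraMap (Algebra.adjoin ℂ {x})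
        (integralClosure (Algebra.adjoin ℂ {x}) K) π) =
        ⟨x, self_mem x⟩ - algebraMap ℂ (IntOver x) c := by
      apply Subtype.ext
      have h2 : (((a3_e x).symm (algebraMap (Algebra.adjoin ℂ {x})
        (integralClosure (Algebra.adjoin ℂ {x}) K) π) : IntOver x) : K) = (π : K) := rfl
      rw [h2, a3_e0_coe]
      simp
    rw [h1]
    simp [hc]
  refine ⟨hmax, hirr.ne_zero, ⟨?_⟩, fun s => ?_⟩
  · refine hmax.eq_of_le ?_ ?_
    · exact Ideal.comap_ne_top _ (Ideal.IsMaximal.ne_top inferInstance)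
    · rw [Ideal.span_singleton_le_iff_mem]
      exact hmem
  · refine ⟨algebraMap ℂ _ (χ ((a3_e x).symm s)), ?_⟩
    rw [mem_a3_P]
    have h1 : (a3_e x).symm (s - algebraMap _ _ (algebraMap ℂ (Algebra.adjoin ℂ {x})
        (χ ((a3_e x).symm s)))) =
        (a3_e x).symm s - algebraMap ℂ (IntOver x) (χ ((a3_e x).symm s)) := by
      rw [map_sub]
      congr 1
    rw [h1]
    simp

theorem norm_simple (hx : Transcendental ℂ x) [FiniteDimensional ℂ⟮x⟯ K]
    (χ : IntOver x →ₐ[ℂ] ℂ)
    (f : IntOver x) (hf : χ f = 0) (hf2 : f ∉ (RingHom.ker χ) ^ 2)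
    (hq : ∀ q : Ideal (IntOver x), q.IsMaximal → q ≠ RingHom.ker χ →
        (⟨x, self_mem x⟩ - algebraMap ℂ (IntOver x) (χ ⟨x, self_mem x⟩)) ∈ q → f ∉ q) :
    ∃ p : ℂ[X], aeval x p = nm x f ∧ p.eval (χ ⟨x, self_mem x⟩) = 0 ∧
        p.derivative.eval (χ ⟨x, self_mem x⟩) ≠ 0 := by
  set c : ℂ := χ ⟨x, self_mem x⟩ with hc
  have hpid := pid x hx
  have hded := ded x hx
  have hfin := fini x hx
  have hperf := a3_perfect hx
  have hfree := free x hx
  obtain ⟨hmax, hπ0, hlo, h1⟩ := a3_setup hx χ c hc.symm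
  have hker : (a3_P χ) = (RingHom.ker χ).map (a3_e x) := by
    ext s
    rw [Ideal.mem_map_of_equiv (a3_e x), mem_a3_P]
    constructor
    · intro h
      exact ⟨(a3_e x).symm s, h, (a3_e x).apply_symm_apply s⟩
    · rintro ⟨g, hg, rfl⟩
      rw [RingEquiv.symm_apply_apply]
      exact hg
  obtain ⟨u, hu, hu2⟩ := a3_main _ (a3_P χ) hmax hπ0 h1 (a3_e x f) (by
    rw [mem_a3_P]; simpa using hf) (by
    rw [hker, ← Ideal.map_pow, Ideal.mem_map_of_equiv (a3_e x)]
    rintro ⟨g, hg, heq⟩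
    rw [(a3_e x).injective heq] at hg
    exact hf2 hg) (by
    intro q hqm hqP hmem hfq
    have h5 : (q.comap (a3_e x)).IsMaximal := Ideal.comap_isMaximal_of_equiv (a3_e x)
    refine hq (q.comap (a3_e x)) h5 ?_ ?_ hfq
    · intro h6
      apply hqP
      rw [hker, ← h6]
      exact (Ideal.map_comap_of_surjective _ (a3_e x).surjective q).symm
    · rw [Ideal.mem_comap]
      convert hmem using 1
      apply Subtype.ext
      rw [a3_e_coe]
      have h7 : ((algebraMap (Algebra.adjoin ℂ {x}) (integralClosure (Algebra.adjoin ℂ {x}) K)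
        (Polynomial.algEquivOfTranscendental ℂ x hx (X - C c)) :
          integralClosure (Algebra.adjoin ℂ {x}) K) : K) =
        ((Polynomial.algEquivOfTranscendental ℂ x hx (X - C c) : Algebra.adjoin ℂ {x}) : K) := rfl
      rw [h7, a3_e0_coe]
      simp)
  set q := (Polynomial.algEquivOfTranscendental ℂ x hx).symm u with hqdef
  have hqu : Polynomial.algEquivOfTranscendental ℂ x hx q = u := by simp [hqdef]
  refine ⟨(X - C c) * q, ?_, by simp, ?_⟩
  · have h8 := a3_nm hx (a3_e x f)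
    rw [a3_e_coe] at h8
    rw [h8, hu, ← a3_e0_coe hx, map_mul, hqu]
  · have h9 : (derivative ((X - C c) * q)).eval c = q.eval c := by
      simp [derivative_mul]
    rw [h9]
    intro h10
    apply hu2
    obtain ⟨q', hq'⟩ := dvd_iff_isRoot.2 h10
    rw [← hqu, hq', map_mul]
    exact Ideal.mul_mem_right _ _ (Ideal.mem_span_singleton_self _)

end


end Pool.Agent.PT
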