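import Pool.Agent.Lib_helper82.PT.AlgBase2
import Pool.Agent.Lib_helper82.PT.P.A2b

set_option autoImplicit false

open Polynomial
open scoped IntermediateField IntermediateField.algebraAdjoinAdjoin

namespace Pool.Agent.PT

variable {K : Type} [Field K] [Algebra ℂ K] {x : K}

theorem a4_poly (a : K) (ha : a ∈ Algebra.adjoin ℂ {x}) : ∃ q : ℂ[X], aeval x q = a := by
  rw [Algebra.adjoin_singleton_eq_range_aeval] at ha
  exact ha

theorem a4_aeval_mem (q : ℂ[X]) : aeval x q ∈ IntOver x := by
  have h : Algebra.adjoin ℂ {x} ≤ IntOver x := by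
    apply Algebra.adjoin_le
    intro z hz
    rw [Set.mem_singleton_iff.1 hz]
    exact self_mem x
  exact h (Polynomial.aeval_mem_adjoin_singleton _ _)

theorem local_kd {L : Type} [Field L] [Algebra ℂ L] [Algebra K L] [IsScalarTower ℂ K L]
    (δ : Derivation ℂ K L) (hx : Transcendental ℂ x) [FiniteDimensional ℂ⟮x⟯ K] {w : K}
    (hw : CoD x w) (χ : IntOver x →ₐ[ℂ] ℂ) (f : IntOver x) (hf : χ f = 0)
    (hgen : IntermediateField.adjoin ℂ⟮x⟯ {(f : K)} = ⊤) (p : ℂ[X]) (hp : aeval x p = nm x f)
    (hp' : p.derivative.eval (χ ⟨x, self_mem x⟩) ≠ 0) :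
    ∃ s : IntOver x, χ s ≠ 0 ∧ IsKd δ x (((s : K) * w) • δ x) := by
  classical
  have hpid := pid x hx
  have hAf : IsIntegral (Algebra.adjoin ℂ {x}) (f : K) := mem_intOver.1 f.2
  have hKf : IsIntegral ℂ⟮x⟯ (f : K) := Algebra.IsIntegral.isIntegral _
  have hgen' : Algebra.adjoin ℂ⟮x⟯ {(f : K)} = ⊤ := by
    have h := congrArg IntermediateField.toSubalgebra hgen
    rwa [IntermediateField.adjoin_simple_toSubalgebra_of_isAlgebraic hKf.isAlgebraic,
      IntermediateField.top_toSubalgebra] at h
  set G := minpoly (Algebra.adjoin ℂ {x}) (f : K) with hG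
  have hGmap : minpoly ℂ⟮x⟯ (f : K) = G.map (algebraMap (Algebra.adjoin ℂ {x}) ℂ⟮x⟯) :=
    minpoly.isIntegrallyClosed_eq_field_fractions' ℂ⟮x⟯ hAf
  -- coefficients
  have hco : ∀ k, ∃ q : ℂ[X], aeval x q = ((G.coeff k : Algebra.adjoin ℂ {x}) : K) := fun k =>
    a4_poly _ (G.coeff k).2
  choose g hg using hco
  set H : K[X] := G.map (algebraMap (Algebra.adjoin ℂ {x}) K) with hH
  have hHco : ∀ k, H.coeff k = aeval x (g k) := by
    intro k
    rw [hH, coeff_map, hg]
    rfl
  have hH0 : H.eval (f : K) = 0 := by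
    rw [hH, eval_map_algebraMap]
    exact minpoly.aeval _ _
  set n := H.natDegree + 1 with hn
  have hsum : ∑ k ∈ Finset.range n, aeval x (g k) * (f : K) ^ k = 0 := by
    rw [← hH0, eval_eq_sum_range]
    exact Finset.sum_congr rfl fun k _ => by rw [hHco]
  have hder : H.derivative.eval (f : K) =
      ∑ k ∈ Finset.range n, aeval x (g k) * ((k : K) * (f : K) ^ (k - 1)) := by
    rw [derivative_eval, sum_over_range]
    · exact Finset.sum_congr rfl fun k _ => by rw [hHco]; ring
    · intro m; simp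
  -- w G'(f) in A
  have hwG : w * H.derivative.eval (f : K) ∈ IntOver x := by
    have hdual : w ∈ (Algebra.traceForm ℂ⟮x⟯ K).dualSubmodule
        (Subalgebra.toSubmodule (Algebra.adjoin (Algebra.adjoin ℂ {x}) {(f : K)})) := by
      rw [LinearMap.BilinForm.mem_dualSubmodule]
      intro y hy
      have hyI : y ∈ IntOver x := by
        have : Algebra.adjoin (Algebra.adjoin ℂ {x}) {(f : K)} ≤
            integralClosure (Algebra.adjoin ℂ {x}) K := by
          apply Algebra.adjoin_le
          intro z hz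
          rw [Set.mem_singleton_iff.1 hz]
          exact f.2
        exact this hy
      have h1 := hw y hyI
      rw [Submodule.mem_one]
      refine ⟨⟨_, h1⟩, ?_⟩
      apply (algebraMap ℂ⟮x⟯ K).injective
      rw [Algebra.traceForm_apply]
      rfl
    rw [traceForm_dualSubmodule_adjoin (Algebra.adjoin ℂ {x}) ℂ⟮x⟯ hgen' hAf] at hdual
    obtain ⟨y, hy, hyw⟩ := hdual
    have hne : aeval (f : K) (derivative (minpoly ℂ⟮x⟯ (f : K))) ≠ 0 :=
      (Algebra.IsSeparable.isSeparable ℂ⟮x⟯ (f : K)).aeval_derivative_ne_zero (minpoly.aeval _ _)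
    have he : aeval (f : K) (derivative (minpoly ℂ⟮x⟯ (f : K))) = H.derivative.eval (f : K) := by
      rw [hGmap, derivative_map, aeval_map_algebraMap, hH, derivative_map, eval_map_algebraMap]
    have hyI : y ∈ IntOver x := by
      have : Algebra.adjoin (Algebra.adjoin ℂ {x}) {(f : K)} ≤
          integralClosure (Algebra.adjoin ℂ {x}) K := by
        apply Algebra.adjoin_le
        intro z hz
        rw [Set.mem_singleton_iff.1 hz]
        exact f.2
      exact this hy
    have h2 : w * H.derivative.eval (f : K) = y := by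
      rw [← he, ← hyw]
      simp only [DistribSMul.toLinearMap_apply, smul_eq_mul]
      field_simp
    rw [h2]; exact hyI
  -- g 0 = ± p
  have hpm : ∃ e : ℂ, e ≠ 0 ∧ g 0 = C e * p := by
    let pb := (Algebra.adjoin.powerBasis' hKf).map
      ((Subalgebra.equivOfEq _ _ hgen').trans (Subalgebra.topEquiv))
    have pbgen : pb.gen = (f : K) := by simp [pb]
    have h1 := Algebra.PowerBasis.norm_gen_eq_coeff_zero_minpoly pb
    rw [pbgen] at h1
    have h2 : nm x (f : K) = (-1) ^ pb.dim * aeval x (g 0) := by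
      unfold nm
      rw [h1, map_mul, map_pow, map_neg, map_one, hGmap, coeff_map, hg]
      rfl
    refine ⟨(-1) ^ pb.dim, pow_ne_zero _ (by norm_num), ?_⟩
    have h3 : aeval x (g 0 - C ((-1 : ℂ) ^ pb.dim) * p) = 0 := by
      rw [map_sub, map_mul, aeval_C, map_pow, map_neg, map_one, hp, h2, ← mul_assoc, ← mul_pow]
      simp
    have h4 := (transcendental_iff.1 hx) _ h3
    exact sub_eq_zero.1 h4
  -- s
  have hsmem : ∑ k ∈ Finset.range n, aeval x (derivative (g k)) * (f : K) ^ k ∈ IntOver x :=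
    sum_mem fun k _ => mul_mem (a4_aeval_mem _) (pow_mem f.2 k)
  refine ⟨⟨_, hsmem⟩, ?_, ?_⟩
  · have h1 : (⟨_, hsmem⟩ : IntOver x) =
        ∑ k ∈ Finset.range n, (⟨_, a4_aeval_mem (derivative (g k))⟩ : IntOver x) * f ^ k := by
      apply Subtype.ext
      simp
    rw [h1, map_sum]
    rw [Finset.sum_eq_single 0]
    · rw [pow_zero, mul_one]
      have h2 : (⟨_, a4_aeval_mem (derivative (g 0))⟩ : IntOver x) =
          aeval (⟨x, self_mem x⟩ : IntOver x) (derivative (g 0)) := by
        apply Subtype.ext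
        exact (Polynomial.aeval_algHom_apply (IntOver x).val ⟨x, self_mem x⟩ (derivative (g 0)))
      rw [h2, ← aeval_algHom_apply]
      obtain ⟨e, he, hge⟩ := hpm
      rw [hge, derivative_C_mul, coe_aeval_eq_eval, eval_mul, eval_C]
      exact mul_ne_zero he hp'
    · intro k _ hk
      rw [map_mul, map_pow, hf, zero_pow hk, mul_zero]
    · intro h
      exact absurd (Finset.mem_range.2 (by omega)) h
  · refine ⟨1, fun _ => -(w * H.derivative.eval (f : K)), fun _ => (f : K),
      fun _ => ⟨neg_mem hwG, f.2⟩, ?_⟩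
    rw [Fin.sum_univ_one]
    have h1 := congrArg δ hsum
    rw [map_sum, map_zero] at h1
    have h2 : ∀ k ∈ Finset.range n, δ (aeval x (g k) * (f : K) ^ k) =
        (aeval x (derivative (g k)) * (f : K) ^ k) • δ x +
        (aeval x (g k) * ((k : K) * (f : K) ^ (k - 1))) • δ (f : K) := by
      intro k _
      rw [δ.leibniz, Derivation.map_aeval, Derivation.leibniz_pow]
      rw [← Nat.cast_smul_eq_nsmul K, smul_smul, smul_smul, smul_smul, add_comm]
      congr 2 <;> ring
    rw [Finset.sum_congr rfl h2, Finset.sum_add_distrib, ← Finset.sum_smul, ← Finset.sum_smul,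
      ← hder] at h1
    have h3 := eq_neg_of_add_eq_zero_left h1
    change ((∑ k ∈ Finset.range n, aeval x (derivative (g k)) * (f : K) ^ k) * w) • δ x =
      (-(w * H.derivative.eval (f : K))) • δ (f : K)
    rw [mul_comm _ w, mul_smul, h3, smul_neg, neg_smul, mul_smul]


end Pool.Agent.PT
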