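import Pool.Agent.Lib_helper82.PT.P.A3a
import Pool.Agent.Lib_helper82.PT.P.A3b

set_option autoImplicit false

open Polynomial
open scoped IntermediateField IntermediateField.algebraAdjoinAdjoin

namespace Pool.Agent.PT

variable {K : Type} [Field K] [Algebra ℂ K] {x : K}

theorem good_fun (hx : Transcendental ℂ x) [FiniteDimensional ℂ⟮x⟯ K] (χ : IntOver x →ₐ[ℂ] ℂ) :
    ∃ f : IntOver x, χ f = 0 ∧ IntermediateField.adjoin ℂ⟮x⟯ {(f : K)} = ⊤ ∧
      ∃ p : ℂ[X], aeval x p = nm x f ∧ p.eval (χ ⟨x, self_mem x⟩) = 0 ∧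
        p.derivative.eval (χ ⟨x, self_mem x⟩) ≠ 0 := by
  obtain ⟨f, h1, h2, h3, h4⟩ := good_fun1 hx χ
  exact ⟨f, h1, h4, norm_simple hx χ f h1 h2 h3⟩

end Pool.Agent.PT
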