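import Pool.Agent.Lib_helper82.PT.AlgBase2
import Pool.Agent.Lib_helper82.PT.P.A2a
import Pool.Agent.Lib_helper82.PT.P.A4
import Pool.Agent.Lib_helper82.PT.P.GF

set_option autoImplicit false

open Polynomial
open scoped IntermediateField IntermediateField.algebraAdjoinAdjoin

namespace Pool.Agent.PT

section a5

variable {K : Type} [Field K] [Algebra ℂ K] {x : K}
variable {L : Type} [Field L] [Algebra ℂ L] [Algebra K L] [IsScalarTower ℂ K L]

private theorem a5_zero (δ : Derivation ℂ K L) : IsKd δ x 0 :=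
  ⟨0, fun _ => 0, fun _ => 0, fun i => i.elim0, by simp⟩

private theorem a5_add (δ : Derivation ℂ K L) {l l' : L} (h : IsKd δ x l) (h' : IsKd δ x l') :
    IsKd δ x (l + l') := by
  obtain ⟨n, b, y, hb, rfl⟩ := h
  obtain ⟨m, b', y', hb', rfl⟩ := h'
  refine ⟨n + m, Fin.append b b', Fin.append y y', ?_, ?_⟩
  · intro i
    refine Fin.addCases (fun j => ?_) (fun j => ?_) i
    · simpa only [Fin.append_left] using hb j
    · simpa only [Fin.append_right] using hb' j
  · rw [Fin.sum_univ_add]
    simp only [Fin.append_left, Fin.append_right]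

private theorem a5_smul (δ : Derivation ℂ K L) {l : L} (h : IsKd δ x l) {r : K}
    (hr : r ∈ IntOver x) : IsKd δ x (r • l) := by
  obtain ⟨n, b, y, hb, rfl⟩ := h
  refine ⟨n, fun i => r * b i, y, fun i => ⟨mul_mem hr (hb i).1, (hb i).2⟩, ?_⟩
  rw [Finset.smul_sum]
  exact Finset.sum_congr rfl fun i _ => by rw [mul_smul]

/-- the elements `s` of `A` with `IsKd δ x ((s w) • δ x)` -/
private def a5_ideal (δ : Derivation ℂ K L) (w : K) : Ideal (IntOver x) where
  carrier := {s | IsKd δ x (((s : K) * w) • δ x)}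
  add_mem' := by
    intro a b ha hb
    have h := a5_add δ ha hb
    rw [← add_smul, ← add_mul] at h
    exact h
  zero_mem' := by
    have h := a5_zero (x := x) δ
    have h0 : (((0 : IntOver x) : K) * w) • δ x = 0 := by simp
    show IsKd δ x ((((0 : IntOver x) : K) * w) • δ x)
    rw [h0]
    exact h
  smul_mem' := by
    intro r s hs
    have h := a5_smul δ hs r.2
    rw [← mul_smul, ← mul_assoc] at h
    exact h

end a5

/-- A5 -/
theorem cod_kd {K : Type} [Field K] [Algebra ℂ K] {x : K}
    {L : Type} [Field L] [Algebra ℂ L] [Algebra K L] [IsScalarTower ℂ K L]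
    (δ : Derivation ℂ K L) (hx : Transcendental ℂ x) [FiniteDimensional ℂ⟮x⟯ K] {w : K}
    (hw : CoD x w) : IsKd δ x (w • δ x) := by
  have htop : a5_ideal (x := x) δ w = ⊤ := by
    by_contra hne
    obtain ⟨χ, hχ⟩ := exists_char hx (a5_ideal (x := x) δ w) hne
    obtain ⟨f, h1, h2, p, h3, _, h5⟩ := good_fun hx χ
    obtain ⟨s, hs1, hs2⟩ := local_kd δ hx hw χ f h1 h2 p h3 h5
    exact hs1 (hχ s hs2)
  have h1 : (1 : IntOver x) ∈ a5_ideal (x := x) δ w := by
    rw [htop]
    exact Submodule.mem_top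
  have h2 : IsKd δ x ((((1 : IntOver x) : K) * w) • δ x) := h1
  have h3 : ((1 : IntOver x) : K) * w = w := by simp
  rw [h3] at h2
  exact h2

end Pool.Agent.PT

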