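import Pool.Agent.Lib_helper82.PT.AlgBase2

/-! # Block A6a: functionals are traces -/

set_option autoImplicit false

open Polynomial
open scoped IntermediateField IntermediateField.algebraAdjoinAdjoin nonZeroDivisors

namespace Pool.Agent.PT

variable {K : Type} [Field K] [Algebra ℂ K] {x : K}

theorem trace_rep (hx : Transcendental ℂ x) [FiniteDimensional ℂ⟮x⟯ K] (T : K → K)
    (hadd : ∀ a ∈ IntOver x, ∀ b ∈ IntOver x, T (a + b) = T a + T b)
    (hmul : ∀ (p : ℂ[X]), ∀ a ∈ IntOver x, T (aeval x p * a) = aeval x p * T a)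
    (hT : ∀ a ∈ IntOver x, T a ∈ Algebra.adjoin ℂ {x}) :
    ∃ w : K, ∀ a ∈ IntOver x, T a = tr x (w * a) := by
  have h1 := pid x hx
  have h2 := fini x hx
  have h3 := free x hx
  have h4 := frac x hx
  let R := Algebra.adjoin ℂ {x}
  let A := integralClosure R K
  have h5 : IsLocalization (Algebra.algebraMapSubmonoid A R⁰) K :=
    IsIntegralClosure.isLocalization R ℂ⟮x⟯ K A
  let b := Module.Free.chooseBasis R A
  let b' := b.localizationLocalization ℂ⟮x⟯ R⁰ K
  -- the functional on the integral elements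
  let T' : A →ₗ[R] R :=
    { toFun := fun a => ⟨T a, hT a a.2⟩
      map_add' := fun a c => Subtype.ext (hadd a a.2 c c.2)
      map_smul' := fun r a => by
        apply Subtype.ext
        have h6 : (r : K) ∈ Algebra.adjoin ℂ {x} := r.2
        rw [Algebra.adjoin_singleton_eq_range_aeval] at h6
        obtain ⟨p, hp⟩ := h6
        have hp' : aeval x p = (r : K) := hp
        have h7 := hmul p a a.2
        rw [hp'] at h7
        exact h7 }
  let L : K →ₗ[ℂ⟮x⟯] ℂ⟮x⟯ := b'.constr ℂ⟮x⟯ (fun i => algebraMap R ℂ⟮x⟯ (T' (b i)))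
  have hL : ∀ a : A, L (algebraMap A K a) = algebraMap R ℂ⟮x⟯ (T' a) := by
    let f₁ : A →ₗ[R] ℂ⟮x⟯ := (L.restrictScalars R) ∘ₗ ((Algebra.linearMap A K).restrictScalars R)
    let f₂ : A →ₗ[R] ℂ⟮x⟯ := (Algebra.linearMap R ℂ⟮x⟯) ∘ₗ T'
    have h6 : f₁ = f₂ := by
      refine b.ext fun i => ?_
      show L (algebraMap A K (b i)) = algebraMap R ℂ⟮x⟯ (T' (b i))
      have h7 : algebraMap A K (b i) = b' i :=
        (Module.Basis.localizationLocalization_apply ℂ⟮x⟯ R⁰ K b i).symm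
      rw [h7]
      exact b'.constr_basis ℂ⟮x⟯ _ i
    intro a
    exact congrArg (fun f : A →ₗ[R] ℂ⟮x⟯ => f a) h6
  have hnd : (Algebra.traceForm ℂ⟮x⟯ K).Nondegenerate := traceForm_nondegenerate ℂ⟮x⟯ K
  refine ⟨((Algebra.traceForm ℂ⟮x⟯ K).toDual hnd).symm L, fun a ha => ?_⟩
  have h6 : (Algebra.traceForm ℂ⟮x⟯ K) (((Algebra.traceForm ℂ⟮x⟯ K).toDual hnd).symm L) a = L a :=
    LinearMap.BilinForm.apply_toDual_symm_apply L a
  have h7 := hL ⟨a, ha⟩
  unfold tr
  rw [Algebra.traceForm_apply] at h6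
  rw [h6]
  have h8 : L a = algebraMap R ℂ⟮x⟯ (T' ⟨a, ha⟩) := h7
  rw [h8]
  rfl


end Pool.Agent.PT
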