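import Pool.Agent.Lib_helper82.PT.AlgBase2
import Pool.Agent.Lib_helper82.PT.P.A1
import Pool.Agent.Lib_helper82.PT.P.A6a

/-! # PT, block A6b: duality -/

set_option autoImplicit false

open Polynomial
open scoped IntermediateField IntermediateField.algebraAdjoinAdjoin

namespace Pool.Agent.PT

variable {K : Type} [Field K] [Algebra ℂ K] {x : K}

/-- the trace is linear for powers of `x` -/
theorem a6_tr_pow (x g : K) (m : ℕ) : tr x (x ^ m * g) = x ^ m * tr x g := by
  have hx : x ∈ ℂ⟮x⟯ := IntermediateField.mem_adjoin_simple_self ℂ x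
  have h1 : x ^ m * g = (⟨x, hx⟩ : ℂ⟮x⟯) ^ m • g := by
    rw [Algebra.smul_def, map_pow]
    rfl
  rw [tr, tr, h1, map_smul, smul_eq_mul, map_mul, map_pow]
  rfl

theorem a6_inv_tr (hx : Transcendental ℂ x) : Transcendental ℂ x⁻¹ := fun h => hx (by
  have := h.inv
  rwa [inv_inv] at this)

theorem a6_ne (hx : Transcendental ℂ x) : x ≠ 0 := by
  rintro rfl
  exact hx isAlgebraic_zero

theorem a6_aeval_mem (x : K) (p : ℂ[X]) : aeval x p ∈ Algebra.adjoin ℂ {x} := by
  rw [Algebra.adjoin_singleton_eq_range_aeval]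
  exact ⟨p, rfl⟩

theorem a6_aeval_int (x : K) (p : ℂ[X]) : aeval x p ∈ IntOver x := by
  have h1 : ∀ y ∈ Algebra.adjoin ℂ {x}, y ∈ IntOver x := fun y hy =>
    mem_intOver.2 (isIntegral_algebraMap (R := Algebra.adjoin ℂ {x}) (x := ⟨y, hy⟩))
  exact h1 _ (a6_aeval_mem x p)

/-- the coefficients of `T g` -/
theorem a6_coeff (hx : Transcendental ℂ x) (l : K →ₗ[ℂ] ℂ) (hlB : ∀ b ∈ IntOver x⁻¹, l b = 0) :
    ∃ Q : K → ℂ[X], ∀ a ∈ IntOver x, ∀ j : ℕ, (Q a).coeff j = l (x⁻¹ ^ (j + 1) * a) := by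
  classical
  have h1 : ∀ a ∈ IntOver x, ∃ q : ℂ[X], ∀ j : ℕ, q.coeff j = l (x⁻¹ ^ (j + 1) * a) := by
    intro a ha
    obtain ⟨N, hN⟩ := pole_bd hx ha
    refine ⟨∑ j ∈ Finset.range N, monomial j (l (x⁻¹ ^ (j + 1) * a)), fun j => ?_⟩
    rw [finsetSum_coeff]
    simp only [coeff_monomial]
    rw [Finset.sum_ite_eq']
    split_ifs with h
    · rfl
    · rw [Finset.mem_range, not_lt] at h
      exact (hlB _ (hN (j + 1) (by omega))).symm
  refine ⟨fun a => if h : a ∈ IntOver x then (h1 a h).choose else 0, fun a ha j => ?_⟩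
  simp only [ha, dif_pos]
  exact (h1 a ha).choose_spec j

/-- Block A6b -/
theorem duality (hx : Transcendental ℂ x) [FiniteDimensional ℂ⟮x⟯ K] {f : K}
    (hf : ∃ N : ℕ, x ^ N * f ∈ IntOver x)
    (hne : ∀ a ∈ IntOver x, ∀ b ∈ IntOver x⁻¹, f ≠ a + b) :
    ∃ w : K, w ≠ 0 ∧ CoD x w ∧
      ∀ b ∈ IntOver x⁻¹, tr x (x ^ 2 * w * b) ∈ Algebra.adjoin ℂ {x⁻¹} := by
  have hx0 : x ≠ 0 := a6_ne hx
  -- the functional
  obtain ⟨l, hlf, hlA, hlB⟩ : ∃ l : K →ₗ[ℂ] ℂ, l f ≠ 0 ∧ (∀ a ∈ IntOver x, l a = 0) ∧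
      ∀ b ∈ IntOver x⁻¹, l b = 0 := by
    have h1 : f ∉ Subalgebra.toSubmodule (IntOver x) ⊔ Subalgebra.toSubmodule (IntOver x⁻¹) := by
      intro h
      obtain ⟨a, ha, b, hb, hab⟩ := Submodule.mem_sup.1 h
      exact hne a ha b hb hab.symm
    obtain ⟨l, hl, hl'⟩ := Submodule.exists_dual_map_eq_bot_of_notMem h1 inferInstance
    have h2 : ∀ y ∈ Subalgebra.toSubmodule (IntOver x) ⊔ Subalgebra.toSubmodule (IntOver x⁻¹),
        l y = 0 := by
      intro y hy
      have h3 := Submodule.mem_map_of_mem (f := l) hy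
      rw [hl'] at h3
      exact (Submodule.mem_bot ℂ).1 h3
    refine ⟨l, hl, fun a ha => ?_, fun b hb => ?_⟩
    · exact h2 a (Submodule.mem_sup_left (S := Subalgebra.toSubmodule (IntOver x)) ha)
    · exact h2 b (Submodule.mem_sup_right (T := Subalgebra.toSubmodule (IntOver x⁻¹)) hb)
  obtain ⟨Q, hQ⟩ := a6_coeff hx l hlB
  have hQadd : ∀ a ∈ IntOver x, ∀ b ∈ IntOver x, Q (a + b) = Q a + Q b := by
    intro a ha b hb
    ext j
    rw [coeff_add, hQ a ha, hQ b hb, hQ _ (add_mem ha hb), mul_add, map_add]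
  have hQC : ∀ (c : ℂ), ∀ a ∈ IntOver x, Q (algebraMap ℂ K c * a) = C c * Q a := by
    intro c a ha
    ext j
    have h1 : algebraMap ℂ K c * a ∈ IntOver x :=
      mul_mem (Subalgebra.algebraMap_mem _ c) ha
    rw [coeff_C_mul, hQ a ha, hQ _ h1]
    have h2 : x⁻¹ ^ (j + 1) * (algebraMap ℂ K c * a) = c • (x⁻¹ ^ (j + 1) * a) := by
      rw [Algebra.smul_def]
      ring
    rw [h2, map_smul, smul_eq_mul]
  have hQX : ∀ a ∈ IntOver x, Q (x * a) = X * Q a := by
    intro a ha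
    ext j
    have h1 : x * a ∈ IntOver x := mul_mem (self_mem x) ha
    rw [hQ _ h1]
    cases j with
    | zero =>
      rw [mul_coeff_zero, coeff_X_zero, zero_mul, zero_add, pow_one, ← mul_assoc,
        inv_mul_cancel₀ hx0, one_mul]
      exact hlA a ha
    | succ j =>
      rw [coeff_X_mul, hQ a ha]
      congr 1
      rw [pow_succ x⁻¹ (j + 1), mul_assoc, ← mul_assoc x⁻¹ x a, inv_mul_cancel₀ hx0, one_mul]
  have hQmul : ∀ (p : ℂ[X]), ∀ a ∈ IntOver x, Q (aeval x p * a) = p * Q a := by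
    intro p
    induction p using Polynomial.induction_on' with
    | add p q hp hq =>
      intro a ha
      rw [map_add, add_mul, hQadd _ (mul_mem (a6_aeval_int x p) ha) _
        (mul_mem (a6_aeval_int x q) ha), hp a ha, hq a ha, add_mul]
    | monomial m c =>
      intro a ha
      induction m with
      | zero =>
        rw [aeval_monomial, pow_zero, mul_one, hQC c a ha, monomial_zero_left]
      | succ m ih =>
        have h1 : aeval x (monomial (m + 1) c) * a = x * (aeval x (monomial m c) * a) := by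
          rw [aeval_monomial, aeval_monomial, pow_succ]
          ring
        rw [h1, hQX _ (mul_mem (a6_aeval_int x _) ha), ih, ← mul_assoc, X_mul_monomial]
  obtain ⟨w, hw⟩ := trace_rep hx (fun a => aeval x (Q a))
    (fun a ha b hb => by
      show aeval x (Q (a + b)) = aeval x (Q a) + aeval x (Q b)
      rw [hQadd a ha b hb, map_add])
    (fun p a ha => by
      show aeval x (Q (aeval x p * a)) = aeval x p * aeval x (Q a)
      rw [hQmul p a ha, map_mul])
    (fun a _ => a6_aeval_mem x _)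
  refine ⟨w, ?_, ?_, ?_⟩
  · -- `w ≠ 0`
    rintro rfl
    obtain ⟨N, hN⟩ := hf
    have h1 : x ^ (N + 1) * f ∈ IntOver x := by
      rw [pow_succ', mul_assoc]
      exact mul_mem (self_mem x) hN
    have h2 := hw _ h1
    have h3 : tr x (0 * (x ^ (N + 1) * f)) = 0 := by
      rw [zero_mul, tr, map_zero, map_zero]
    have h4 : aeval x (Q (x ^ (N + 1) * f)) = 0 := h2.trans h3
    have h5 : Q (x ^ (N + 1) * f) = 0 :=
      (transcendental_iff.1 hx) _ h4
    have h6 := hQ _ h1 N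
    rw [h5, coeff_zero, ← mul_assoc, inv_pow, inv_mul_cancel₀ (pow_ne_zero _ hx0), one_mul] at h6
    exact hlf h6.symm
  · intro a ha
    rw [← hw a ha]
    exact a6_aeval_mem x _
  · intro b hb
    obtain ⟨N, hN⟩ := pole_bd (a6_inv_tr hx) hb
    rw [inv_inv] at hN
    have ha : x ^ (N + 2) * b ∈ IntOver x := hN _ (by omega)
    have h1 := hw _ ha
    have hdeg : (Q (x ^ (N + 2) * b)).natDegree ≤ N := by
      rw [natDegree_le_iff_coeff_eq_zero]
      intro j hj
      rw [hQ _ ha]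
      obtain ⟨m, rfl⟩ : ∃ m, j = N + 1 + m := ⟨j - (N + 1), by omega⟩
      have h2 : x⁻¹ ^ (N + 1 + m + 1) * (x ^ (N + 2) * b) = x⁻¹ ^ m * b := by
        have h3 : N + 1 + m + 1 = m + (N + 2) := by omega
        rw [h3, pow_add, mul_assoc, ← mul_assoc (x⁻¹ ^ (N + 2)), inv_pow x (N + 2),
          inv_mul_cancel₀ (pow_ne_zero _ hx0), one_mul]
      rw [h2]
      exact hlB _ (mul_mem (pow_mem (self_mem x⁻¹) m) hb)
    have h2 : x ^ N * tr x (x ^ 2 * w * b) = aeval x (Q (x ^ (N + 2) * b)) := by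
      rw [h1, ← a6_tr_pow]
      congr 1
      ring
    have h3 : tr x (x ^ 2 * w * b) =
        ∑ j ∈ Finset.range (N + 1), (Q (x ^ (N + 2) * b)).coeff j • x⁻¹ ^ (N - j) := by
      apply mul_left_cancel₀ (pow_ne_zero N hx0)
      rw [h2, aeval_eq_sum_range' (Nat.lt_succ_of_le hdeg), Finset.mul_sum]
      refine Finset.sum_congr rfl fun j hj => ?_
      have hj' : j ≤ N := Nat.lt_succ_iff.1 (Finset.mem_range.1 hj)
      obtain ⟨m, rfl⟩ := Nat.exists_eq_add_of_le hj'
      have h4 : x ^ (j + m) * x⁻¹ ^ m = x ^ j := by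
        rw [pow_add, mul_assoc, inv_pow, mul_inv_cancel₀ (pow_ne_zero _ hx0), mul_one]
      rw [Nat.add_sub_cancel_left, mul_smul_comm, h4]
    rw [h3]
    refine sum_mem fun j _ => Subalgebra.smul_mem _ (pow_mem ?_ _) _
    exact Algebra.self_mem_adjoin_singleton ℂ x⁻¹


end Pool.Agent.PT
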