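import Pool.Agent.Lib_helper82.PT.AlgBase2
import Pool.Agent.Lib_helper82.PT.P.A1
import Pool.Agent.Lib_helper82.PT.P.A2a

set_option autoImplicit false

open Polynomial
open scoped IntermediateField IntermediateField.algebraAdjoinAdjoin nonZeroDivisors

namespace Pool.Agent.PT

variable {K : Type} [Field K] [Algebra ℂ K] {x : K}

private theorem a7_adj (x : K) : ℂ⟮x⁻¹⟯ = ℂ⟮x⟯ := by
  apply le_antisymm
  · rw [IntermediateField.adjoin_simple_le_iff]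
    exact inv_mem (IntermediateField.mem_adjoin_simple_self ℂ x)
  · rw [IntermediateField.adjoin_simple_le_iff]
    have h := inv_mem (IntermediateField.mem_adjoin_simple_self ℂ x⁻¹)
    rwa [inv_inv] at h

theorem gz_fun (hx : Transcendental ℂ x) [FiniteDimensional ℂ⟮x⟯ K]
    (h : ∀ f : K, (∃ N : ℕ, x ^ N * f ∈ IntOver x) →
      ∃ a ∈ IntOver x, ∃ b ∈ IntOver x⁻¹, f = a + b) :
    ∃ (χ₀ : IntOver x⁻¹ →ₐ[ℂ] ℂ) (t : K), χ₀ ⟨x⁻¹, self_mem x⁻¹⟩ = 0 ∧ t ∈ IntOver x ∧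
      t ∉ IntOver x⁻¹ ∧ ∀ b : IntOver x⁻¹, χ₀ b = 0 → t * b ∈ IntOver x⁻¹ := by
  have hx' : Transcendental ℂ x⁻¹ := by
    rw [Transcendental, IsAlgebraic.inv_iff]
    exact hx
  have hfd : FiniteDimensional ℂ⟮x⁻¹⟯ K := by
    rw [a7_adj x]
    infer_instance
  have h1 : IsDedekindDomain (IntOver x⁻¹) := ded x⁻¹ hx'
  have h2 : IsFractionRing (IntOver x⁻¹) K := frac x⁻¹ hx'
  have hx0 : x⁻¹ ≠ 0 := by
    intro h0
    rw [h0] at hx'
    exact hx' isAlgebraic_zero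
  obtain ⟨χ, hχ⟩ := exists_char_val hx' 0
  let P : Ideal (IntOver x⁻¹) := RingHom.ker χ
  have hzP : (⟨x⁻¹, self_mem x⁻¹⟩ : IntOver x⁻¹) ∈ P := hχ
  have hP0 : P ≠ ⊥ := by
    intro h0
    rw [h0, Ideal.mem_bot] at hzP
    exact hx0 (congrArg (fun w : IntOver x⁻¹ => (w : K)) hzP)
  have hP1 : P ≠ ⊤ := RingHom.ker_ne_top χ
  obtain ⟨g, hg, hg1⟩ := FractionalIdeal.exists_notMem_one_of_ne_bot
    (K := K) hP0 hP1
  have hPf : (P : FractionalIdeal (IntOver x⁻¹)⁰ K) ≠ 0 :=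
    FractionalIdeal.coeIdeal_ne_zero.2 hP0
  rw [FractionalIdeal.mem_inv_iff hPf] at hg
  have hmem : ∀ z : K, z ∈ (1 : FractionalIdeal (IntOver x⁻¹)⁰ K) ↔ z ∈ IntOver x⁻¹ := by
    intro z
    rw [FractionalIdeal.mem_one_iff]
    constructor
    · rintro ⟨w, rfl⟩
      exact w.2
    · intro hz
      exact ⟨⟨z, hz⟩, rfl⟩
  have hgP : ∀ b : IntOver x⁻¹, χ b = 0 → g * b ∈ IntOver x⁻¹ := by
    intro b hb
    rw [← hmem]
    exact hg _ ((FractionalIdeal.mem_coeIdeal _).2 ⟨b, hb, rfl⟩)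
  have hgn : g ∉ IntOver x⁻¹ := fun h0 => hg1 ((hmem g).2 h0)
  have hb : g * x⁻¹ ∈ IntOver x⁻¹ := hgP ⟨x⁻¹, self_mem x⁻¹⟩ hχ
  obtain ⟨N, hN⟩ := pole_bd hx' hb
  have hN' := hN (N + 1) (by omega)
  rw [inv_inv] at hN'
  have hxx : x ≠ 0 := fun h0 => hx0 (by rw [h0, inv_zero])
  have he : x ^ (N + 1) * (g * x⁻¹) = x ^ N * g := by
    field_simp
    try ring
  rw [he] at hN'
  obtain ⟨t, ht, b', hb', hgt⟩ := h g ⟨N, hN'⟩
  refine ⟨χ, t, hχ, ht, ?_, ?_⟩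
  · intro h0
    apply hgn
    rw [hgt]
    exact add_mem h0 hb'
  · intro b hb0
    have h3 := sub_mem (hgP b hb0) (mul_mem hb' b.2)
    have h4 : g * b - b' * b = t * b := by rw [hgt]; ring
    rwa [h4] at h3

end Pool.Agent.PT

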