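import Pool.Agent.Lib_helper82.PT.AlgBase2
import Pool.Agent.Lib_helper82.PT.P.A3b

set_option autoImplicit false

open Polynomial
open scoped IntermediateField IntermediateField.algebraAdjoinAdjoin

namespace Pool.Agent.PT

/-- abstract form: an element `s` with `(s u) P ≤ (s)`, then `N(s) ∣ N(s u) π` -/
theorem a8_main {R S : Type} [CommRing R] [CommRing S] [IsDedekindDomain R]
    [IsDedekindDomain S] [Algebra R S] [Module.Finite R S] [Module.IsTorsionFree R S]
    [PerfectField (FractionRing R)] (π : R) (P : Ideal S) [P.IsMaximal]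
    (hp : (Ideal.span {π}).IsMaximal) [P.LiesOver (Ideal.span {π})]
    (h1 : ∀ s : S, ∃ r : R, s - algebraMap R S r ∈ P) (s v : S)
    (hsv : ∀ b ∈ P, s ∣ v * b) :
    Algebra.intNorm R S s ∣ Algebra.intNorm R S v * π := by
  have h2 : Ideal.span {s} ∣ Ideal.span {v} * P := by
    rw [Ideal.dvd_iff_le, Ideal.span_singleton_mul_le_iff]
    intro b hb
    exact Ideal.mem_span_singleton.2 (hsv b hb)
  have h3 := map_dvd (Ideal.relNorm R) h2
  rw [map_mul, Ideal.relNorm_singleton, Ideal.relNorm_singleton,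
    a3_relNorm_one P (Ideal.span {π}) h1, Ideal.span_singleton_mul_span_singleton,
    Ideal.dvd_iff_le, Ideal.span_singleton_le_span_singleton] at h3
  exact h3

section

variable {K : Type} [Field K] [Algebra ℂ K] {x : K}

theorem a8_adj_inv (x : K) : ℂ⟮x⁻¹⟯ = ℂ⟮x⟯ := by
  apply le_antisymm
  · rw [IntermediateField.adjoin_simple_le_iff]
    exact inv_mem (IntermediateField.mem_adjoin_simple_self ℂ x)
  · rw [IntermediateField.adjoin_simple_le_iff]
    have := inv_mem (IntermediateField.mem_adjoin_simple_self ℂ x⁻¹)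
    rwa [inv_inv] at this

theorem a8_nm_inv (x f : K) : nm x⁻¹ f = nm x f := by
  have h : ∀ F G : IntermediateField ℂ K, F = G →
      algebraMap F K (Algebra.norm F f) = algebraMap G K (Algebra.norm G f) := by
    rintro F G rfl
    rfl
  exact h _ _ (a8_adj_inv x)

theorem a8_nm_mul (x f g : K) : nm x (f * g) = nm x f * nm x g := by
  unfold nm
  rw [map_mul, map_mul]

theorem a8_nm_ne (x : K) [FiniteDimensional ℂ⟮x⟯ K] {f : K} (hf : f ≠ 0) : nm x f ≠ 0 := by
  unfold nm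
  rw [ne_eq, map_eq_zero, Algebra.norm_eq_zero_iff]
  exact hf

/-- the norm of an integral element is a polynomial -/
theorem a8_nm_poly (hx : Transcendental ℂ x) [FiniteDimensional ℂ⟮x⟯ K] {f : K}
    (hf : f ∈ IntOver x) : ∃ p : ℂ[X], aeval x p = nm x f := by
  have hpid := pid x hx
  have hded := ded x hx
  have hfin := fini x hx
  have hfree := free x hx
  have h := a3_nm hx (⟨f, hf⟩ : integralClosure (Algebra.adjoin ℂ {x}) K)
  refine ⟨(Polynomial.algEquivOfTranscendental ℂ x hx).symm (Algebra.intNorm (Algebra.adjoin ℂ {x})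
      (integralClosure (Algebra.adjoin ℂ {x}) K) ⟨f, hf⟩), ?_⟩
  rw [← a3_e0_coe hx, AlgEquiv.apply_symm_apply]
  exact h.symm

theorem a8_fd_inv (x : K) [h : FiniteDimensional ℂ⟮x⟯ K] : FiniteDimensional ℂ⟮x⁻¹⟯ K := by
  rw [a8_adj_inv]
  exact h

theorem a8_inv_tr (hx : Transcendental ℂ x) : Transcendental ℂ x⁻¹ := fun h => hx (by
  have := h.inv
  rwa [inv_inv] at this)

/-- the degree bound -/
theorem a8_deg (hx : Transcendental ℂ x) {p v : ℂ[X]} (h : aeval x p * x⁻¹ = aeval x⁻¹ v) :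
    p.natDegree ≤ 1 := by
  have hx0 : x ≠ 0 := by
    rintro rfl
    exact hx (isAlgebraic_zero)
  letI : Invertible x⁻¹ := ⟨x, mul_inv_cancel₀ hx0, inv_mul_cancel₀ hx0⟩
  have h1 := Polynomial.eval₂_reverse_mul_pow (algebraMap ℂ K) x⁻¹ v
  have h2 : (⅟(x⁻¹) : K) = x := rfl
  rw [h2, ← aeval_def, ← aeval_def, ← h] at h1
  have h3 : aeval x (p * X ^ v.natDegree) = aeval x (v.reverse * X) := by
    simp only [map_mul, map_pow, aeval_X]
    have h5 : aeval x p = aeval x v.reverse * x⁻¹ ^ v.natDegree * x := by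
      rw [h1, mul_assoc, inv_mul_cancel₀ hx0, mul_one]
    rw [h5, inv_pow]
    have h6 : x ^ v.natDegree ≠ 0 := pow_ne_zero _ hx0
    field_simp
  have h4 := (transcendental_iff_injective.1 hx) h3
  by_cases hp : p = 0
  · simp [hp]
  have h5 := congrArg natDegree h4
  rw [natDegree_mul_X_pow (hp := hp)] at h5
  have h6 : (v.reverse * X).natDegree ≤ v.natDegree + 1 :=
    natDegree_mul_le.trans (add_le_add v.reverse_natDegree_le natDegree_X_le)
  omega

theorem gz_norm (hx : Transcendental ℂ x) [FiniteDimensional ℂ⟮x⟯ K]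
    (χ₀ : IntOver x⁻¹ →ₐ[ℂ] ℂ)
    {t : K} (h0 : χ₀ ⟨x⁻¹, self_mem x⁻¹⟩ = 0) (ht : t ∈ IntOver x)
    (hp : ∀ b : IntOver x⁻¹, χ₀ b = 0 → t * b ∈ IntOver x⁻¹) (c : ℂ) :
    ∃ p : ℂ[X], p.natDegree ≤ 1 ∧ aeval x p = nm x (algebraMap ℂ K c - t) := by
  have hxi := a8_inv_tr hx
  have hfd := a8_fd_inv x
  have hpid := pid x⁻¹ hxi
  have hded := ded x⁻¹ hxi
  have hfin := fini x⁻¹ hxi
  have hperf := a3_perfect hxi
  have hfree := free x⁻¹ hxi
  have hfrac := frac x⁻¹ hxi
  obtain ⟨hmax, hπ0, hlo, h1⟩ := a3_setup hxi χ₀ 0 h0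
  obtain ⟨p, hpn⟩ := a8_nm_poly hx (f := algebraMap ℂ K c - t)
    (sub_mem (Subalgebra.algebraMap_mem _ c) ht)
  refine ⟨p, ?_, hpn⟩
  set u : K := algebraMap ℂ K c - t with hu
  obtain ⟨v, s, hs, huv⟩ := IsFractionRing.div_surjective
    (A := integralClosure (Algebra.adjoin ℂ {x⁻¹}) K) u
  have hs0 : s ≠ 0 := nonZeroDivisors.ne_zero hs
  have hsK : (s : K) ≠ 0 := fun h => hs0 (Subtype.ext h)
  have huv2 : (v : K) = s * u := by
    rw [← huv]
    change (v : K) = (s : K) * ((v : K) / (s : K))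
    field_simp
  obtain ⟨w, hw⟩ := a8_main _ (a3_P χ₀) hmax h1 s v (by
    intro b hb
    rw [mem_a3_P] at hb
    have h5 : u * b ∈ IntOver x⁻¹ := by
      rw [hu, sub_mul]
      refine sub_mem ?_ (hp _ hb)
      exact mul_mem (Subalgebra.algebraMap_mem _ c) b.2
    refine ⟨⟨u * b, h5⟩, Subtype.ext ?_⟩
    change (v : K) * b = s * (u * b)
    rw [huv2]; ring)
  have h6 := congrArg (fun r : Algebra.adjoin ℂ {x⁻¹} => (r : K)) hw
  simp only [MulMemClass.coe_mul] at h6
  rw [← a3_nm hxi, ← a3_nm hxi, a3_e0_coe, huv2, a8_nm_mul] at h6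
  simp only [aeval_X, map_zero, sub_zero] at h6
  have h7 : nm x⁻¹ u * x⁻¹ = (w : K) := by
    have h8 := a8_nm_ne x⁻¹ hsK
    apply mul_left_cancel₀ h8
    rw [← mul_assoc]
    exact h6
  rw [a8_nm_inv, ← hpn] at h7
  refine a8_deg hx (v := (Polynomial.algEquivOfTranscendental ℂ x⁻¹ hxi).symm w) ?_
  rw [h7, ← a3_e0_coe hxi, AlgEquiv.apply_symm_apply]

end


end Pool.Agent.PT
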