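import Pool.Agent.Lib_helper82.PT.AlgBase2

/-! # PT, block A9 -/

set_option autoImplicit false

open Polynomial
open scoped IntermediateField IntermediateField.algebraAdjoinAdjoin

namespace Pool.Agent.PT

/-- the square of the norm of `c - t` -/
theorem a9_sq {k K : Type} [Field k] [Field K] [Algebra k K] [FiniteDimensional k K] [CharZero k]
    (t : K) (c : k) : (Algebra.norm k (algebraMap k K c - t)) ^ 2 =
      ((minpoly k t).eval c) ^ (2 * Module.finrank k⟮t⟯ K) := by
  have hs : k⟮t - algebraMap k K c⟯ = k⟮t⟯ := by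
    apply le_antisymm
    · rw [IntermediateField.adjoin_simple_le_iff]
      exact sub_mem (IntermediateField.mem_adjoin_simple_self k t)
        (IntermediateField.algebraMap_mem _ c)
    · rw [IntermediateField.adjoin_simple_le_iff]
      have h1 := add_mem (IntermediateField.mem_adjoin_simple_self k (t - algebraMap k K c))
        (IntermediateField.algebraMap_mem _ c)
      rwa [sub_add_cancel] at h1
  have h1 : (Algebra.norm k (t - algebraMap k K c)) ^ 2 =
      ((minpoly k t).eval c) ^ (2 * Module.finrank k⟮t⟯ K) := by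
    have hi : IsIntegral k (t - algebraMap k K c) := Algebra.IsIntegral.isIntegral _
    have hs' : Module.finrank k⟮t - algebraMap k K c⟯ K = Module.finrank k⟮t⟯ K := by rw [hs]
    rw [Algebra.norm_eq_norm_adjoin, hs']
    have h2 := Algebra.PowerBasis.norm_gen_eq_coeff_zero_minpoly
      (IntermediateField.adjoin.powerBasis hi)
    rw [IntermediateField.adjoin.powerBasis_gen, IntermediateField.minpoly_gen,
      minpoly.sub_algebraMap, coeff_zero_eq_eval_zero, eval_comp] at h2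
    rw [h2, ← pow_mul, mul_comm (Module.finrank k⟮t⟯ K) 2, pow_mul, pow_mul, mul_pow,
      ← pow_mul, mul_comm _ 2, pow_mul]
    simp
  rw [← h1, ← map_pow, ← map_pow]
  congr 1
  ring

theorem a9_trans {K : Type} [Field K] [Algebra ℂ K] {t : K} (htc : t ∉ (algebraMap ℂ K).range) :
    Transcendental ℂ t := by
  intro h1
  have h2 : IsIntegral ℂ t := IsAlgebraic.isIntegral h1
  exact htc (minpoly.mem_range_of_degree_eq_one ℂ t
    (IsAlgClosed.degree_eq_one_of_irreducible ℂ (minpoly.irreducible h2)))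

/-- the coefficients of `X ^ j` of the coefficients of `P`, as a polynomial in `T` -/
noncomputable def a9_cf (P : ℂ[X][X]) (j : ℕ) : ℂ[X] :=
  ∑ i ∈ Finset.range (P.natDegree + 1), C ((P.coeff i).coeff j) * X ^ i

theorem a9_eval (P : ℂ[X][X]) (j : ℕ) (c : ℂ) :
    (a9_cf P j).eval c = (P.eval (C c)).coeff j := by
  rw [a9_cf, eval_finsetSum, eval_eq_sum_range, finsetSum_coeff]
  refine Finset.sum_congr rfl fun i _ => ?_
  rw [← C_pow, coeff_mul_C]
  simp

theorem a9_coeff (P : ℂ[X][X]) (i j : ℕ) : (a9_cf P j).coeff i = (P.coeff i).coeff j := by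
  rw [a9_cf, finsetSum_coeff]
  simp only [coeff_C_mul, coeff_X_pow, mul_ite, mul_one, mul_zero]
  rw [Finset.sum_ite_eq]
  split_ifs with h
  · rfl
  · rw [Finset.mem_range, not_lt] at h
    have h0 : P.coeff i = 0 := coeff_eq_zero_of_natDegree_lt (by omega)
    rw [h0, coeff_zero]

theorem a9_deg (P : ℂ[X][X]) (k : ℕ) (h : ∀ c : ℂ, (P.eval (C c)).natDegree ≤ k) (i : ℕ) :
    (P.coeff i).natDegree ≤ k := by
  rw [natDegree_le_iff_coeff_eq_zero]
  intro j hj
  have h1 : a9_cf P j = 0 := by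
    apply Polynomial.funext
    intro c
    rw [a9_eval, eval_zero]
    exact coeff_eq_zero_of_natDegree_lt (lt_of_le_of_lt (h c) hj)
  rw [← a9_coeff, h1, coeff_zero]

theorem a9_sum {K : Type} [Field K] [Algebra ℂ K] (x t : K) (P : ℂ[X][X]) (k : ℕ)
    (h : ∀ i, (P.coeff i).natDegree ≤ k) :
    P.eval₂ (aeval x : ℂ[X] →ₐ[ℂ] K).toRingHom t =
      ∑ j ∈ Finset.range (k + 1), x ^ j * aeval t (a9_cf P j) := by
  rw [eval₂_eq_sum_range]
  have h1 : ∀ i, (aeval x : ℂ[X] →ₐ[ℂ] K).toRingHom (P.coeff i) =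
      ∑ j ∈ Finset.range (k + 1), algebraMap ℂ K ((P.coeff i).coeff j) * x ^ j := by
    intro i
    show aeval x (P.coeff i) = _
    rw [aeval_eq_sum_range' (lt_of_le_of_lt (h i) (Nat.lt_succ_self k))]
    simp [Algebra.smul_def]
  simp_rw [h1, Finset.sum_mul]
  rw [Finset.sum_comm]
  refine Finset.sum_congr rfl fun j _ => ?_
  rw [a9_cf, map_sum, Finset.mul_sum]
  refine Finset.sum_congr rfl fun i _ => ?_
  rw [map_mul, aeval_C, map_pow, aeval_X]
  ring

theorem gz_end {K : Type} [Field K] [Algebra ℂ K] {x : K} (hx : Transcendental ℂ x)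
    [FiniteDimensional ℂ⟮x⟯ K] {t : K} (ht : t ∈ IntOver x)
    (htc : t ∉ (algebraMap ℂ K).range)
    (hn : ∀ c : ℂ, ∃ p : ℂ[X], p.natDegree ≤ 1 ∧ aeval x p = nm x (algebraMap ℂ K c - t)) :
    ℂ⟮t⟯ = ⊤ := by
  have htr := a9_trans htc
  have hpid := pid x hx
  have hcz : CharZero ℂ⟮x⟯ := charZero_of_injective_algebraMap (algebraMap ℂ ℂ⟮x⟯).injective
  have hti : IsIntegral (Algebra.adjoin ℂ {x}) t := mem_intOver.1 ht
  let e := Polynomial.algEquivOfTranscendental ℂ x hx
  have he : ∀ z : Algebra.adjoin ℂ {x}, aeval x (e.symm z) = (z : K) := by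
    intro z
    obtain ⟨p, rfl⟩ := e.surjective z
    rw [AlgEquiv.symm_apply_apply]
    simp [e]
  have hcomp : (aeval x : ℂ[X] →ₐ[ℂ] K).toRingHom.comp (e.symm : _ ≃ₐ[ℂ] ℂ[X]).toRingHom =
      algebraMap (Algebra.adjoin ℂ {x}) K := RingHom.ext he
  set m := minpoly (Algebra.adjoin ℂ {x}) t with hm
  have hmm : m.Monic := minpoly.monic hti
  let P : ℂ[X][X] := m.map (e.symm : _ ≃ₐ[ℂ] ℂ[X]).toRingHom
  have hP : P.Monic := hmm.map _
  have hmin : minpoly ℂ⟮x⟯ t = m.map (algebraMap (Algebra.adjoin ℂ {x}) ℂ⟮x⟯) :=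
    minpoly.isIntegrallyClosed_eq_field_fractions' ℂ⟮x⟯ hti
  have hroot : P.eval₂ (aeval x : ℂ[X] →ₐ[ℂ] K).toRingHom t = 0 := by
    rw [eval₂_map, hcomp]
    exact minpoly.aeval _ t
  have hev : ∀ c : ℂ, algebraMap ℂ⟮x⟯ K ((minpoly ℂ⟮x⟯ t).eval (algebraMap ℂ ℂ⟮x⟯ c)) =
      aeval x (P.eval (C c)) := by
    intro c
    rw [hmin, eval_map, hom_eval₂]
    show _ = (aeval x : ℂ[X] →ₐ[ℂ] K).toRingHom (P.eval (C c))
    rw [eval_map, hom_eval₂, hcomp]
    congr 1
    show algebraMap ℂ K c = aeval x (C c)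
    rw [aeval_C]
  set r := Module.finrank ℂ⟮x⟯⟮t⟯ K with hr
  have hrpos : 0 < r := Module.finrank_pos
  have hdeg : ∀ c : ℂ, r * (P.eval (C c)).natDegree ≤ 1 := by
    intro c
    obtain ⟨p, hp1, hp⟩ := hn c
    have h1 : aeval x (p ^ 2) = aeval x ((P.eval (C c)) ^ (2 * r)) := by
      rw [map_pow, map_pow, hp, ← hev, nm, ← map_pow (algebraMap ℂ⟮x⟯ K),
        ← map_pow (algebraMap ℂ⟮x⟯ K)]
      congr 1
      exact a9_sq t (algebraMap ℂ ℂ⟮x⟯ c)
    have h2 : p ^ 2 = (P.eval (C c)) ^ (2 * r) :=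
      (transcendental_iff_injective.1 hx) h1
    have h3 := congrArg natDegree h2
    rw [natDegree_pow, natDegree_pow] at h3
    nlinarith
  have hr1 : r = 1 := by
    by_contra hne
    have hr2 : 2 ≤ r := by omega
    have h0 : ∀ i, (P.coeff i).natDegree ≤ 0 := a9_deg P 0 fun c => by
      have := hdeg c
      nlinarith
    have h1 := a9_sum x t P 0 h0
    rw [hroot] at h1
    simp only [zero_add, Finset.range_one, Finset.sum_singleton, pow_zero, one_mul] at h1
    have h2 : a9_cf P 0 = 0 := (transcendental_iff.1 htr) _ h1.symm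
    have h3 := a9_coeff P P.natDegree 0
    rw [h2, coeff_natDegree, hP.leadingCoeff] at h3
    simp at h3
  have h1 : ∀ i, (P.coeff i).natDegree ≤ 1 := a9_deg P 1 fun c => by
    have := hdeg c
    rwa [hr1, one_mul] at this
  have hsum := a9_sum x t P 1 h1
  rw [hroot, Finset.sum_range_succ, Finset.range_one, Finset.sum_singleton, pow_zero, one_mul,
    pow_one] at hsum
  have hne : aeval t (a9_cf P 1) ≠ 0 := by
    intro h0
    rw [h0, mul_zero, add_zero] at hsum
    have h2 : a9_cf P 0 = 0 := (transcendental_iff.1 htr) _ hsum.symm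
    have h3 := a9_coeff P P.natDegree 0
    rw [h2, coeff_natDegree, hP.leadingCoeff] at h3
    simp at h3
  have hmem : ∀ q : ℂ[X], aeval t q ∈ ℂ⟮t⟯ := fun q =>
    (IntermediateField.algebra_adjoin_le_adjoin ℂ {t}) (by
      rw [Algebra.adjoin_singleton_eq_range_aeval]
      exact ⟨q, rfl⟩)
  have hxt : x ∈ ℂ⟮t⟯ := by
    have : x = -aeval t (a9_cf P 0) / aeval t (a9_cf P 1) := by
      field_simp
      linear_combination -hsum
    rw [this]
    exact div_mem (neg_mem (hmem _)) (hmem _)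
  have htop : ℂ⟮x⟯⟮t⟯ = ⊤ := IntermediateField.finrank_eq_one_iff_eq_top.1 hr1
  rw [eq_top_iff]
  intro y _
  have hy : y ∈ ℂ⟮x⟯⟮t⟯ := by rw [htop]; trivial
  refine IntermediateField.adjoin_induction (F := ℂ⟮x⟯) (s := {t})
    (p := fun z _ => z ∈ ℂ⟮t⟯) ?_ ?_ ?_ ?_ ?_ hy
  · intro z hz
    rw [Set.mem_singleton_iff] at hz
    rw [hz]
    exact IntermediateField.mem_adjoin_simple_self ℂ t
  · intro z
    exact (IntermediateField.adjoin_simple_le_iff.2 hxt) z.2
  · intro a b _ _ ha hb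
    exact add_mem ha hb
  · intro a _ ha
    exact inv_mem ha
  · intro a b _ _ ha hb
    exact mul_mem ha hb


end Pool.Agent.PT
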