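import Pool.Agent.Lib_helper82.PT.P.A5
import Pool.Agent.Lib_helper82.PT.P.A6b
import Pool.Agent.Lib_helper82.PT.P.A7
import Pool.Agent.Lib_helper82.PT.P.A8
import Pool.Agent.Lib_helper82.PT.P.A9

set_option autoImplicit false

open Polynomial
open scoped IntermediateField IntermediateField.algebraAdjoinAdjoin

namespace Pool.Agent.PT

variable {K : Type} [Field K] [Algebra ℂ K] {x : K}

variable {L : Type} [Field L] [Algebra ℂ L] [Algebra K L] [IsScalarTower ℂ K L]

/-- The function field `K` is rational, or there is a nonzero regular differential. -/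
theorem dichotomy (δ : Derivation ℂ K L) (hx : Transcendental ℂ x) [FiniteDimensional ℂ⟮x⟯ K] :
    (∃ t : K, ℂ⟮t⟯ = ⊤) ∨ ∃ w : K, w ≠ 0 ∧ IsKd δ x (w • δ x) ∧ IsKd δ x⁻¹ (w • δ x) := by
  by_cases h : ∀ f : K, (∃ N : ℕ, x ^ N * f ∈ IntOver x) →
      ∃ a ∈ IntOver x, ∃ b ∈ IntOver x⁻¹, f = a + b
  · left
    obtain ⟨χ₀, t, h0, ht, ht', hp⟩ := gz_fun hx h
    refine ⟨t, gz_end hx ht ?_ fun c => gz_norm hx χ₀ h0 ht hp c⟩
    rintro ⟨c, rfl⟩
    exact ht' (Subalgebra.algebraMap_mem _ c)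
  · right
    push Not at h
    obtain ⟨f, hf, hne⟩ := h
    obtain ⟨w, hw0, hw, hw'⟩ := duality hx hf hne
    refine ⟨w, hw0, cod_kd δ hx hw, ?_⟩
    have := fd_inv x
    have h1 : CoD x⁻¹ (x ^ 2 * w) := by
      intro b hb
      rw [tr_inv]
      exact hw' b hb
    have h2 := kd_neg (cod_kd δ (inv_tr hx) h1)
    have h3 : -((x ^ 2 * w) • δ x⁻¹) = w • δ x := by
      rw [Derivation.leibniz_inv, smul_smul, ← neg_smul]
      have := ne_zero_of_tr hx
      congr 1
      field_simp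
    rwa [h3] at h2

end Pool.Agent.PT
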