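import Pool.Agent.Lib_helper82.PT.AlgBase2
import Pool.Agent.Lib_helper82.PT.DefsB

/-! # PT, block E4a: the limit directions with vanishing `j`-th coordinate -/

set_option autoImplicit false

open Filter Topology Metric Set

namespace Pool.Agent.PT

/-- homogeneous polynomials and scalars -/
theorem e4a_smul {σ : Type} {p : MvPolynomial σ ℂ} {d : ℕ} (hp : p.IsHomogeneous d) (c : ℂ)
    (x : σ → ℂ) : MvPolynomial.eval (fun i => c * x i) p = c ^ d * MvPolynomial.eval x p := by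
  rw [MvPolynomial.eval_eq, MvPolynomial.eval_eq, Finset.mul_sum]
  refine Finset.sum_congr rfl fun m hm => ?_
  have h1 : ∑ i ∈ m.support, m i = d := by
    have h2 := hp.degree_eq_sum_deg_support hm
    rw [h2]
  simp only [mul_pow]
  rw [Finset.prod_mul_distrib, Finset.prod_pow_eq_pow_sum, h1]
  ring

/-- the lowest part of a ternary form in the first variable -/
theorem e4a_low {d : ℕ} {R : MvPolynomial (Fin 3) ℂ} (hR0 : R ≠ 0) (hR : R.IsHomogeneous d) :
    ∃ (m e : ℕ) (R' : MvPolynomial (Fin 3) ℂ) (G : MvPolynomial (Fin 2) ℂ), G ≠ 0 ∧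
      G.IsHomogeneous e ∧ (∀ x y z : ℂ, MvPolynomial.eval ![x, y, z] R =
        x ^ m * MvPolynomial.eval ![x, y, z] R') ∧
      ∀ y z : ℂ, MvPolynomial.eval ![0, y, z] R' = MvPolynomial.eval ![y, z] G := by
  set Q := MvPolynomial.finSuccEquiv ℂ 2 R with hQ
  have hQ0 : Q ≠ 0 := by
    rw [hQ]
    exact (map_ne_zero_iff _ (MvPolynomial.finSuccEquiv ℂ 2).injective).mpr hR0
  obtain ⟨q, hq1, hq2⟩ := Polynomial.exists_eq_pow_rootMultiplicity_mul_and_not_dvd Q hQ0 0
  rw [map_zero, sub_zero] at hq1 hq2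
  set m := Polynomial.rootMultiplicity 0 Q with hm
  have hG0 : q.coeff 0 ≠ 0 := fun h => hq2 (Polynomial.X_dvd_iff.mpr h)
  have hGm : q.coeff 0 = Q.coeff m := by
    rw [hq1, Polynomial.coeff_X_pow_mul', if_pos le_rfl, Nat.sub_self]
  have hmd : m ≤ d := by
    have h1 : m ≤ Q.natDegree := Polynomial.le_natDegree_of_ne_zero (by rw [← hGm]; exact hG0)
    have h2 : Q.natDegree ≤ d := by
      rw [hQ, MvPolynomial.natDegree_finSuccEquiv]
      exact le_trans (MvPolynomial.degreeOf_le_totalDegree R 0) hR.totalDegree_le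
    omega
  refine ⟨m, d - m, (MvPolynomial.finSuccEquiv ℂ 2).symm q, q.coeff 0, hG0, ?_, ?_, ?_⟩
  · rw [hGm]
    exact hR.finSuccEquiv_coeff_isHomogeneous m (d - m) (by omega)
  · intro x y z
    have e : (![x, y, z] : Fin 3 → ℂ) = Fin.cons x ![y, z] := rfl
    rw [e, MvPolynomial.eval_eq_eval_mv_eval', MvPolynomial.eval_eq_eval_mv_eval',
      AlgEquiv.apply_symm_apply, ← hQ]
    conv_lhs => rw [hq1]
    rw [Polynomial.map_mul, Polynomial.map_pow, Polynomial.map_X, Polynomial.eval_mul,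
      Polynomial.eval_pow, Polynomial.eval_X]
  · intro y z
    have e : (![0, y, z] : Fin 3 → ℂ) = Fin.cons 0 ![y, z] := rfl
    rw [e, MvPolynomial.eval_eq_eval_mv_eval', AlgEquiv.apply_symm_apply,
      ← Polynomial.coeff_zero_eq_eval_zero, Polynomial.coeff_map]

/-- a nonzero binary form has finitely many zeros `(1, w)` -/
theorem e4a_fin {e : ℕ} {G : MvPolynomial (Fin 2) ℂ} (hG0 : G ≠ 0) (hG : G.IsHomogeneous e) :
    ∃ T : Finset ℂ, ∀ y z : ℂ, y ≠ 0 → MvPolynomial.eval ![y, z] G = 0 → y⁻¹ * z ∈ T := by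
  set g : Polynomial ℂ := MvPolynomial.aeval ![1, Polynomial.X] G with hg
  have hev : ∀ w : ℂ, g.eval w = MvPolynomial.eval ![1, w] G := by
    intro w
    have h1 : (Polynomial.evalRingHom w) (MvPolynomial.aeval ![1, Polynomial.X] G) =
        MvPolynomial.eval ![1, w] G := by
      rw [MvPolynomial.aeval_def, MvPolynomial.eval₂_eq', map_sum, MvPolynomial.eval_eq']
      refine Finset.sum_congr rfl fun m _ => ?_
      rw [map_mul, map_prod, Fin.prod_univ_two, Fin.prod_univ_two]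
      simp
    exact h1
  have hy : ∀ y z : ℂ, y ≠ 0 → MvPolynomial.eval ![y, z] G =
      y ^ e * MvPolynomial.eval ![1, y⁻¹ * z] G := by
    intro y z hy
    rw [← e4a_smul hG y ![1, y⁻¹ * z]]
    congr 2
    funext i
    fin_cases i
    · simp
    · simp [hy]
  have hg0 : g ≠ 0 := by
    intro h0
    have h1 : MvPolynomial.X 0 * G = 0 := by
      apply MvPolynomial.funext
      intro x
      rw [map_mul, map_zero, MvPolynomial.eval_X]
      by_cases hx : x 0 = 0
      · rw [hx, zero_mul]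
      · have h2 : x = ![x 0, x 1] := by
          funext i
          fin_cases i <;> rfl
        have h3 : MvPolynomial.eval x G = 0 := by
          rw [h2, hy _ _ hx, ← hev, h0]
          simp
        rw [h3, mul_zero]
    rcases mul_eq_zero.mp h1 with h2 | h2
    · exact MvPolynomial.X_ne_zero 0 h2
    · exact hG0 h2
  refine ⟨g.roots.toFinset, fun y z hy0 h => ?_⟩
  rw [Multiset.mem_toFinset, Polynomial.mem_roots hg0, Polynomial.IsRoot.def, hev]
  rw [hy y z hy0] at h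
  exact (mul_eq_zero.mp h).resolve_left (pow_ne_zero _ hy0)

/-- approximation by points with nonvanishing `j`-th coordinate -/
theorem e4a_approx {n : ℕ} {H : ℂ → IS.PP n} (hH : IS.HolP H) {j : Fin (n + 1)}
    {φ : Fin (n + 1) → Mer} (hc : IsCoord H j φ) (z₀ c : ℂ) {ε : ℝ} (hε : 0 < ε) :
    ∃ z c' : ℂ, (H z).rep j ≠ 0 ∧ ‖c' • (H z).rep - c • (H z₀).rep‖ < ε := by
  obtain ⟨F, hF⟩ := hH z₀
  have h1 := hc.2 z₀ F hF
  obtain ⟨hF0, hne0, hH0⟩ := hF.self_of_nhds
  obtain ⟨u₀, hu₀⟩ := Projectivization.exists_smul_eq_mk_rep ℂ (F z₀) hne0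
  have hcont : ContinuousAt (fun z => (c * (u₀ : ℂ)) • F z) z₀ :=
    ContinuousAt.comp (g := fun w : Fin (n + 1) → ℂ => (c * (u₀ : ℂ)) • w)
      (continuous_const_smul (c * (u₀ : ℂ))).continuousAt hF0.continuousAt
  have h2 : ∀ᶠ z in 𝓝 z₀, ‖(c * (u₀ : ℂ)) • F z - (c * (u₀ : ℂ)) • F z₀‖ < ε := by
    have h3 := Metric.continuousAt_iff.mp hcont ε hε
    obtain ⟨δ, hδ, h3⟩ := h3
    filter_upwards [Metric.ball_mem_nhds z₀ hδ] with z hz
    have h4 := h3 hz
    rwa [dist_eq_norm] at h4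
  have h3 := (h1.and ((hF.and h2).filter_mono nhdsWithin_le_nhds)).exists
  obtain ⟨z, ⟨hz1, -⟩, ⟨-, hz2, hz3⟩, hz4⟩ := h3
  obtain ⟨u, hu⟩ := Projectivization.exists_smul_eq_mk_rep ℂ (F z) hz2
  rw [← hz3] at hu
  rw [← hH0] at hu₀
  have hu' : (H z).rep = (u : ℂ) • F z := hu.symm
  have hu₀' : (H z₀).rep = (u₀ : ℂ) • F z₀ := hu₀.symm
  refine ⟨z, c * (u₀ : ℂ) * (u : ℂ)⁻¹, ?_, ?_⟩
  · rw [hu', Pi.smul_apply, smul_eq_mul]
    exact mul_ne_zero u.ne_zero hz1
  · have e1 : (c * (u₀ : ℂ) * (u : ℂ)⁻¹) • (H z).rep = (c * (u₀ : ℂ)) • F z := by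
      rw [hu', smul_smul]
      congr 1
      field_simp
    have e2 : c • (H z₀).rep = (c * (u₀ : ℂ)) • F z₀ := by
      rw [hu₀', smul_smul]
    rw [e1, e2]
    exact hz4

/-- the relation in the limit -/
theorem e4a_lim {n : ℕ} {H : ℂ → IS.PP n} (hH : IS.HolP H) {j : Fin (n + 1)}
    {φ : Fin (n + 1) → Mer} (hc : IsCoord H j φ) (hR : IS.Rel3 H) (a b : Fin (n + 1)) :
    ∃ (e : ℕ) (G : MvPolynomial (Fin 2) ℂ), G ≠ 0 ∧ G.IsHomogeneous e ∧
      ∀ v : Fin (n + 1) → ℂ, v ≠ 0 → v j = 0 →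
      (∃ (z : ℕ → ℂ) (c : ℕ → ℂ), Tendsto (fun k => c k • (H (z k)).rep) atTop (𝓝 v)) →
      MvPolynomial.eval ![v a, v b] G = 0 := by
  obtain ⟨d, R, hR0, hRh, hRz⟩ := hR j a b
  obtain ⟨m, e, R', G, hG0, hGh, hRR, hRG⟩ := e4a_low hR0 hRh
  refine ⟨e, G, hG0, hGh, ?_⟩
  rintro v hv0 hvj ⟨z, c, hzc⟩
  have h1 : ∀ k : ℕ, ∃ z' c' : ℂ, (H z').rep j ≠ 0 ∧
      ‖c' • (H z').rep - c k • (H (z k)).rep‖ < 1 / ((k : ℝ) + 1) := fun k =>
    e4a_approx hH hc (z k) (c k) (by positivity)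
  choose z' c' hz' hc' using h1
  have h2 : Tendsto (fun k => c' k • (H (z' k)).rep) atTop (𝓝 v) := by
    have h3 : Tendsto (fun k => c' k • (H (z' k)).rep - c k • (H (z k)).rep) atTop (𝓝 0) := by
      refine squeeze_zero_norm (a := fun k : ℕ => 1 / ((k : ℝ) + 1)) (fun k => (hc' k).le) ?_
      exact tendsto_one_div_add_atTop_nhds_zero_nat
    have h4 := h3.add hzc
    rw [zero_add] at h4
    refine h4.congr fun k => ?_
    rw [sub_add_cancel]
  -- eventually the factor is nonzero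
  have h3 : ∀ᶠ k in atTop, c' k ≠ 0 := by
    have h4 : ∀ᶠ k in atTop, c' k • (H (z' k)).rep ≠ 0 := h2.eventually_ne hv0
    filter_upwards [h4] with k hk h0
    apply hk
    rw [h0, zero_smul]
  have hco : ∀ i : Fin (n + 1), Tendsto (fun k => c' k * (H (z' k)).rep i) atTop (𝓝 (v i)) := by
    intro i
    have h4 := (continuous_apply i).continuousAt.tendsto.comp h2
    exact h4
  have h5 : ∀ᶠ k in atTop, MvPolynomial.eval ![c' k * (H (z' k)).rep j, c' k * (H (z' k)).rep a,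
      c' k * (H (z' k)).rep b] R' = 0 := by
    filter_upwards [h3] with k hk
    have h6 := hRz (z' k)
    have h7 := e4a_smul hRh (c' k) ![(H (z' k)).rep j, (H (z' k)).rep a, (H (z' k)).rep b]
    rw [h6, mul_zero] at h7
    have h8 : (fun i => c' k * (![(H (z' k)).rep j, (H (z' k)).rep a, (H (z' k)).rep b] :
        Fin 3 → ℂ) i) = ![c' k * (H (z' k)).rep j, c' k * (H (z' k)).rep a,
        c' k * (H (z' k)).rep b] := by
      funext i
      fin_cases i <;> rfl
    rw [h8, hRR] at h7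
    exact (mul_eq_zero.mp h7).resolve_left (pow_ne_zero _ (mul_ne_zero hk (hz' k)))
  have h6 : Tendsto (fun k => MvPolynomial.eval ![c' k * (H (z' k)).rep j,
      c' k * (H (z' k)).rep a, c' k * (H (z' k)).rep b] R') atTop
      (𝓝 (MvPolynomial.eval ![v j, v a, v b] R')) := by
    have h7 : Tendsto (fun k => (![c' k * (H (z' k)).rep j,
      c' k * (H (z' k)).rep a, c' k * (H (z' k)).rep b] : Fin 3 → ℂ)) atTop
      (𝓝 ![v j, v a, v b]) := by
      rw [tendsto_pi_nhds]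
      intro i
      fin_cases i
      · exact hco j
      · exact hco a
      · exact hco b
    exact ((MvPolynomial.continuous_eval R').continuousAt.tendsto).comp h7
  have h7 := tendsto_nhds_unique h6 ((tendsto_congr' h5).mpr tendsto_const_nhds)
  rw [hvj, hRG] at h7
  exact h7

theorem zero_set {n : ℕ} {H : ℂ → IS.PP n} (hH : IS.HolP H) {j : Fin (n + 1)}
    {φ : Fin (n + 1) → Mer} (hc : IsCoord H j φ) (hR : IS.Rel3 H) :
    ∃ S : Finset (Fin (n + 1) → ℂ), (∀ s ∈ S, s ≠ 0) ∧ ∀ v : Fin (n + 1) → ℂ, v ≠ 0 → v j = 0 →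
      (∃ (z : ℕ → ℂ) (c : ℕ → ℂ), Tendsto (fun k => c k • (H (z k)).rep) atTop (𝓝 v)) →
      ∃ s ∈ S, ∃ a : ℂ, v = a • s := by
  classical
  choose e G hG0 hGh hG using fun a b => e4a_lim hH hc hR a b
  choose T hT using fun a b => e4a_fin (hG0 a b) (hGh a b)
  refine ⟨(Finset.univ : Finset (Fin (n + 1))).biUnion fun a =>
    (Fintype.piFinset fun b => T a b).filter fun w => w a = 1, ?_, ?_⟩
  · intro s hs h0
    rw [Finset.mem_biUnion] at hs
    obtain ⟨a, -, ha⟩ := hs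
    rw [Finset.mem_filter] at ha
    have h1 := ha.2
    rw [h0] at h1
    simp at h1
  · intro v hv0 hvj hz
    obtain ⟨a, ha⟩ : ∃ a, v a ≠ 0 := by
      by_contra hcon
      push Not at hcon
      exact hv0 (funext hcon)
    refine ⟨fun b => (v a)⁻¹ * v b, ?_, v a, ?_⟩
    · rw [Finset.mem_biUnion]
      refine ⟨a, Finset.mem_univ a, ?_⟩
      rw [Finset.mem_filter, Fintype.mem_piFinset]
      exact ⟨fun b => hT a b _ _ ha (hG a b v hv0 hvj hz), inv_mul_cancel₀ ha⟩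
    · funext b
      rw [Pi.smul_apply, smul_eq_mul, ← mul_assoc, mul_inv_cancel₀ ha, one_mul]


end Pool.Agent.PT
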